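import Mathlib

/-!
# Finite translation planes from a family of additive maps

`K` is a finite additive group, `phi : K → K →+ K` a family of additive maps such that for `x ≠ 0` the
values `phi m x` determine `m`.  The affine lines `y = phi m x + b` and `x = c` complete to a projective
plane.
-/

set_option autoImplicit false

namespace Pool.Agent.H9.Welsh

/-- A family of additive maps `K → K`, indexed by `K`, any two of which agree only at `0`. -/
structure Sys (K : Type) [AddCommGroup K] where
  phi : K → K →+ K
  inj : ∀ m m' x, x ≠ 0 → phi m x = phi m' x → m = m'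

/-- Points of the plane: affine points and points at infinity. -/
inductive Pt (K : Type) : Type
  | aff (x y : K) : Pt K
  | inf (m : Option K) : Pt K

/-- Lines of the plane. -/
inductive Ln {K : Type} [AddCommGroup K] (S : Sys K) : Type
  | sl (m b : K) : Ln S
  | vert (c : K) : Ln S
  | infl : Ln S

variable {K : Type} [AddCommGroup K] (S : Sys K)

/-- Incidence. -/
def Inc : Ln S → Pt K → Prop
  | .sl m b, .aff x y => y = S.phi m x + b
  | .vert c, .aff x _ => x = c
  | .infl, .aff _ _ => False
  | .sl m _, .inf n => n = some m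
  | .vert _, .inf n => n = none
  | .infl, .inf _ => True

instance instMem : Membership (Pt K) (Ln S) := ⟨Inc S⟩

@[simp] theorem mem_sl_aff (m b x y : K) :
    (Pt.aff x y) ∈ (Ln.sl m b : Ln S) ↔ y = S.phi m x + b := Iff.rfl
@[simp] theorem mem_vert_aff (c x y : K) : (Pt.aff x y) ∈ (Ln.vert c : Ln S) ↔ x = c := Iff.rfl
@[simp] theorem mem_infl_aff (x y : K) : (Pt.aff x y) ∈ (Ln.infl : Ln S) ↔ False := Iff.rfl
@[simp] theorem mem_sl_inf (m b : K) (n : Option K) :
    (Pt.inf n) ∈ (Ln.sl m b : Ln S) ↔ n = some m := Iff.rfl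
@[simp] theorem mem_vert_inf (c : K) (n : Option K) :
    (Pt.inf n) ∈ (Ln.vert c : Ln S) ↔ n = none := Iff.rfl
@[simp] theorem mem_infl_inf (n : Option K) : (Pt.inf n) ∈ (Ln.infl : Ln S) ↔ True := Iff.rfl

instance instFinitePt [Finite K] : Finite (Pt K) := by
  have : Function.Injective (fun p : Pt K => match p with
    | .aff x y => (Sum.inl (x, y) : (K × K) ⊕ Option K)
    | .inf m => Sum.inr m) := by
    intro p q h
    rcases p with ⟨x, y⟩ | m <;> rcases q with ⟨x', y'⟩ | m' <;> simp_all
  exact Finite.of_injective _ this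

instance instFiniteLn [Finite K] : Finite (Ln S) := by
  have : Function.Injective (fun p : Ln S => match p with
    | .sl x y => (Sum.inl (x, y) : (K × K) ⊕ Option K)
    | .vert c => Sum.inr (some c)
    | .infl => Sum.inr none) := by
    intro p q h
    rcases p with ⟨x, y⟩ | m | _ <;> rcases q with ⟨x', y'⟩ | m' | _ <;> simp_all
  exact Finite.of_injective _ this

theorem surj_index [Finite K] {x : K} (hx : x ≠ 0) (y : K) : ∃ m, S.phi m x = y :=
  (Finite.injective_iff_surjective.mp
    (show Function.Injective (fun m => S.phi m x) from fun m m' h => S.inj m m' x hx h)) y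

theorem inj_diff {m m' : K} (h : m ≠ m') :
    Function.Injective (fun x => S.phi m x - S.phi m' x) := by
  intro x x' hx
  by_contra hne
  have h1 : S.phi m (x - x') = S.phi m' (x - x') := by
    have := hx
    simp only [map_sub] at this ⊢
    rw [sub_eq_sub_iff_add_eq_add] at this ⊢
    have h2 : S.phi m x + S.phi m' x' = S.phi m x' + S.phi m' x := this
    rw [h2]; abel
  exact h (S.inj m m' (x - x') (sub_ne_zero.mpr hne) h1)

theorem surj_diff [Finite K] {m m' : K} (h : m ≠ m') (y : K) :
    ∃ x, S.phi m x - S.phi m' x = y :=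
  (Finite.injective_iff_surjective.mp (inj_diff S h)) y

theorem exists_line_through [Finite K] {p q : Pt K} (h : p ≠ q) : ∃ l : Ln S, p ∈ l ∧ q ∈ l := by
  rcases p with ⟨x, y⟩ | m <;> rcases q with ⟨x', y'⟩ | m'
  · by_cases hx : x = x'
    · subst hx
      exact ⟨.vert x, by simp, by simp⟩
    · obtain ⟨m, hm⟩ := surj_index S (sub_ne_zero.mpr hx) (y - y')
      refine ⟨.sl m (y - S.phi m x), by simp, ?_⟩
      rw [mem_sl_aff]
      rw [map_sub] at hm
      have : y' = y - (S.phi m x - S.phi m x') := by rw [hm]; abel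
      rw [this]; abel
  · rcases m' with _ | m'
    · exact ⟨.vert x, by simp, by simp⟩
    · exact ⟨.sl m' (y - S.phi m' x), by simp, by simp⟩
  · rcases m with _ | m
    · exact ⟨.vert x', by simp, by simp⟩
    · exact ⟨.sl m (y' - S.phi m x'), by simp, by simp⟩
  · exact ⟨.infl, by simp, by simp⟩

theorem exists_point_on [Finite K] {l l' : Ln S} (h : l ≠ l') : ∃ p : Pt K, p ∈ l ∧ p ∈ l' := by
  rcases l with ⟨m, b⟩ | c | _ <;> rcases l' with ⟨m', b'⟩ | c' | _
  · by_cases hm : m = m'
    · subst hm
      exact ⟨.inf (some m), by simp, by simp⟩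
    · obtain ⟨x, hx⟩ := surj_diff S hm (b' - b)
      refine ⟨.aff x (S.phi m x + b), by simp, ?_⟩
      rw [mem_sl_aff]
      have : S.phi m x = S.phi m' x + (b' - b) := by rw [← hx]; abel
      rw [this]; abel
  · exact ⟨.aff c' (S.phi m c' + b), by simp, by simp⟩
  · exact ⟨.inf (some m), by simp, by simp⟩
  · exact ⟨.aff c (S.phi m' c + b'), by simp, by simp⟩
  · exact ⟨.inf none, by simp, by simp⟩
  · exact ⟨.inf none, by simp, by simp⟩
  · exact ⟨.inf (some m'), by simp, by simp⟩
  · exact ⟨.inf none, by simp, by simp⟩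
  · exact absurd rfl h

theorem unique_line {p q : Pt K} {l l' : Ln S} (hp : p ∈ l) (hq : q ∈ l) (hp' : p ∈ l')
    (hq' : q ∈ l') : p = q ∨ l = l' := by
  rcases p with ⟨x, y⟩ | m <;> rcases q with ⟨x', y'⟩ | m' <;>
  rcases l with ⟨a, b⟩ | c | _ <;> rcases l' with ⟨a', b'⟩ | c' | _ <;>
  simp only [mem_sl_aff, mem_vert_aff, mem_infl_aff, mem_sl_inf, mem_vert_inf, mem_infl_inf]
    at hp hq hp' hq' <;>
  try (first | (exact hp.elim) | (exact hq.elim) | (exact hp'.elim) | (exact hq'.elim))
  · by_cases hx : x = x'
    · left; subst hx; rw [hp, hq]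
    · right
      have e1 : S.phi a (x - x') = S.phi a' (x - x') := by
        rw [map_sub, map_sub]
        have h1 : S.phi a x + b = S.phi a' x + b' := by rw [← hp, ← hp']
        have h2 : S.phi a x' + b = S.phi a' x' + b' := by rw [← hq, ← hq']
        have h3 : S.phi a x = S.phi a' x + b' - b := by rw [← h1]; abel
        have h4 : S.phi a x' = S.phi a' x' + b' - b := by rw [← h2]; abel
        rw [h3, h4]; abel
      have e2 := S.inj a a' _ (sub_ne_zero.mpr hx) e1
      subst e2
      have : b = b' := by
        have h1 : S.phi a x + b = S.phi a x + b' := by rw [← hp, ← hp']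
        exact add_left_cancel h1
      rw [this]
  · left; subst hp' hq'; rw [hp, hq]
  · left; subst hp hq; rw [hp', hq']
  · right; rw [← hp, ← hp']
  · right
    rw [hq] at hq'
    have : a = a' := Option.some.inj hq'
    subst this
    have h1 : S.phi a x + b = S.phi a x + b' := by rw [← hp, ← hp']
    rw [add_left_cancel h1]
  · rw [hq] at hq'; exact absurd hq' (by simp)
  · rw [hq] at hq'; exact absurd hq' (by simp)
  · right; rw [← hp, ← hp']
  · right
    rw [hp] at hp'
    have : a = a' := Option.some.inj hp'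
    subst this
    have h1 : S.phi a x' + b = S.phi a x' + b' := by rw [← hq, ← hq']
    rw [add_left_cancel h1]
  · rw [hp] at hp'; exact absurd hp' (by simp)
  · rw [hp] at hp'; exact absurd hp' (by simp)
  · right; rw [← hq, ← hq']
  all_goals first
    | (right; rfl)
    | (left; rw [hp, hq])
    | (left; rw [hp', hq'])

theorem exists_point_not [Nontrivial K] (l : Ln S) : ∃ p : Pt K, p ∉ l := by
  obtain ⟨a, ha⟩ := exists_ne (0 : K)
  rcases l with ⟨m, b⟩ | c | _
  · exact ⟨.inf none, by simp⟩
  · exact ⟨.inf (some 0), by simp⟩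
  · exact ⟨.aff 0 0, by simp⟩

theorem exists_line_not [Nontrivial K] (p : Pt K) : ∃ l : Ln S, p ∉ l := by
  obtain ⟨a, ha⟩ := exists_ne (0 : K)
  rcases p with ⟨x, y⟩ | m
  · exact ⟨.infl, by simp⟩
  · rcases m with _ | m
    · exact ⟨.sl 0 0, by simp⟩
    · exact ⟨.vert 0, by simp⟩

/-- The projective plane of a system of additive maps. -/
@[reducible] noncomputable def plane [Finite K] [Nontrivial K] : Configuration.ProjectivePlane (Pt K) (Ln S) where
  exists_point := exists_point_not S
  exists_line := exists_line_not S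
  eq_or_eq := fun hp hq hp' hq' => unique_line S hp hq hp' hq'
  mkPoint := fun h => (exists_point_on S h).choose
  mkPoint_ax := fun h => (exists_point_on S h).choose_spec
  mkLine := fun h => (exists_line_through S h).choose
  mkLine_ax := fun h => (exists_line_through S h).choose_spec
  exists_config := by
    obtain ⟨a, ha⟩ := exists_ne (0 : K)
    refine ⟨.inf (some 0), .aff 0 0, .aff 0 a, .infl, .vert 0, .sl a 0, ?_⟩
    refine ⟨by simp, ?_, by simp, by simp, by simp, by simp, by simp, ?_⟩
    · simp only [mem_sl_inf, Option.some.injEq]; exact fun h => ha h.symm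
    · simp only [mem_sl_aff, map_zero, add_zero]; exact ha

end Pool.Agent.H9.Welsh
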