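import Mathlib

/-!
# The quantities attached to blocks

A block is a pair `a b : ι → ℤ` of integer vectors; `x x' y y' : ι → R` are linear forms with values in a
commutative ring.
-/

set_option autoImplicit false

namespace Pool.Agent.H9.Welsh

variable {ι : Type} [Fintype ι] {R : Type} [CommRing R]

/-- Value of the form `f` at the integer vector `a`. -/
def ev (f : ι → R) (a : ι → ℤ) : R := ∑ k, f k * (a k : R)

/-- `2 × 2` determinant of two forms on a block. -/
def dl (a b : ι → ℤ) (f g : ι → R) : R := ev f a * ev g b - ev f b * ev g a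

/-- Polar form of two blocks. -/
def Tq (a b a' b' : ι → ℤ) (x x' y y' : ι → R) : R :=
  dl a b y x' * dl a' b' y' x + dl a b y' x * dl a' b' y x' + dl a b x x' * dl a' b' y y'
    + dl a' b' x x' * dl a b y y'

/-- Discriminant of two blocks. -/
def Dq (a b a' b' : ι → ℤ) (x x' y y' : ι → R) : R :=
  Tq a b a' b' x x' y y' ^ 2
    - 4 * (dl a b x y * dl a b x' y') * (dl a' b' x y * dl a' b' x' y')

theorem map_ev {S : Type} [CommRing S] (φ : R →+* S) (f : ι → R) (a : ι → ℤ) :
    φ (ev f a) = ev (fun k => φ (f k)) a := by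
  simp [ev, map_sum, map_mul]

theorem map_dl {S : Type} [CommRing S] (φ : R →+* S) (a b : ι → ℤ) (f g : ι → R) :
    φ (dl a b f g) = dl a b (fun k => φ (f k)) (fun k => φ (g k)) := by
  simp [dl, map_ev]

theorem map_Tq {S : Type} [CommRing S] (φ : R →+* S) (a b a' b' : ι → ℤ) (x x' y y' : ι → R) :
    φ (Tq a b a' b' x x' y y') = Tq a b a' b' (fun k => φ (x k)) (fun k => φ (x' k))
      (fun k => φ (y k)) (fun k => φ (y' k)) := by
  simp [Tq, map_dl]

theorem map_Dq {S : Type} [CommRing S] (φ : R →+* S) (a b a' b' : ι → ℤ) (x x' y y' : ι → R) :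
    φ (Dq a b a' b' x x' y y') = Dq a b a' b' (fun k => φ (x k)) (fun k => φ (x' k))
      (fun k => φ (y k)) (fun k => φ (y' k)) := by
  simp [Dq, map_Tq, map_dl, map_ofNat]

theorem ev_add_smul (f g : ι → R) (r : R) (a : ι → ℤ) :
    ev (fun k => f k + r * g k) a = ev f a + r * ev g a := by
  simp only [ev, Finset.mul_sum, ← Finset.sum_add_distrib]
  refine Finset.sum_congr rfl fun k _ => by ring

/-- Plücker relation on one block. -/
theorem pluck (a b : ι → ℤ) (x x' y y' : ι → R) :
    dl a b x y * dl a b x' y' = dl a b y x' * dl a b y' x + dl a b x x' * dl a b y y' := by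
  simp only [dl]; ring

/-- Cramer's rule on a block, first vector. -/
theorem cramer_a (a b : ι → ℤ) (x x' y : ι → R) :
    dl a b x x' * ev y a = dl a b y x' * ev x a + dl a b x y * ev x' a := by
  simp only [dl]; ring

/-- Cramer's rule on a block, second vector. -/
theorem cramer_b (a b : ι → ℤ) (x x' y : ι → R) :
    dl a b x x' * ev y b = dl a b y x' * ev x b + dl a b x y * ev x' b := by
  simp only [dl]; ring

/-- If `m, n` satisfy the equations of both blocks, the discriminant is a square. -/
theorem sq_of_common (a b a' b' : ι → ℤ) (x x' y y' : ι → R) (m n : R)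
    (h1 : dl a b x x' * (m * n) + dl a b y' x * m - dl a b y x' * n + dl a b y y' = 0)
    (h2 : dl a' b' x x' * (m * n) + dl a' b' y' x * m - dl a' b' y x' * n + dl a' b' y y' = 0) :
    (m * (dl a b y' x * dl a' b' x x' - dl a' b' y' x * dl a b x x')
      + n * (dl a b y x' * dl a' b' x x' - dl a' b' y x' * dl a b x x')
      + dl a b y x' * dl a' b' y' x - dl a b y' x * dl a' b' y x') ^ 2
      = Dq a b a' b' x x' y y' := by
  unfold Dq Tq
  rw [pluck a b, pluck a' b']
  have e1 : dl a b y y' = -(dl a b x x' * (m * n)) - dl a b y' x * m + dl a b y x' * n := by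
    linear_combination h1
  have e2 : dl a' b' y y' =
      -(dl a' b' x x' * (m * n)) - dl a' b' y' x * m + dl a' b' y x' * n := by
    linear_combination h2
  rw [e1, e2]
  ring

/-- The discriminant at a first order deformation of `y' = y`. -/
theorem local_Dq (a b a' b' : ι → ℤ) (x x' y z : ι → R) (r : R)
    (hz1 : ev z a' = 0) (hz2 : ev z b' = 0)
    (h : dl a b y x' * dl a' b' x y = dl a' b' y x' * dl a b x y) :
    Dq a b a' b' x x' y (fun k => y k + r * z k) =
      4 * r * (dl a' b' x y * dl a b y z
        * (dl a' b' y x' * dl a b x x' - dl a b y x' * dl a' b' x x'))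
      + r ^ 2 * (dl a b z x * dl a' b' y x' + dl a' b' x x' * dl a b y z) ^ 2 := by
  unfold Dq Tq
  have e : ∀ c d : ι → ℤ, ∀ f : ι → R, dl c d f (fun k => y k + r * z k) =
      dl c d f y + r * dl c d f z := by
    intro c d f
    simp only [dl, ev_add_smul]; ring
  have e' : ∀ c d : ι → ℤ, ∀ f : ι → R, dl c d (fun k => y k + r * z k) f =
      dl c d y f + r * dl c d z f := by
    intro c d f
    simp only [dl, ev_add_smul]; ring
  rw [e, e, e, e, e', e']
  have z1 : ∀ f : ι → R, dl a' b' f z = 0 := by
    intro f; simp only [dl, hz1, hz2]; ring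
  have z2 : ∀ f : ι → R, dl a' b' z f = 0 := by
    intro f; simp only [dl, hz1, hz2]; ring
  rw [z1, z1, z2]
  have s1 : ∀ c d : ι → ℤ, ∀ f : ι → R, dl c d f f = 0 := by
    intro c d f; simp only [dl]; ring
  have s2 : ∀ c d : ι → ℤ, ∀ f g : ι → R, dl c d f g = - dl c d g f := by
    intro c d f g; simp only [dl]; ring
  rw [s1, s1]
  have p1 : dl a b x y * dl a b x' z = dl a b x x' * dl a b y z + dl a b z x * dl a b y x' := by
    simp only [dl]; ring
  rw [s2 a b x' y, s2 a' b' x' y, s2 a b y x, s2 a' b' y x]
  generalize dl a b x y = p at *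
  generalize dl a' b' x y = p' at *
  generalize dl a b y x' = s at *
  generalize dl a' b' y x' = s' at *
  generalize dl a b x x' = d at *
  generalize dl a' b' x x' = d' at *
  generalize dl a b y z = η at *
  generalize dl a b z x = ζ at *
  generalize dl a b x' z = θ at *
  linear_combination (4 * r * p' * s') * p1 + (s * p' - s' * p + 2 * r * (ζ * s' + d' * η)) * h

end Pool.Agent.H9.Welsh
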