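import Mathlib

/-!
# A prime modulo which prescribed integers are squares

Uses Dirichlet's theorem and quadratic reciprocity.
-/

set_option autoImplicit false

namespace Pool.Agent.H9.Welsh

/-- Chinese remainder theorem for a finite family of pairwise coprime moduli. -/
theorem crt_int {J : Type} [Fintype J] (n : J → ℕ)
    (hn : Pairwise (Function.onFun Nat.Coprime n)) (f : J → ℤ) :
    ∃ X : ℤ, ∀ j, (X : ZMod (n j)) = (f j : ZMod (n j)) := by
  obtain ⟨X, hX⟩ := ZMod.intCast_surjective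
    ((ZMod.prodEquivPi n hn).symm (fun j => (f j : ZMod (n j))))
  refine ⟨X, fun j => ?_⟩
  have h := congrArg (ZMod.prodEquivPi n hn) hX
  rw [RingEquiv.apply_symm_apply, map_intCast] at h
  exact congrFun h j

open scoped NumberTheorySymbols

/-- `J(u | b) = 1` when `4 u` divides `b + 1`. -/
theorem jacobi_one {u b : ℕ} (hu : 0 < u) (h : 4 * u ∣ b + 1) : J((u : ℤ) | b) = 1 := by
  obtain ⟨k, hk⟩ := h
  have hkpos : 0 < k := by
    rcases Nat.eq_zero_or_pos k with h0 | h0
    · rw [h0] at hk; omega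
    · exact h0
  have hodd : Odd b := by
    have : b + 1 = 2 * (2 * u * k) := by rw [hk]; ring
    exact ⟨2 * u * k - 1, by have : 0 < 2 * u * k := by positivity
                             omega⟩
  have hmod : b % (4 * u) = 4 * u - 1 := by
    obtain ⟨k', rfl⟩ : ∃ k', k = k' + 1 := ⟨k - 1, by omega⟩
    have : b = (4 * u - 1) + 4 * u * k' := by
      have : 4 * u * (k' + 1) = 4 * u * k' + 4 * u := by ring
      omega
    rw [this, Nat.add_mul_mod_self_left]
    exact Nat.mod_eq_of_lt (by omega)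
  rw [jacobiSym.mod_right _ hodd, Int.natAbs_natCast, hmod]
  have h4 : J((4 : ℤ) | 4 * u - 1) = 1 := by
    have : (4 : ℤ) = 2 ^ 2 := by norm_num
    rw [this]
    apply jacobiSym.sq_one'
    have h5 : Nat.Coprime 2 (4 * u - 1) := by
      rw [Nat.coprime_two_left]
      exact ⟨2 * u - 1, by omega⟩
    simpa [Int.gcd] using h5
  have h5 : J((4 : ℤ) * u | 4 * u - 1) = 1 := by
    rw [jacobiSym.mod_left]
    have : ((4 : ℤ) * u) % ((4 * u - 1 : ℕ) : ℤ) = 1 % ((4 * u - 1 : ℕ) : ℤ) := by
      have : ((4 : ℤ) * u) = 1 + ((4 * u - 1 : ℕ) : ℤ) := by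
        have : ((4 * u - 1 : ℕ) : ℤ) = 4 * u - 1 := by
          have : 1 ≤ 4 * u := by omega
          push_cast [this]; ring
        rw [this]; ring
      rw [this, Int.add_emod_right]
    rw [this, ← jacobiSym.mod_left, jacobiSym.one_left]
  rw [jacobiSym.mul_left, h4, one_mul] at h5
  exact h5

/-- **Choice of the prime.** -/
theorem exists_prime_squares {J : Type} [Fintype J] [DecidableEq J] (D : J → ℤ) (r : J → ℕ)
    (hr : ∀ j, (r j).Prime) (hr4 : ∀ j, r j % 4 = 1) (hinj : Function.Injective r)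
    (h1 : ∀ j, (r j : ℤ) ∣ D j) (h2 : ∀ j, ¬ (r j : ℤ) ^ 2 ∣ D j)
    (h3 : ∀ j k, j ≠ k → ¬ (r j : ℤ) ∣ D k) (B : ℕ) :
    ∃ p > B, p.Prime ∧ p % 4 = 3 ∧ ∀ j, ∃ g : ℤ, ¬ (p : ℤ) ∣ g ∧ (p : ℤ) ∣ D j - g ^ 2 := by
  classical
  choose u hu using h1
  have hu0 : ∀ j, u j ≠ 0 := by
    intro j h
    apply h2 j
    rw [hu j, h, mul_zero]
    exact dvd_zero _
  have hru : ∀ j k, ¬ (r j : ℤ) ∣ u k := by
    intro j k h
    by_cases hjk : j = k
    · subst hjk
      apply h2 j
      rw [hu j, pow_two]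
      exact mul_dvd_mul_left _ h
    · exact h3 j k hjk (by rw [hu k]; exact Dvd.dvd.mul_left h _)
  set A : ℕ := ∏ j, (u j).natAbs with hA
  have hA0 : 0 < A := Finset.prod_pos fun j _ => Int.natAbs_pos.mpr (hu0 j)
  have hrA : ∀ j, Nat.Coprime (4 * A) (r j) := by
    intro j
    rw [Nat.coprime_comm, (hr j).coprime_iff_not_dvd]
    intro h
    rcases (hr j).dvd_mul.mp h with h | h
    · have h5 : r j ∣ 2 ^ 2 := by simpa using h
      have h6 := (hr j).dvd_of_dvd_pow h5
      have h7 : r j ≤ 2 := Nat.le_of_dvd two_pos h6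
      have := hr4 j
      have := (hr j).two_le
      omega
    · obtain ⟨k, -, hk⟩ := ((hr j).prime.dvd_finsetProd_iff _).mp h
      exact hru j k (Int.natCast_dvd.mpr hk)
  have hn : ∀ j, ∃ n : ZMod (r j), IsUnit n ∧
      (0 < u j → IsSquare n) ∧ (u j < 0 → ¬ IsSquare n) := by
    intro j
    have : Fact (r j).Prime := ⟨hr j⟩
    by_cases hp : 0 < u j
    · exact ⟨1, isUnit_one, fun _ => ⟨1, by simp⟩, fun h => absurd h (by omega)⟩
    · obtain ⟨n, hn⟩ := FiniteField.exists_nonsquare (F := ZMod (r j)) (by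
        rw [ZMod.ringChar_zmod_n]
        intro h
        have := hr4 j
        omega)
      refine ⟨n, ?_, fun h => absurd h hp, fun _ => hn⟩
      rw [isUnit_iff_ne_zero]
      rintro rfl
      exact hn ⟨0, by simp⟩
  choose n hnu hns hnn using hn
  let m : Option J → ℕ := fun o => o.elim (4 * A) r
  have hm : Pairwise (Function.onFun Nat.Coprime m) := by
    intro o o' hoo
    rcases o with _ | j <;> rcases o' with _ | k
    · exact absurd rfl hoo
    · exact hrA k
    · exact (hrA j).symm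
    · have hjk : j ≠ k := fun h => hoo (by rw [h])
      exact (Nat.coprime_primes (hr j) (hr k)).mpr (fun h => hjk (hinj h))
  have hnz : NeZero (∏ o, m o) := ⟨by
    rw [Finset.prod_ne_zero_iff]
    rintro (_ | j) -
    · exact (by positivity : (4 * A) ≠ 0)
    · exact (hr j).ne_zero⟩
  let tgt : ∀ o, ZMod (m o) := fun o => match o with
    | none => (-1 : ZMod (4 * A))
    | some j => n j
  have htu : IsUnit tgt := by
    rw [Pi.isUnit_iff]
    rintro (_ | j)
    · exact isUnit_one.neg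
    · exact hnu j
  have heu : IsUnit ((ZMod.prodEquivPi m hm).symm tgt) := by
    exact htu.map (ZMod.prodEquivPi m hm).symm
  obtain ⟨p, hpB, hpp, hpe⟩ := Nat.forall_exists_prime_gt_and_eq_mod heu
    (B + A + ∑ j, r j + 4)
  have : Fact p.Prime := ⟨hpp⟩
  have hcomp : ∀ o, ((p : ℕ) : ZMod (m o)) = tgt o := by
    intro o
    have h := congrArg (ZMod.prodEquivPi m hm) hpe
    rw [RingEquiv.apply_symm_apply, map_natCast] at h
    exact congrFun h o
  have hp4A : 4 * A ∣ p + 1 := by
    have h : ((p : ℕ) : ZMod (4 * A)) = -1 := hcomp none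
    rw [← ZMod.natCast_eq_zero_iff]
    push_cast
    rw [h]; ring
  have hp4 : p % 4 = 3 := by
    have : 4 ∣ p + 1 := (Dvd.intro _ rfl).trans hp4A
    omega
  refine ⟨p, by omega, hpp, hp4, fun j => ?_⟩
  have : Fact (r j).Prime := ⟨hr j⟩
  have hrp : r j ≠ p := by
    have : r j ≤ ∑ j, r j := Finset.single_le_sum (fun _ _ => Nat.zero_le _) (Finset.mem_univ j)
    omega
  have hp2 : p ≠ 2 := by rintro rfl; omega
  -- the three symbols
  have l1 : legendreSym p ((u j).natAbs : ℤ) = 1 := by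
    rw [jacobiSym.legendreSym.to_jacobiSym]
    apply jacobi_one (Int.natAbs_pos.mpr (hu0 j))
    exact (mul_dvd_mul_left 4 (Finset.dvd_prod_of_mem (fun j => (u j).natAbs)
      (Finset.mem_univ j))).trans hp4A
  have l2 : legendreSym p (-1) = -1 := by
    rw [legendreSym.at_neg_one hp2, ZMod.χ₄_nat_three_mod_four hp4]
  have l3 : legendreSym p (r j : ℤ) = legendreSym (r j) (p : ℤ) :=
    legendreSym.quadratic_reciprocity_one_mod_four (hr4 j) hp2
  have hpr : ((p : ℤ) : ZMod (r j)) = n j := by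
    have h : ((p : ℕ) : ZMod (r j)) = n j := hcomp (some j)
    rw [← h]
    simp
  have l4 : legendreSym p (D j) = 1 := by
    rcases lt_or_gt_of_ne (hu0 j) with hneg | hpos
    · have hr1 : legendreSym (r j) (p : ℤ) = -1 := by
        rw [legendreSym.eq_neg_one_iff, hpr]
        exact hnn j hneg
      have : D j = (r j : ℤ) * ((-1) * ((u j).natAbs : ℤ)) := by
        rw [hu j]
        congr 1
        omega
      rw [this, legendreSym.mul, legendreSym.mul, l1, l2, l3, hr1]
      norm_num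
    · have hr1 : legendreSym (r j) (p : ℤ) = 1 := by
        rw [legendreSym.eq_one_iff]
        · rw [hpr]; exact hns j hpos
        · rw [hpr]; exact (hnu j).ne_zero
      have : D j = (r j : ℤ) * ((u j).natAbs : ℤ) := by
        rw [hu j]
        congr 1
        omega
      rw [this, legendreSym.mul, l1, l3, hr1]
      norm_num
  have hD0 : ((D j : ℤ) : ZMod p) ≠ 0 := by
    intro h
    rw [← legendreSym.eq_zero_iff, l4] at h
    exact one_ne_zero h
  obtain ⟨g, hg⟩ := (legendreSym.eq_one_iff p hD0).mp l4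
  obtain ⟨G, rfl⟩ := ZMod.intCast_surjective g
  refine ⟨G, ?_, ?_⟩
  · intro h
    have h' : ((G : ℤ) : ZMod p) = 0 := (ZMod.intCast_zmod_eq_zero_iff_dvd G p).mpr h
    exact hD0 (by rw [hg, h', mul_zero])
  · refine (ZMod.intCast_zmod_eq_zero_iff_dvd _ p).mp ?_
    push_cast
    rw [hg]; ring

end Pool.Agent.H9.Welsh
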