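import Pool.Agent.H9.Welsh.Field
import Pool.Agent.H9.Welsh.NT

/-!
# Chinese remainder assembly of the local data
-/

set_option autoImplicit false

namespace Pool.Agent.H9.Welsh

/-- A square root of `-1` modulo `r²`, for a prime `r ≡ 1 (mod 4)`. -/
theorem exists_root (r : ℕ) (hr : r.Prime) (h4 : r % 4 = 1) : ∃ i : ℤ, ((r : ℤ) ^ 2) ∣ i ^ 2 + 1 := by
  have : Fact r.Prime := ⟨hr⟩
  obtain ⟨u, hu⟩ := ZMod.exists_sq_eq_neg_one_iff.mpr (by omega : r % 4 ≠ 3)
  obtain ⟨s, rfl⟩ := ZMod.intCast_surjective u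
  have h1 : (r : ℤ) ∣ s ^ 2 + 1 := by
    refine (ZMod.intCast_zmod_eq_zero_iff_dvd _ r).mp ?_
    push_cast
    rw [pow_two, ← hu]; ring
  obtain ⟨q, hq⟩ := h1
  have hs : IsCoprime (2 * s) (r : ℤ) := by
    rw [isCoprime_comm, (Nat.prime_iff_prime_int.mp hr).coprime_iff_not_dvd]
    intro h
    rcases (Nat.prime_iff_prime_int.mp hr).dvd_or_dvd h with h | h
    · have h5 : r ∣ 2 := by exact_mod_cast h
      have := Nat.le_of_dvd two_pos h5
      have := hr.two_le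
      omega
    · have h6 : (r : ℤ) ∣ 1 := by
        have : (1 : ℤ) = r * q - s * s := by rw [← hq]; ring
        rw [this]
        exact dvd_sub (Dvd.intro _ rfl) (Dvd.dvd.mul_left h _)
      have h7 : r ∣ 1 := by exact_mod_cast h6
      exact hr.one_lt.ne' (Nat.dvd_one.mp h7)
  obtain ⟨α, β, hαβ⟩ := hs
  refine ⟨s - r * (q * α), ?_⟩
  have : (s - r * (q * α)) ^ 2 + 1 = r ^ 2 * (q * β + (q * α) ^ 2) := by
    have h2 : s ^ 2 + 1 = r * q := hq
    linear_combination h2 - r * q * hαβ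
  rw [this]
  exact Dvd.intro _ rfl

/-- At `y' = y` the discriminant is a square. -/
theorem Dq_same {ι : Type} [Fintype ι] {R : Type} [CommRing R] (a b a' b' : ι → ℤ)
    (x x' y : ι → R) :
    Dq a b a' b' x x' y y = (dl a b y x' * dl a' b' x y - dl a' b' y x' * dl a b x y) ^ 2 := by
  unfold Dq Tq
  simp only [dl]
  ring

theorem Dq_symm {ι : Type} [Fintype ι] {R : Type} [CommRing R] (a b a' b' : ι → ℤ)
    (x x' y y' : ι → R) :
    Dq a b a' b' x x' y y' = Dq a' b' a b x x' y y' := by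
  unfold Dq Tq
  ring

variable {ι Λ : Type} [Fintype ι]

/-- Local data at the pair `e1, e2` of blocks. -/
def HasLocal [LT Λ] (a b : Λ → ι → ℤ) (e1 e2 : Λ) : Prop :=
  ∃ x x' y z : ι → ℤ, (∀ l, dl (a l) (b l) x y ≠ 0) ∧ (∀ l, dl (a l) (b l) x x' ≠ 0) ∧
    dl (a e1) (b e1) y x' * dl (a e2) (b e2) x y = dl (a e2) (b e2) y x' * dl (a e1) (b e1) x y ∧
    dl (a e2) (b e2) y x' * dl (a e1) (b e1) x x' - dl (a e1) (b e1) y x' * dl (a e2) (b e2) x x'
      ≠ 0 ∧
    (∀ c d, c < d → (c, d) ≠ (e1, e2) →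
      dl (a c) (b c) y x' * dl (a d) (b d) x y - dl (a d) (b d) y x' * dl (a c) (b c) x y ≠ 0) ∧
    dl (a e1) (b e1) y z ≠ 0 ∧ ev z (a e2) = 0 ∧ ev z (b e2) = 0

theorem ev_int (f a : ι → ℤ) (R : Type) [CommRing R] :
    ((ev f a : ℤ) : R) = ev (fun k => (f k : R)) a := by
  have := map_ev (Int.castRingHom R) f a
  simpa using this

theorem dl_int (a b f g : ι → ℤ) (R : Type) [CommRing R] :
    ((dl a b f g : ℤ) : R) = dl a b (fun k => (f k : R)) (fun k => (g k : R)) := by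
  have := map_dl (Int.castRingHom R) a b f g
  simpa using this

theorem Dq_int (a b a' b' x x' y y' : ι → ℤ) (R : Type) [CommRing R] :
    ((Dq a b a' b' x x' y y' : ℤ) : R) = Dq a b a' b' (fun k => (x k : R)) (fun k => (x' k : R))
      (fun k => (y k : R)) (fun k => (y' k : R)) := by
  have := map_Dq (Int.castRingHom R) a b a' b' x x' y y'
  simpa using this

theorem infinite_primes_one_mod_four (B : ℕ) : {q : ℕ | q.Prime ∧ q % 4 = 1 ∧ B < q}.Infinite := by
  apply Set.infinite_of_forall_exists_gt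
  intro n
  obtain ⟨q, hq, h1, h2⟩ := Nat.exists_prime_gt_modEq_one (k := 4) (max n B) (by norm_num)
  refine ⟨q, ⟨hq, ?_, lt_of_le_of_lt (le_max_right _ _) h1⟩, lt_of_le_of_lt (le_max_left _ _) h1⟩
  exact h2

/-- **Assembly.** -/
theorem assemble [Fintype Λ] [LinearOrder Λ] [Nontrivial Λ] (a b : Λ → ι → ℤ)
    (hloc : ∀ e1 e2 : Λ, e1 < e2 → HasLocal a b e1 e2) (B : ℕ) :
    ∃ p > B, p.Prime ∧ p % 4 = 3 ∧ ∃ x y : ι → GaussianInt,
      (∀ l, ¬ (p : ℤ) ∣ (dl (a l) (b l) x (fun k => star (x k))).norm) ∧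
      (∀ l, ¬ (p : ℤ) ∣ (dl (a l) (b l) x y).norm) ∧
      (∀ l l', l ≠ l' → ∃ g : ℤ, ¬ (p : ℤ) ∣ g ∧ (p : ℤ) ∣
        (Dq (a l) (b l) (a l') (b l') x (fun k => star (x k)) y (fun k => star (y k))).re
          - g ^ 2) := by
  classical
  let J := {q : Λ × Λ // q.1 < q.2}
  have hJ : ∀ e : J, HasLocal a b e.1.1 e.1.2 := fun e => hloc _ _ e.2
  choose x x' y z hxy hxx heq hne hcd hyz hz1 hz2 using hJ
  -- the forbidden integer
  let N : J → ℤ := fun e => 4 * (∏ l, dl (a l) (b l) (x e) (y e)) *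
    (∏ l, dl (a l) (b l) (x e) (x' e)) *
    (dl (a e.1.2) (b e.1.2) (y e) (x' e) * dl (a e.1.1) (b e.1.1) (x e) (x' e)
      - dl (a e.1.1) (b e.1.1) (y e) (x' e) * dl (a e.1.2) (b e.1.2) (x e) (x' e)) *
    (∏ f ∈ (Finset.univ : Finset J).erase e,
      (dl (a f.1.1) (b f.1.1) (y e) (x' e) * dl (a f.1.2) (b f.1.2) (x e) (y e)
        - dl (a f.1.2) (b f.1.2) (y e) (x' e) * dl (a f.1.1) (b f.1.1) (x e) (y e))) *
    dl (a e.1.1) (b e.1.1) (y e) (z e)
  have hN : ∀ e, N e ≠ 0 := by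
    intro e
    refine mul_ne_zero (mul_ne_zero (mul_ne_zero (mul_ne_zero (mul_ne_zero (by norm_num) ?_) ?_)
      (hne e)) ?_) (hyz e)
    · exact Finset.prod_ne_zero_iff.mpr fun l _ => hxy e l
    · exact Finset.prod_ne_zero_iff.mpr fun l _ => hxx e l
    · refine Finset.prod_ne_zero_iff.mpr fun f hf => hcd e _ _ f.2 ?_
      intro h
      apply Finset.ne_of_mem_erase hf
      exact Subtype.ext h
  -- the private primes
  let B0 : ℕ := ∑ e : J, (N e).natAbs
  have hinf := infinite_primes_one_mod_four B0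
  let r : J → ℕ := fun e => (hinf.natEmbedding _ (Fintype.equivFin J e : ℕ) : ℕ)
  have hrS : ∀ e, (r e).Prime ∧ r e % 4 = 1 ∧ B0 < r e := fun e =>
    (hinf.natEmbedding _ (Fintype.equivFin J e : ℕ)).2
  have hrinj : Function.Injective r := by
    intro e f h
    have h1 : hinf.natEmbedding _ (Fintype.equivFin J e : ℕ) =
        hinf.natEmbedding _ (Fintype.equivFin J f : ℕ) := Subtype.ext h
    have h2 := (hinf.natEmbedding _).injective h1
    exact (Fintype.equivFin J).injective (Fin.ext h2)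
  have hrN : ∀ e, ¬ (r e : ℤ) ∣ N e := by
    intro e h
    have h1 : (N e).natAbs ≤ B0 :=
      Finset.single_le_sum (f := fun e => (N e).natAbs) (fun _ _ => Nat.zero_le _)
        (Finset.mem_univ e)
    have h2 : r e ≤ (N e).natAbs :=
      Nat.le_of_dvd (Int.natAbs_pos.mpr (hN e)) (Int.natCast_dvd.mp h)
    have := (hrS e).2.2
    omega
  -- roots of `-1` and inverses of `2`
  have hroot : ∀ e, ∃ i : ℤ, ((r e : ℤ) ^ 2) ∣ i ^ 2 + 1 := fun e =>
    exists_root _ (hrS e).1 (hrS e).2.1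
  choose im him using hroot
  have hhalf : ∀ e, ∃ h : ℤ, ((r e : ℤ) ^ 2) ∣ 2 * h - 1 := by
    intro e
    have h1 := (hrS e).2.1
    obtain ⟨k, hk⟩ : ∃ k, r e = 2 * k + 1 := ⟨r e / 2, by omega⟩
    refine ⟨2 * k ^ 2 + 2 * k + 1, 1, ?_⟩
    rw [hk]; push_cast; ring
  choose hf hhf using hhalf
  let n : J → ℕ := fun e => r e ^ 2
  have hn : Pairwise (Function.onFun Nat.Coprime n) := by
    intro e f hef
    exact Nat.Coprime.pow 2 2 ((Nat.coprime_primes (hrS e).1 (hrS f).1).mpr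
      (fun h => hef (hrinj h)))
  have hx1 : ∀ k : ι, ∃ X : ℤ, ∀ e, (X : ZMod (n e)) =
      ((hf e * (x e k + x' e k) : ℤ) : ZMod (n e)) := fun k =>
    crt_int n hn (fun e => hf e * (x e k + x' e k))
  have hx2 : ∀ k : ι, ∃ X : ℤ, ∀ e, (X : ZMod (n e)) =
      ((- (hf e * im e * (x e k - x' e k)) : ℤ) : ZMod (n e)) := fun k =>
    crt_int n hn (fun e => - (hf e * im e * (x e k - x' e k)))
  have hy1 : ∀ k : ι, ∃ X : ℤ, ∀ e, (X : ZMod (n e)) =
      ((hf e * (y e k + (y e k + r e * z e k)) : ℤ) : ZMod (n e)) := fun k =>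
    crt_int n hn (fun e => hf e * (y e k + (y e k + r e * z e k)))
  have hy2 : ∀ k : ι, ∃ X : ℤ, ∀ e, (X : ZMod (n e)) =
      ((- (hf e * im e * (y e k - (y e k + r e * z e k))) : ℤ) : ZMod (n e)) := fun k =>
    crt_int n hn (fun e => - (hf e * im e * (y e k - (y e k + r e * z e k))))
  choose X1 hX1 using hx1
  choose X2 hX2 using hx2
  choose Y1 hY1 using hy1
  choose Y2 hY2 using hy2
  let X : ι → GaussianInt := fun k => ⟨X1 k, X2 k⟩
  let Y : ι → GaussianInt := fun k => ⟨Y1 k, Y2 k⟩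
  -- reduction at `e`
  have himZ : ∀ e, ((im e : ℤ) : ZMod (n e)) * (im e : ZMod (n e)) = ((-1 : ℤ) : ZMod (n e)) := by
    intro e
    have h := (ZMod.intCast_zmod_eq_zero_iff_dvd (im e ^ 2 + 1) (n e)).mpr (by
      have := him e
      simpa [n] using this)
    push_cast at h ⊢
    linear_combination h
  have hhfZ : ∀ e, (2 : ZMod (n e)) * (hf e : ZMod (n e)) = 1 := by
    intro e
    have h := (ZMod.intCast_zmod_eq_zero_iff_dvd (2 * hf e - 1) (n e)).mpr (by
      have := hhf e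
      simpa [n] using this)
    push_cast at h
    linear_combination h
  let ψ : ∀ e, GaussianInt →+* ZMod (n e) := fun e => Zsqrtd.lift ⟨(im e : ZMod (n e)), himZ e⟩
  have ψX : ∀ e k, ψ e (X k) = ((x e k : ℤ) : ZMod (n e)) := by
    intro e k
    simp only [ψ, Zsqrtd.lift_apply_apply, X]
    rw [hX1 k e, hX2 k e]
    have h1 := himZ e
    have h2 := hhfZ e
    push_cast at h1 ⊢
    linear_combination (x e k : ZMod (n e)) * h2 -
      (hf e : ZMod (n e)) * ((x e k : ZMod (n e)) - (x' e k : ZMod (n e))) * h1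
  have ψX' : ∀ e k, ψ e (star (X k)) = ((x' e k : ℤ) : ZMod (n e)) := by
    intro e k
    simp only [ψ, Zsqrtd.lift_apply_apply, X, Zsqrtd.re_star, Zsqrtd.im_star]
    rw [Int.cast_neg, hX1 k e, hX2 k e]
    have h1 := himZ e
    have h2 := hhfZ e
    push_cast at h1 ⊢
    linear_combination (x' e k : ZMod (n e)) * h2 +
      (hf e : ZMod (n e)) * ((x e k : ZMod (n e)) - (x' e k : ZMod (n e))) * h1
  have ψY : ∀ e k, ψ e (Y k) = ((y e k : ℤ) : ZMod (n e)) := by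
    intro e k
    simp only [ψ, Zsqrtd.lift_apply_apply, Y]
    rw [hY1 k e, hY2 k e]
    have h1 := himZ e
    have h2 := hhfZ e
    push_cast at h1 ⊢
    linear_combination (y e k : ZMod (n e)) * h2 -
      (hf e : ZMod (n e)) * ((y e k : ZMod (n e)) -
        ((y e k : ZMod (n e)) + (r e : ZMod (n e)) * (z e k : ZMod (n e)))) * h1
  have ψY' : ∀ e k, ψ e (star (Y k)) = ((y e k + r e * z e k : ℤ) : ZMod (n e)) := by
    intro e k
    simp only [ψ, Zsqrtd.lift_apply_apply, Y, Zsqrtd.re_star, Zsqrtd.im_star]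
    rw [Int.cast_neg, hY1 k e, hY2 k e]
    have h1 := himZ e
    have h2 := hhfZ e
    push_cast at h1 ⊢
    linear_combination ((y e k : ZMod (n e)) + (r e : ZMod (n e)) * (z e k : ZMod (n e))) * h2 +
      (hf e : ZMod (n e)) * ((y e k : ZMod (n e)) -
        ((y e k : ZMod (n e)) + (r e : ZMod (n e)) * (z e k : ZMod (n e)))) * h1
  -- the integers `D f`
  let D : J → ℤ := fun f => (Dq (a f.1.1) (b f.1.1) (a f.1.2) (b f.1.2) X (fun k => star (X k)) Y
    (fun k => star (Y k))).re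
  let L : J → J → ℤ := fun e f => Dq (a f.1.1) (b f.1.1) (a f.1.2) (b f.1.2) (x e) (x' e) (y e)
    (fun k => y e k + r e * z e k)
  have hDL : ∀ e f, ((r e : ℤ) ^ 2) ∣ D f - L e f := by
    intro e f
    have h1 := re_of_star (star_Dq (a f.1.1) (b f.1.1) (a f.1.2) (b f.1.2) X Y)
    have h2 := congrArg (ψ e) h1
    rw [map_Dq, map_intCast] at h2
    have h3 : ((L e f : ℤ) : ZMod (n e)) = (D f : ZMod (n e)) := by
      rw [← h2]
      simp only [L]
      rw [Dq_int]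
      congr 1
      · funext k; exact (ψX e k).symm
      · funext k; exact (ψX' e k).symm
      · funext k; exact (ψY e k).symm
      · funext k; exact (ψY' e k).symm
    have h4 : ((D f - L e f : ℤ) : ZMod (n e)) = 0 := by
      push_cast; rw [h3]; ring
    have h5 := (ZMod.intCast_zmod_eq_zero_iff_dvd _ (n e)).mp h4
    simpa [n] using h5
  have hrdvd : ∀ e (m : ℤ), m ∣ N e → ¬ (r e : ℤ) ∣ m := fun e m hm h => hrN e (h.trans hm)
  have hprime : ∀ e, Prime (r e : ℤ) := fun e => Nat.prime_iff_prime_int.mp (hrS e).1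
  have hd4 : ∀ e, (4 : ℤ) ∣ N e := by
    intro e; simp only [N]
    exact Dvd.dvd.mul_right (Dvd.dvd.mul_right (Dvd.dvd.mul_right (Dvd.dvd.mul_right
      (Dvd.intro _ rfl) _) _) _) _
  have hdxy : ∀ e l, dl (a l) (b l) (x e) (y e) ∣ N e := by
    intro e l; simp only [N]
    exact Dvd.dvd.mul_right (Dvd.dvd.mul_right (Dvd.dvd.mul_right (Dvd.dvd.mul_right
      (Dvd.dvd.mul_left (Finset.dvd_prod_of_mem (fun l => dl (a l) (b l) (x e) (y e))
        (Finset.mem_univ l)) _) _) _) _) _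
  have hdxx : ∀ e l, dl (a l) (b l) (x e) (x' e) ∣ N e := by
    intro e l; simp only [N]
    exact Dvd.dvd.mul_right (Dvd.dvd.mul_right (Dvd.dvd.mul_right (
      (Dvd.dvd.mul_left (Finset.dvd_prod_of_mem (fun l => dl (a l) (b l) (x e) (x' e))
        (Finset.mem_univ l)) _)) _) _) _
  have hdne : ∀ e : J, (dl (a e.1.2) (b e.1.2) (y e) (x' e) * dl (a e.1.1) (b e.1.1) (x e) (x' e)
      - dl (a e.1.1) (b e.1.1) (y e) (x' e) * dl (a e.1.2) (b e.1.2) (x e) (x' e)) ∣ N e := by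
    intro e; simp only [N]
    exact Dvd.dvd.mul_right (Dvd.dvd.mul_right (Dvd.dvd.mul_left dvd_rfl _) _) _
  have hdcd : ∀ e f : J, f ≠ e →
      (dl (a f.1.1) (b f.1.1) (y e) (x' e) * dl (a f.1.2) (b f.1.2) (x e) (y e)
        - dl (a f.1.2) (b f.1.2) (y e) (x' e) * dl (a f.1.1) (b f.1.1) (x e) (y e)) ∣ N e := by
    intro e f hfe; simp only [N]
    exact Dvd.dvd.mul_right (Dvd.dvd.mul_left (Finset.dvd_prod_of_mem
      (fun f : J => (dl (a f.1.1) (b f.1.1) (y e) (x' e) * dl (a f.1.2) (b f.1.2) (x e) (y e)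
        - dl (a f.1.2) (b f.1.2) (y e) (x' e) * dl (a f.1.1) (b f.1.1) (x e) (y e)))
      (Finset.mem_erase.mpr ⟨hfe, Finset.mem_univ f⟩)) _) _
  have hdyz : ∀ e : J, dl (a e.1.1) (b e.1.1) (y e) (z e) ∣ N e := by
    intro e; simp only [N]
    exact Dvd.dvd.mul_left dvd_rfl _
  have hLe : ∀ e, L e e = 4 * r e * (dl (a e.1.2) (b e.1.2) (x e) (y e) *
      dl (a e.1.1) (b e.1.1) (y e) (z e) *
      (dl (a e.1.2) (b e.1.2) (y e) (x' e) * dl (a e.1.1) (b e.1.1) (x e) (x' e)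
        - dl (a e.1.1) (b e.1.1) (y e) (x' e) * dl (a e.1.2) (b e.1.2) (x e) (x' e))) +
      (r e : ℤ) ^ 2 * (dl (a e.1.1) (b e.1.1) (z e) (x e) * dl (a e.1.2) (b e.1.2) (y e) (x' e) +
        dl (a e.1.2) (b e.1.2) (x e) (x' e) * dl (a e.1.1) (b e.1.1) (y e) (z e)) ^ 2 := by
    intro e
    exact local_Dq _ _ _ _ (x e) (x' e) (y e) (z e) (r e : ℤ) (hz1 e) (hz2 e) (heq e)
  have hD1 : ∀ e, (r e : ℤ) ∣ D e := by
    intro e
    have h1 : (r e : ℤ) ∣ D e - L e e := (Dvd.intro_left _ (by rw [pow_two])).trans (hDL e e)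
    have h2 : (r e : ℤ) ∣ L e e := by
      rw [hLe e]
      refine dvd_add ?_ ?_
      · exact Dvd.dvd.mul_right (Dvd.intro_left _ rfl) _
      · exact Dvd.dvd.mul_right (Dvd.intro_left _ (by rw [pow_two])) _
    have := dvd_add h1 h2
    rwa [sub_add_cancel] at this
  have hD2 : ∀ e, ¬ (r e : ℤ) ^ 2 ∣ D e := by
    intro e h
    have h2 : (r e : ℤ) ^ 2 ∣ L e e := by
      have := dvd_sub h (hDL e e)
      rwa [sub_sub_cancel] at this
    rw [hLe e] at h2
    have h3 := (dvd_add_left (Dvd.intro _ rfl)).mp h2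
    have h4 : (r e : ℤ) ∣ 4 * (dl (a e.1.2) (b e.1.2) (x e) (y e) *
      dl (a e.1.1) (b e.1.1) (y e) (z e) *
      (dl (a e.1.2) (b e.1.2) (y e) (x' e) * dl (a e.1.1) (b e.1.1) (x e) (x' e)
        - dl (a e.1.1) (b e.1.1) (y e) (x' e) * dl (a e.1.2) (b e.1.2) (x e) (x' e))) := by
      have hr0 : (r e : ℤ) ≠ 0 := (hprime e).ne_zero
      apply (mul_dvd_mul_iff_left hr0).mp
      have : (r e : ℤ) * r e = (r e : ℤ) ^ 2 := by ring
      rw [this]
      refine h3.trans (dvd_of_eq ?_)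
      ring
    rcases (hprime e).dvd_or_dvd h4 with h5 | h5
    · exact hrdvd e _ (hd4 e) h5
    rcases (hprime e).dvd_or_dvd h5 with h6 | h6
    · rcases (hprime e).dvd_or_dvd h6 with h7 | h7
      · exact hrdvd e _ (hdxy e _) h7
      · exact hrdvd e _ (hdyz e) h7
    · exact hrdvd e _ (hdne e) h6
  have hD3 : ∀ e f, e ≠ f → ¬ (r e : ℤ) ∣ D f := by
    intro e f hef h
    have h1 : (r e : ℤ) ∣ D f - L e f := (Dvd.intro_left _ (by rw [pow_two])).trans (hDL e f)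
    have h2 : (r e : ℤ) ∣ L e f := by
      have := dvd_sub h h1
      rwa [sub_sub_cancel] at this
    have h3 : (r e : ℤ) ∣ (dl (a f.1.1) (b f.1.1) (y e) (x' e) *
        dl (a f.1.2) (b f.1.2) (x e) (y e)
        - dl (a f.1.2) (b f.1.2) (y e) (x' e) * dl (a f.1.1) (b f.1.1) (x e) (y e)) ^ 2 := by
      rw [← Dq_same]
      have h4 := (ZMod.intCast_zmod_eq_zero_iff_dvd _ (r e)).mpr h2
      refine (ZMod.intCast_zmod_eq_zero_iff_dvd _ (r e)).mp ?_
      rw [← h4]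
      simp only [L]
      rw [Dq_int, Dq_int]
      congr 1
      funext k
      push_cast
      rw [ZMod.natCast_self]
      ring
    exact hrdvd e _ (hdcd e f (Ne.symm hef)) ((hprime e).dvd_of_dvd_pow h3)
  -- nonvanishing of the global determinants
  obtain ⟨l0, l1, hl01⟩ := exists_pair_ne Λ
  have hJne : Nonempty J := by
    rcases lt_or_gt_of_ne hl01 with h | h
    · exact ⟨⟨(l0, l1), h⟩⟩
    · exact ⟨⟨(l1, l0), h⟩⟩
  obtain ⟨e0⟩ := hJne
  have hG : ∀ f g : ι → GaussianInt, ∀ f' g' : ι → ℤ,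
      (∀ k, ψ e0 (f k) = ((f' k : ℤ) : ZMod (n e0))) →
      (∀ k, ψ e0 (g k) = ((g' k : ℤ) : ZMod (n e0))) → ∀ l,
      dl (a l) (b l) f' g' ∣ N e0 → dl (a l) (b l) f g ≠ 0 := by
    intro f g f' g' h1 h2 l h3 h4
    have h5 := congrArg (ψ e0) h4
    rw [map_zero, map_dl] at h5
    have h6 : ((dl (a l) (b l) f' g' : ℤ) : ZMod (n e0)) = 0 := by
      rw [dl_int, ← h5]
      congr 1
      · funext k; exact (h1 k).symm
      · funext k; exact (h2 k).symm
    have h7 := (ZMod.intCast_zmod_eq_zero_iff_dvd _ (n e0)).mp h6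
    have h8 : (r e0 : ℤ) ∣ dl (a l) (b l) f' g' := by
      refine (Dvd.intro_left (r e0 : ℤ) ?_).trans h7
      simp [n, pow_two]
    exact hrdvd e0 _ h3 h8
  have hΔ0 : ∀ l, dl (a l) (b l) X (fun k => star (X k)) ≠ 0 := fun l =>
    hG X (fun k => star (X k)) (x e0) (x' e0) (ψX e0) (ψX' e0) l (hdxx e0 l)
  have hπ0 : ∀ l, dl (a l) (b l) X Y ≠ 0 := fun l =>
    hG X Y (x e0) (y e0) (ψX e0) (ψY e0) l (hdxy e0 l)
  obtain ⟨p, hpB, hpp, hp4, hpD⟩ := exists_prime_squares D r (fun e => (hrS e).1)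
    (fun e => (hrS e).2.1) hrinj hD1 hD2 hD3
    (B + ∑ l, (dl (a l) (b l) X (fun k => star (X k))).norm.natAbs
      + ∑ l, (dl (a l) (b l) X Y).norm.natAbs)
  have hnorm : ∀ w : GaussianInt, w ≠ 0 → w.norm.natAbs < p → ¬ (p : ℤ) ∣ w.norm := by
    intro w hw hlt h
    have h1 : w.norm ≠ 0 := by
      intro h0
      exact hw ((Zsqrtd.norm_eq_zero_iff (by norm_num) w).mp h0)
    have h2 : p ≤ w.norm.natAbs :=
      Nat.le_of_dvd (Int.natAbs_pos.mpr h1) (Int.natCast_dvd.mp h)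
    omega
  refine ⟨p, by omega, hpp, hp4, X, Y, ?_, ?_, ?_⟩
  · intro l
    apply hnorm _ (hΔ0 l)
    have : (dl (a l) (b l) X (fun k => star (X k))).norm.natAbs ≤
        ∑ l, (dl (a l) (b l) X (fun k => star (X k))).norm.natAbs :=
      Finset.single_le_sum (f := fun l => (dl (a l) (b l) X (fun k => star (X k))).norm.natAbs)
        (fun _ _ => Nat.zero_le _) (Finset.mem_univ l)
    omega
  · intro l
    apply hnorm _ (hπ0 l)
    have : (dl (a l) (b l) X Y).norm.natAbs ≤ ∑ l, (dl (a l) (b l) X Y).norm.natAbs :=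
      Finset.single_le_sum (f := fun l => (dl (a l) (b l) X Y).norm.natAbs)
        (fun _ _ => Nat.zero_le _) (Finset.mem_univ l)
    omega
  · intro l l' hll
    rcases lt_or_gt_of_ne hll with h | h
    · exact hpD ⟨(l, l'), h⟩
    · rw [Dq_symm]
      exact hpD ⟨(l', l), h⟩

end Pool.Agent.H9.Welsh
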