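import Pool.Agent.H9.Welsh.Local

/-!
# Blocks with independent planes embed in a finite projective plane
-/

set_option autoImplicit false

namespace Pool.Agent.H9.Welsh

/-- **General criterion.**  Points `v i` of an affine space over `ℚ` (integer coordinates), blocks `l`
with direction planes `span (a l, b l)`, two distinct direction planes meeting in `0`. -/
theorem plane_of_blocks {ι Λ E : Type} [Fintype ι] [Finite Λ] [Finite E] [Nontrivial Λ]
    (a b : Λ → ι → ℤ) (hind : Indep2 a b) (v : E → ι → ℤ) (on : E → Λ → Prop)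
    (hcomb : ∀ l i j, on i l → on j l → i ≠ j → ∃ t u w : ℤ, t ≠ 0 ∧
      (∀ k, t * (v i k - v j k) = u * a l k + w * b l k) ∧ ¬ (u = 0 ∧ w = 0))
    (hcov : ∀ i j, i ≠ j → ∃ l, on i l ∧ on j l) :
    ∃ (P L : Type) (_ : Membership P L) (_ : Finite P) (_ : Finite L)
      (_ : Configuration.ProjectivePlane P L) (f : E → P), Function.Injective f ∧
      ∀ i j k, i ≠ j → i ≠ k → j ≠ k →
        ((∃ l : L, f i ∈ l ∧ f j ∈ l ∧ f k ∈ l) ↔ ∃ l, on i l ∧ on j l ∧ on k l) := by
  classical
  have hΛ : Fintype Λ := Fintype.ofFinite Λ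
  have hE : Fintype E := Fintype.ofFinite E
  let ord : LinearOrder Λ := LinearOrder.lift' (Fintype.equivFin Λ) (Fintype.equivFin Λ).injective
  let T := {q : Λ × E × E // on q.2.1 q.1 ∧ on q.2.2 q.1 ∧ q.2.1 ≠ q.2.2}
  have hT : ∀ q : T, ∃ t u w : ℤ, t ≠ 0 ∧
      (∀ k, t * (v q.1.2.1 k - v q.1.2.2 k) = u * a q.1.1 k + w * b q.1.1 k) ∧
      ¬ (u = 0 ∧ w = 0) := fun q => hcomb _ _ _ q.2.1 q.2.2.1 q.2.2.2
  choose t u w ht htuw huw using hT
  obtain ⟨p, hpB, hpp, hp4, x, y, h1, h2, h3⟩ :=
    @assemble ι Λ _ hΛ ord _ a b (fun e1 e2 he => @hasLocal ι Λ _ hΛ ord a b hind e1 e2 he)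
      (∑ q : T, ((t q).natAbs + (u q).natAbs + (w q).natAbs))
  have : Fact p.Prime := ⟨hpp⟩
  have hsmall : ∀ q : T, ∀ n : ℤ, n.natAbs ≤ (t q).natAbs + (u q).natAbs + (w q).natAbs →
      (p : ℤ) ∣ n → n = 0 := by
    intro q n hn hd
    by_contra hne
    have h4 : p ≤ n.natAbs := Nat.le_of_dvd (Int.natAbs_pos.mpr hne) (Int.natCast_dvd.mp hd)
    have h5 : (t q).natAbs + (u q).natAbs + (w q).natAbs ≤
        ∑ q : T, ((t q).natAbs + (u q).natAbs + (w q).natAbs) :=
      Finset.single_le_sum (f := fun q : T => (t q).natAbs + (u q).natAbs + (w q).natAbs)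
        (fun _ _ => Nat.zero_le _) (Finset.mem_univ q)
    omega
  refine plane_of_data p hp4 a b v on x y h1 h2 h3 ?_ hcov
  intro l i j hi hj hij
  let q : T := ⟨(l, i, j), hi, hj, hij⟩
  refine ⟨t q, u q, w q, ?_, htuw q, ?_⟩
  · intro hd
    exact ht q (hsmall q _ (by omega) hd)
  · rintro ⟨hu, hw⟩
    exact huw q ⟨hsmall q _ (by omega) hu, hsmall q _ (by omega) hw⟩

/-- **Triples.**  Blocks are triples of a finite set `V`, two distinct triples sharing at most one
element; `g : E → V` injective. -/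
theorem plane_of_triples {V Λ E : Type} [Finite V] [Finite Λ] [Finite E] [Nontrivial Λ]
    (q : Λ → Fin 3 → V) (hq : ∀ l, Function.Injective (q l))
    (hint : ∀ l l', l ≠ l' → ∀ i j, i ≠ j → ¬ (q l i ∈ Set.range (q l') ∧
      q l j ∈ Set.range (q l')))
    (g : E → V) (hg : Function.Injective g)
    (hcov : ∀ i j, i ≠ j → ∃ l, g i ∈ Set.range (q l) ∧ g j ∈ Set.range (q l)) :
    ∃ (P L : Type) (_ : Membership P L) (_ : Finite P) (_ : Finite L)
      (_ : Configuration.ProjectivePlane P L) (f : E → P), Function.Injective f ∧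
      ∀ i j k, i ≠ j → i ≠ k → j ≠ k →
        ((∃ l : L, f i ∈ l ∧ f j ∈ l ∧ f k ∈ l) ↔
          ∃ l, g i ∈ Set.range (q l) ∧ g j ∈ Set.range (q l) ∧ g k ∈ Set.range (q l)) := by
  classical
  have hV : Fintype V := Fintype.ofFinite V
  let e : V → V → ℤ := fun x => Pi.single x 1
  have he : ∀ x k, e x k = if k = x then 1 else 0 := by
    intro x k; simp only [e, Pi.single_apply]
  refine plane_of_blocks (fun l => fun k => e (q l 1) k - e (q l 0) k)
    (fun l => fun k => e (q l 2) k - e (q l 0) k) ?_ (fun i => e (g i))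
    (fun i l => g i ∈ Set.range (q l)) ?_ hcov
  · -- independence
    have key : ∀ l l', l ≠ l' → ∀ s t u v : ℚ,
        (∀ k, s * ((e (q l 1) k - e (q l 0) k : ℤ) : ℚ) + t * ((e (q l 2) k - e (q l 0) k : ℤ) : ℚ) +
          u * ((e (q l' 1) k - e (q l' 0) k : ℤ) : ℚ) +
          v * ((e (q l' 2) k - e (q l' 0) k : ℤ) : ℚ) = 0) → s = 0 ∧ t = 0 := by
      intro l l' hll s t u v h
      have val : ∀ i, q l i ∉ Set.range (q l') →
          (if i = 1 then s else 0) + (if i = 2 then t else 0) - (if i = 0 then s + t else 0) = 0 := by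
        intro i hi
        have h0 := h (q l i)
        have hne : ∀ j, q l i ≠ q l' j := fun j hj => hi ⟨j, hj.symm⟩
        have hqi : ∀ j, q l i = q l j ↔ i = j := fun j => (hq l).eq_iff
        simp only [he, hne, hqi, if_false, sub_self] at h0
        push_cast at h0
        split_ifs at h0 ⊢ <;> simp_all <;> linarith
      have h01 : q l 0 ∉ Set.range (q l') ∨ q l 1 ∉ Set.range (q l') := by
        by_contra hcon; push Not at hcon
        exact hint l l' hll 0 1 (by decide) hcon
      have h02 : q l 0 ∉ Set.range (q l') ∨ q l 2 ∉ Set.range (q l') := by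
        by_contra hcon; push Not at hcon
        exact hint l l' hll 0 2 (by decide) hcon
      have h12 : q l 1 ∉ Set.range (q l') ∨ q l 2 ∉ Set.range (q l') := by
        by_contra hcon; push Not at hcon
        exact hint l l' hll 1 2 (by decide) hcon
      have v0 := val 0
      have v1 := val 1
      have v2 := val 2
      simp at v0 v1 v2
      by_cases h0 : q l 0 ∈ Set.range (q l')
      · have h1 := h01.resolve_left (not_not.mpr h0)
        have h2 := h02.resolve_left (not_not.mpr h0)
        exact ⟨v1 (by simpa using h1), v2 (by simpa using h2)⟩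
      · have hs := v0 (by simpa using h0)
        by_cases h1 : q l 1 ∈ Set.range (q l')
        · have h2 := h12.resolve_left (not_not.mpr h1)
          have := v2 (by simpa using h2)
          exact ⟨by linarith, this⟩
        · have := v1 (by simpa using h1)
          exact ⟨this, by linarith⟩
    intro l l' hll s t u v h
    have h1 := key l l' hll s t u v h
    have h2 := key l' l hll.symm u v s t (fun k => by
      have := h k
      linarith)
    exact ⟨h1.1, h1.2, h2.1, h2.2⟩
  · intro l i j hi hj hij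
    obtain ⟨i', hi'⟩ := hi
    obtain ⟨j', hj'⟩ := hj
    have hne : i' ≠ j' := by
      rintro rfl
      exact hij (hg (hi'.symm.trans hj'))
    refine ⟨1, (if i' = 1 then 1 else 0) - (if j' = 1 then 1 else 0),
      (if i' = 2 then 1 else 0) - (if j' = 2 then 1 else 0), one_ne_zero, ?_, ?_⟩
    · intro k
      rw [← hi', ← hj']
      fin_cases i' <;> fin_cases j' <;> simp <;> try ring
    · revert hne
      fin_cases i' <;> fin_cases j' <;> simp

end Pool.Agent.H9.Welsh
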