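import Pool.Agent.H9.Welsh.Plane

/-!
# Planes with many reversed reguli

`K` a finite field with an involutory endomorphism `c`.  For pairwise disjoint circles
`{m | (m - s) c(m - s) = β c(β)}` the maps `x ↦ s x + (m - s) c(x)` (for `m` on the circle) and `x ↦ m x`
(for `m` on no circle) form a system as in `Plane.lean`.  Points on a common curve `y = s x + β c(x) + γ`
are collinear in the resulting plane.
-/

set_option autoImplicit false

namespace Pool.Agent.H9.Welsh

open Classical in
/-- Pairwise disjoint circles. -/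
structure Circles (K : Type) [Field K] (c : K →+* K) (Λ : Type) where
  s : Λ → K
  β : Λ → K
  hβ : ∀ l, β l ≠ 0
  hc : ∀ x, c (c x) = x
  disj : ∀ l l' m, (m - s l) * c (m - s l) = β l * c (β l) →
    (m - s l') * c (m - s l') = β l' * c (β l') → l = l'

namespace Circles

variable {K : Type} [Field K] {c : K →+* K} {Λ : Type} (C : Circles K c Λ)

/-- `m` lies on the circle `l`. -/
def OnC (l : Λ) (m : K) : Prop := (m - C.s l) * c (m - C.s l) = C.β l * c (C.β l)

open Classical in
/-- The additive map of slope label `m`. -/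
noncomputable def phi (m : K) : K →+ K :=
  if h : ∃ l, C.OnC l m then
    AddMonoidHom.mulLeft (C.s h.choose) + (AddMonoidHom.mulLeft (m - C.s h.choose)).comp
      c.toAddMonoidHom
  else AddMonoidHom.mulLeft m

theorem phi_on {l : Λ} {m : K} (h : C.OnC l m) (x : K) :
    C.phi m x = C.s l * x + (m - C.s l) * c x := by
  have hex : ∃ l, C.OnC l m := ⟨l, h⟩
  have hl : hex.choose = l := C.disj _ _ m hex.choose_spec h
  unfold phi
  rw [dif_pos hex, hl]
  simp

theorem phi_off {m : K} (h : ¬ ∃ l, C.OnC l m) (x : K) : C.phi m x = m * x := by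
  unfold phi
  rw [dif_neg h]
  simp

theorem c_ne {x : K} (hx : x ≠ 0) : c x ≠ 0 := by
  intro h
  exact hx ((map_eq_zero c).mp h)

theorem onC_slope {l : Λ} {m x : K} (hx : x ≠ 0) (h : C.OnC l m) : C.OnC l (C.phi m x / x) := by
  have hcx : c x ≠ 0 := c_ne hx
  have e : C.phi m x / x - C.s l = (m - C.s l) * c x / x := by
    rw [C.phi_on h x]
    field_simp
    ring
  unfold OnC at h ⊢
  rw [e, map_div₀, map_mul, C.hc x, ← h]
  field_simp

theorem inj_phi (m m' x : K) (hx : x ≠ 0) (h : C.phi m x = C.phi m' x) : m = m' := by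
  have hcx : c x ≠ 0 := c_ne hx
  by_cases h1 : ∃ l, C.OnC l m
  · obtain ⟨l, hl⟩ := h1
    have hn : C.OnC l (C.phi m x / x) := C.onC_slope hx hl
    by_cases h2 : ∃ l, C.OnC l m'
    · obtain ⟨l', hl'⟩ := h2
      have hn' : C.OnC l' (C.phi m' x / x) := C.onC_slope hx hl'
      rw [← h] at hn'
      have : l = l' := C.disj _ _ _ hn hn'
      subst this
      rw [C.phi_on hl, C.phi_on hl'] at h
      have h3 : (m - C.s l) * c x = (m' - C.s l) * c x := add_left_cancel h
      have h4 := mul_right_cancel₀ hcx h3
      exact sub_left_injective h4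
    · rw [h, C.phi_off h2, mul_div_cancel_right₀ _ hx] at hn
      exact absurd ⟨l, hn⟩ h2
  · by_cases h2 : ∃ l, C.OnC l m'
    · obtain ⟨l', hl'⟩ := h2
      have hn' : C.OnC l' (C.phi m' x / x) := C.onC_slope hx hl'
      rw [← h, C.phi_off h1, mul_div_cancel_right₀ _ hx] at hn'
      exact absurd ⟨l', hn'⟩ h1
    · rw [C.phi_off h1, C.phi_off h2] at h
      exact mul_right_cancel₀ hx h

/-- The system of additive maps of a family of circles. -/
noncomputable def sys : Sys K where
  phi := C.phi
  inj := C.inj_phi

theorem onC_add (l : Λ) : C.OnC l (C.s l + C.β l) := by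
  unfold OnC
  rw [add_sub_cancel_left]

/-- Points on curves `y = s x + β c(x) + γ` become collinear, and nothing else. -/
theorem embed {E : Type} (X Y : E → K) (on : E → Λ → Prop)
    (hX : ∀ i j, i ≠ j → X i ≠ X j)
    (hon : ∀ l i j, on i l → on j l → Y i - Y j = C.s l * (X i - X j) + C.β l * c (X i - X j))
    (hcov : ∀ i j, i ≠ j → ∃ l, on i l ∧ on j l) :
    Function.Injective (fun i => Pt.aff (X i) (Y i)) ∧
    ∀ i j k, i ≠ j → i ≠ k → j ≠ k →
      ((∃ L : Ln C.sys, Pt.aff (X i) (Y i) ∈ L ∧ Pt.aff (X j) (Y j) ∈ L ∧ Pt.aff (X k) (Y k) ∈ L) ↔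
        ∃ l, on i l ∧ on j l ∧ on k l) := by
  refine ⟨?_, ?_⟩
  · intro i j h
    by_contra hne
    simp only [Pt.aff.injEq] at h
    exact hX i j hne h.1
  · intro i j k hij hik hjk
    constructor
    · rintro ⟨L, hi, hj, hk⟩
      rcases L with ⟨m, b⟩ | a | _
      · rw [mem_sl_aff] at hi hj hk
        have key : ∀ i j l, on i l → on j l → i ≠ j → Y i = C.sys.phi m (X i) + b →
            Y j = C.sys.phi m (X j) + b → C.OnC l m := by
          intro i j l hi' hj' hne h1 h2
          have e1 : Y i - Y j = C.phi m (X i - X j) := by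
            rw [h1, h2, map_sub]
            change C.phi m (X i) + b - (C.phi m (X j) + b) = _
            ring
          have e2 := hon l i j hi' hj'
          have e3 : C.phi (C.s l + C.β l) (X i - X j) =
              C.s l * (X i - X j) + C.β l * c (X i - X j) := by
            rw [C.phi_on (C.onC_add l), add_sub_cancel_left]
          have e4 : m = C.s l + C.β l := by
            apply C.inj_phi m _ (X i - X j) (sub_ne_zero.mpr (hX i j hne))
            rw [← e1, e2, e3]
          rw [e4]
          exact C.onC_add l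
        obtain ⟨l, hil, hjl⟩ := hcov i j hij
        obtain ⟨l', hil', hkl'⟩ := hcov i k hik
        have o1 := key i j l hil hjl hij hi hj
        have o2 := key i k l' hil' hkl' hik hi hk
        have : l = l' := C.disj l l' m o1 o2
        subst this
        exact ⟨l, hil, hjl, hkl'⟩
      · rw [mem_vert_aff] at hi hj
        exact absurd (hi.trans hj.symm) (hX i j hij)
      · rw [mem_infl_aff] at hi
        exact hi.elim
    · rintro ⟨l, hi, hj, hk⟩
      refine ⟨.sl (C.s l + C.β l) (Y i - C.phi (C.s l + C.β l) (X i)), ?_, ?_, ?_⟩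
      · rw [mem_sl_aff]
        change Y i = C.phi (C.s l + C.β l) (X i) + _
        ring
      · rw [mem_sl_aff]
        change Y j = C.phi (C.s l + C.β l) (X j) + _
        have e2 := hon l i j hi hj
        have e3 : C.phi (C.s l + C.β l) (X i - X j) =
            C.s l * (X i - X j) + C.β l * c (X i - X j) := by
          rw [C.phi_on (C.onC_add l), add_sub_cancel_left]
        rw [map_sub] at e3
        linear_combination (-1 : K) * e2 + e3
      · rw [mem_sl_aff]
        change Y k = C.phi (C.s l + C.β l) (X k) + _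
        have e2 := hon l i k hi hk
        have e3 : C.phi (C.s l + C.β l) (X i - X k) =
            C.s l * (X i - X k) + C.β l * c (X i - X k) := by
          rw [C.phi_on (C.onC_add l), add_sub_cancel_left]
        rw [map_sub] at e3
        linear_combination (-1 : K) * e2 + e3

end Circles

end Pool.Agent.H9.Welsh
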