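import Pool.Agent.H9.Welsh.Space

/-!
# Sparse long lines

If every family `A` of at least two blocks with at least four points satisfies
`5 + ∑ (|l| - 3) ≤ |⋃ A|`, generic linear relations on the long blocks give a plane model.
-/

set_option autoImplicit false

namespace Pool.Agent.H9.Welsh

/-- **Sparse families of long blocks.** -/
theorem plane_of_sparse {E Λ : Type} [Fintype E] [Fintype Λ] [Nontrivial Λ] [DecidableEq E]
    (pts : Λ → Finset E)
    (h0 : ∀ l, 2 ≤ (pts l).card)
    (h1 : ∀ i j, i ≠ j → ∃ l, i ∈ pts l ∧ j ∈ pts l)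
    (hint : ∀ l l', l ≠ l' → (pts l ∩ pts l').card ≤ 1)
    (hsp : ∀ A : Finset Λ, (∀ l ∈ A, 4 ≤ (pts l).card) → 2 ≤ A.card →
      5 + ∑ l ∈ A, ((pts l).card - 3) ≤ (A.biUnion pts).card) :
    ∃ (P L : Type) (_ : Membership P L) (_ : Finite P) (_ : Finite L)
      (_ : Configuration.ProjectivePlane P L) (f : E → P), Function.Injective f ∧
      ∀ i j k, i ≠ j → i ≠ k → j ≠ k →
        ((∃ l : L, f i ∈ l ∧ f j ∈ l ∧ f k ∈ l) ↔ ∃ l, i ∈ pts l ∧ j ∈ pts l ∧ k ∈ pts l) := by
  classical
  let R := Σ l : Λ, Fin ((pts l).card - 3)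
  have hR4 : ∀ r : R, 4 ≤ (pts r.1).card := by
    rintro ⟨l, k⟩
    have := k.2
    simp only
    omega
  let Fs := {F : Finset E // F.card ≤ 5 ∧ ∀ l, (F ∩ pts l).card ≤ 3}
  -- matchings
  have hall : ∀ F : Fs, ∃ τ : R → E, Function.Injective τ ∧ ∀ r, τ r ∈ pts r.1 \ F.1 := by
    intro F
    apply (Finset.all_card_le_biUnion_card_iff_exists_injective (fun r : R => pts r.1 \ F.1)).mp
    intro s
    let A : Finset Λ := s.image Sigma.fst
    have hs : s.card ≤ ∑ l ∈ A, ((pts l).card - 3) := by
      have h5 : s ⊆ A.sigma (fun l => (Finset.univ : Finset (Fin ((pts l).card - 3)))) := by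
        intro r hr
        rw [Finset.mem_sigma]
        exact ⟨Finset.mem_image_of_mem _ hr, Finset.mem_univ _⟩
      refine (Finset.card_le_card h5).trans ?_
      rw [Finset.card_sigma]
      simp
    have hU : A.biUnion pts \ F.1 ⊆ s.biUnion (fun r : R => pts r.1 \ F.1) := by
      intro x hx
      rw [Finset.mem_sdiff, Finset.mem_biUnion] at hx
      obtain ⟨⟨l, hl, hxl⟩, hxF⟩ := hx
      obtain ⟨r, hr, rfl⟩ := Finset.mem_image.mp hl
      exact Finset.mem_biUnion.mpr ⟨r, hr, Finset.mem_sdiff.mpr ⟨hxl, hxF⟩⟩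
    refine le_trans ?_ (Finset.card_le_card hU)
    have hA4 : ∀ l ∈ A, 4 ≤ (pts l).card := by
      intro l hl
      obtain ⟨r, hr, rfl⟩ := Finset.mem_image.mp hl
      exact hR4 r
    rcases Nat.lt_or_ge A.card 2 with hA | hA
    · rcases Nat.eq_zero_or_pos A.card with h0' | hpos
      · rw [Finset.card_eq_zero] at h0'
        rw [h0', Finset.sum_empty] at hs
        omega
      · have h6 : A.card = 1 := by omega
        obtain ⟨l, hl⟩ := Finset.card_eq_one.mp h6
        rw [hl, Finset.sum_singleton] at hs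
        rw [hl, Finset.singleton_biUnion]
        have h7 := Finset.card_sdiff_add_card_inter (pts l) F.1
        have h8 := F.2.2 l
        rw [Finset.inter_comm] at h8
        omega
    · have h6 := hsp A hA4 hA
      have h7 := Finset.le_card_sdiff F.1 (A.biUnion pts)
      have h8 := F.2.1
      omega
  choose τ hτi hτm using hall
  -- generic coefficients
  let Mx : R → E → MvPolynomial (R × E) ℤ := fun r x => if x ∈ pts r.1 then MvPolynomial.X (r, x)
    else 0
  obtain ⟨s, hs⟩ := common_point (fun F : Fs => (Matrix.of (fun r r' : R => Mx r (τ F r'))).det) (by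
    intro F
    refine ⟨fun q => if q.2 = τ F q.1 then 1 else 0, ?_⟩
    rw [RingHom.map_det]
    have : (MvPolynomial.eval (fun q : R × E => if q.2 = τ F q.1 then (1 : ℤ) else 0)).mapMatrix
        (Matrix.of (fun r r' : R => Mx r (τ F r'))) = 1 := by
      ext r r'
      simp only [RingHom.mapMatrix_apply, Matrix.map_apply, Matrix.of_apply, Mx]
      by_cases hrr : r = r'
      · subst hrr
        rw [if_pos (Finset.mem_sdiff.mp (hτm F r)).1]
        simp
      · rw [Matrix.one_apply_ne hrr]
        split_ifs with hm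
        · simp only [MvPolynomial.eval_X]
          rw [if_neg]
          intro h
          exact hrr (hτi F h).symm
        · simp
    rw [this, Matrix.det_one]
    exact one_ne_zero)
  let c : R → E → ℚ := fun r x => if x ∈ pts r.1 then ((s (r, x) : ℤ) : ℚ) else 0
  have hc : ∀ F : Fs, ∀ w : R → ℚ, (∀ x, x ∉ F.1 → ∑ r, w r * c r x = 0) → w = 0 := by
    intro F w hw
    have hdet := hs F
    rw [RingHom.map_det] at hdet
    set N : Matrix R R ℤ := (MvPolynomial.eval s).mapMatrix
      (Matrix.of (fun r r' : R => Mx r (τ F r'))) with hN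
    have hNc : ∀ r r', ((N r r' : ℤ) : ℚ) = c r (τ F r') := by
      intro r r'
      simp only [hN, RingHom.mapMatrix_apply, Matrix.map_apply, Matrix.of_apply, Mx, c]
      split_ifs <;> simp
    have hdetQ : (N.map (Int.castRingHom ℚ)).det ≠ 0 := by
      have h5 := RingHom.map_det (Int.castRingHom ℚ) N
      rw [RingHom.mapMatrix_apply] at h5
      rw [← h5]
      simpa using hdet
    apply Matrix.eq_zero_of_vecMul_eq_zero hdetQ
    funext r'
    rw [Matrix.vecMul, dotProduct]
    have h5 := hw (τ F r') (Finset.mem_sdiff.mp (hτm F r')).2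
    rw [Pi.zero_apply, ← h5]
    refine Finset.sum_congr rfl fun r _ => ?_
    rw [Matrix.map_apply, ← hNc r r']
    simp
  -- the quotient
  let K : Submodule ℚ (E → ℚ) := Submodule.span ℚ (Set.range c)
  let g : E → ((E → ℚ) ⧸ K) := fun x => K.mkQ (Pi.single x 1)
  have hK : ∀ u ∈ K, ∃ w : R → ℚ, ∀ x, u x = ∑ r, w r * c r x := by
    intro u hu
    obtain ⟨w, hw⟩ := (Submodule.mem_span_range_iff_exists_fun ℚ).mp hu
    refine ⟨w, fun x => ?_⟩
    rw [← hw, Finset.sum_apply]
    simp
  refine plane_of_five g pts h0 h1 hint ?_ ?_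
  · intro l
    by_cases hl : (pts l).card ≤ 3
    · exact (finrank_span_image_le g (pts l)).trans hl
    push Not at hl
    let S : Submodule ℚ (E → ℚ) :=
      Submodule.span ℚ ((fun x : E => (Pi.single x (1 : ℚ) : E → ℚ)) '' (pts l : Set E))
    have hSmap : Submodule.span ℚ (g '' (pts l : Set E)) = S.map K.mkQ := by
      rw [Submodule.map_span, ← Set.image_comp]
      rfl
    have hSfr : Module.finrank ℚ S ≤ (pts l).card := finrank_span_image_le _ (pts l)
    have hcS : ∀ k : Fin ((pts l).card - 3), c ⟨l, k⟩ ∈ S := by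
      intro k
      have h5 : c ⟨l, k⟩ = ∑ x ∈ pts l, c ⟨l, k⟩ x • (Pi.single x (1 : ℚ) : E → ℚ) := by
        funext y
        rw [Finset.sum_apply]
        simp only [Pi.smul_apply, smul_eq_mul, Pi.single_apply, mul_ite, mul_one, mul_zero]
        rw [Finset.sum_ite_eq]
        split_ifs with hy
        · rfl
        · simp only [c]
          rw [if_neg hy]
      rw [h5]
      exact Submodule.sum_mem _ fun x hx => Submodule.smul_mem _ _
        (Submodule.subset_span ⟨x, hx, rfl⟩)
    let T : Submodule ℚ (E → ℚ) :=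
      Submodule.span ℚ (Set.range (fun k : Fin ((pts l).card - 3) => c ⟨l, k⟩))
    have hTfr : Module.finrank ℚ T = (pts l).card - 3 := by
      have hli : LinearIndependent ℚ (fun k : Fin ((pts l).card - 3) => c ⟨l, k⟩) := by
        have hli' : LinearIndependent ℚ c := by
          rw [Fintype.linearIndependent_iff]
          intro w hw r
          have h5 := hc ⟨∅, by simp, by simp⟩ w (fun x _ => by
            have := congrFun hw x
            simpa [Finset.sum_apply] using this)
          rw [h5]; rfl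
        exact hli'.comp (fun k : Fin ((pts l).card - 3) => (⟨l, k⟩ : R)) (by
          intro k k' h
          have h' : (⟨l, k⟩ : R) = ⟨l, k'⟩ := h
          exact eq_of_heq (Sigma.mk.inj h').2)
      rw [finrank_span_eq_card hli, Fintype.card_fin]
    have hTS : T ≤ S := Submodule.span_le.mpr (by rintro _ ⟨k, rfl⟩; exact hcS k)
    have hTK : T ≤ K := Submodule.span_mono (by rintro _ ⟨k, rfl⟩; exact ⟨⟨l, k⟩, rfl⟩)
    rw [hSmap]
    have h6 := LinearMap.finrank_range_add_finrank_ker (K.mkQ.comp S.subtype)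
    rw [LinearMap.range_comp, Submodule.range_subtype] at h6
    have h7 : Module.finrank ℚ T ≤ Module.finrank ℚ (LinearMap.ker (K.mkQ.comp S.subtype)) := by
      have h8 : Module.finrank ℚ (T.comap S.subtype) = Module.finrank ℚ T :=
        (Submodule.comapSubtypeEquivOfLe hTS).finrank_eq
      rw [← h8]
      apply Submodule.finrank_mono
      intro u hu
      rw [LinearMap.mem_ker, LinearMap.comp_apply, Submodule.mkQ_apply,
        Submodule.Quotient.mk_eq_zero]
      exact hTK hu
    omega
  · intro F hF5 hF3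
    rw [linearIndepOn_finset_iff]
    intro a ha
    have h5 : (∑ x ∈ F, a x • (Pi.single x (1 : ℚ) : E → ℚ)) ∈ K := by
      rw [← Submodule.Quotient.mk_eq_zero, ← Submodule.mkQ_apply, map_sum, ← ha]
      exact Finset.sum_congr rfl fun x _ => by rw [map_smul]
    obtain ⟨w, hw⟩ := hK _ h5
    have hval : ∀ y, (∑ x ∈ F, a x • (Pi.single x (1 : ℚ) : E → ℚ)) y = if y ∈ F then a y else 0 := by
      intro y
      rw [Finset.sum_apply]
      simp only [Pi.smul_apply, smul_eq_mul, Pi.single_apply, mul_ite, mul_one, mul_zero]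
      rw [Finset.sum_ite_eq]
    have hw0 : w = 0 := by
      apply hc ⟨F, hF5, hF3⟩ w
      intro x hx
      rw [← hw x, hval, if_neg hx]
    intro x hx
    have h6 := hw x
    rw [hval, if_pos hx, hw0] at h6
    simpa using h6

end Pool.Agent.H9.Welsh
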