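import Pool.Agent.H9.Welsh.Lines
import Pool.Agent.H9.Welsh.Hall

/-!
# Classes of rank three matroids that embed in finite projective planes
-/

set_option autoImplicit false

namespace Pool.Agent.H9.Welsh

/-- **General criterion.**  `N` is the matroid represented over `ℚ` by `g`. -/
theorem criterion (α : Type) (M : Matroid α) (hfin : M.Finite) (hrk : M.eRank = 3)
    (hs : ∀ e ∈ M.E, ∀ f ∈ M.E, M.Indep {e, f}) (m : ℕ) (g : α → Fin m → ℚ)
    (h1 : ∀ x ∈ M.E, ∀ y ∈ M.E, x ≠ y → LinearIndependent ℚ ![g x, g y])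
    (h2 : ∀ X ⊆ M.E, M.eRk X ≤ 2 → Module.finrank ℚ (Submodule.span ℚ (g '' X)) ≤ 3)
    (h3 : ∀ X ⊆ M.E, ∀ Y ⊆ M.E, M.eRk X ≤ 2 → M.eRk Y ≤ 2 → 2 < M.eRk (X ∪ Y) →
      Module.finrank ℚ (Submodule.span ℚ (g '' X)) + Module.finrank ℚ (Submodule.span ℚ (g '' Y)) ≤
        Module.finrank ℚ (Submodule.span ℚ (g '' (X ∪ Y))) + 1) :
    ∃ (P L : Type) (_ : Membership P L) (_ : Finite P) (_ : Finite L)
      (_ : Configuration.ProjectivePlane P L) (φ : α → P),
      Set.InjOn φ M.E ∧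
      ∀ X ⊆ M.E, (M.Indep X ↔
        (X.encard ≤ 2 ∨ (X.encard = 3 ∧ ∀ l : L, ¬ ∀ x ∈ X, φ x ∈ l))) := by
  classical
  apply of_lines M hfin hrk hs
  intro pts hpts
  have hE : Finite M.E := hfin.ground_finite
  have hEf : Fintype M.E := Fintype.ofFinite _
  have hΛ : Finite (LinesOf M) := by unfold LinesOf; infer_instance
  have hnt : Nontrivial (LinesOf M) := lines_nontrivial hrk hs
  have hmem : ∀ l x, x ∈ pts l ↔ x ∈ l.1 := by
    intro l x; rw [← Finset.mem_coe, hpts l]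
  have himg : ∀ l, (fun x : M.E => g x) '' (pts l : Set M.E) = g '' (Subtype.val '' l.1) := by
    intro l
    rw [hpts l, ← Set.image_comp]; rfl
  have hsub : ∀ l : LinesOf M, (Subtype.val '' l.1 : Set α) ⊆ M.E := by
    rintro l _ ⟨x, -, rfl⟩
    exact x.2
  have htwo : ∀ l : LinesOf M, ∃ x ∈ l.1, ∃ y ∈ l.1, x ≠ y := by
    intro l
    obtain ⟨i, j, hij, hl⟩ := l.2
    have hcl : ∀ z ∈ ({(i : α), (j : α)} : Set α), z ∈ M.closure {(i : α), (j : α)} := fun z hz =>
      M.mem_closure_of_mem hz (hs i i.2 j j.2).subset_ground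
    have hi := hcl i (by simp)
    have hj := hcl j (by simp)
    rw [← hl] at hi hj
    obtain ⟨x, hx, hxi⟩ := hi
    obtain ⟨y, hy, hyj⟩ := hj
    refine ⟨x, hx, y, hy, ?_⟩
    rintro rfl
    exact hij (Subtype.ext (hxi.symm.trans hyj))
  refine plane_of_space (fun x : M.E => g x) pts ?_ ?_ ?_ ?_ ?_
  · intro l
    obtain ⟨x, hx, y, hy, hxy⟩ := htwo l
    exact ⟨x, (hmem l x).mpr hx, y, (hmem l y).mpr hy, hxy⟩
  · intro i j hij
    obtain ⟨l, h⟩ := exists_line hs hij
    exact ⟨l, (hmem l i).mpr h.1, (hmem l j).mpr h.2⟩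
  · intro l
    rw [himg l]
    exact h2 _ (hsub l) (line_rank l)
  · intro i j hij α' β h
    have h5 := h1 i i.2 j j.2 (fun h => hij (Subtype.ext h))
    rw [LinearIndependent.pair_iff] at h5
    exact h5 α' β h
  · intro l l' hll
    rw [himg l, himg l']
    have h5 := h3 _ (hsub l) _ (hsub l') (line_rank l) (line_rank l') (by
      by_contra hcon
      push Not at hcon
      obtain ⟨x, hx, y, hy, hxy⟩ := htwo l
      obtain ⟨x', hx', y', hy', hxy'⟩ := htwo l'
      obtain ⟨m, hm⟩ := exists_line_of_rank hs (Set.union_subset (hsub l) (hsub l')) hcon hxy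
        (Or.inl ⟨x, hx, rfl⟩) (Or.inl ⟨y, hy, rfl⟩)
      have e1 : l = m := lines_unique hs l m hxy hx hy (hm x (Or.inl ⟨x, hx, rfl⟩))
        (hm y (Or.inl ⟨y, hy, rfl⟩))
      have e2 : l' = m := lines_unique hs l' m hxy' hx' hy' (hm x' (Or.inr ⟨x', hx', rfl⟩))
        (hm y' (Or.inr ⟨y', hy', rfl⟩))
      exact hll (e1.trans e2.symm))
    have h6 := Submodule.finrank_sup_add_finrank_inf_eq (Submodule.span ℚ (g '' (Subtype.val '' l.1)))
      (Submodule.span ℚ (g '' (Subtype.val '' l'.1)))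
    rw [← Submodule.span_union, ← Set.image_union] at h6
    omega

/-- **Sparse long lines.** -/
theorem sparse_long (α : Type) (M : Matroid α) (hfin : M.Finite) (hrk : M.eRank = 3)
    (hs : ∀ e ∈ M.E, ∀ f ∈ M.E, M.Indep {e, f})
    (hsp : ∀ A : Finset (Set α), 2 ≤ A.card →
      (∀ l ∈ A, M.IsFlat l ∧ M.eRk l = 2 ∧ 4 ≤ l.encard) →
      5 + ∑ l ∈ A, (l.ncard - 3) ≤ (⋃ l ∈ A, l).ncard) :
    ∃ (P L : Type) (_ : Membership P L) (_ : Finite P) (_ : Finite L)
      (_ : Configuration.ProjectivePlane P L) (φ : α → P),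
      Set.InjOn φ M.E ∧
      ∀ X ⊆ M.E, (M.Indep X ↔
        (X.encard ≤ 2 ∨ (X.encard = 3 ∧ ∀ l : L, ¬ ∀ x ∈ X, φ x ∈ l))) := by
  classical
  apply of_lines M hfin hrk hs
  intro pts hpts
  have hE : Finite M.E := hfin.ground_finite
  have hEf : Fintype M.E := Fintype.ofFinite _
  have hΛ : Finite (LinesOf M) := by unfold LinesOf; infer_instance
  have hΛf : Fintype (LinesOf M) := Fintype.ofFinite _
  have hnt : Nontrivial (LinesOf M) := lines_nontrivial hrk hs
  have hmem : ∀ l x, x ∈ pts l ↔ x ∈ l.1 := by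
    intro l x; rw [← Finset.mem_coe, hpts l]
  have hcard : ∀ s : Finset M.E, (Subtype.val '' (s : Set M.E) : Set α).ncard = s.card := by
    intro s
    rw [Set.ncard_image_of_injective _ Subtype.val_injective, Set.ncard_coe_finset]
  refine plane_of_sparse pts ?_ ?_ ?_ ?_
  · intro l
    obtain ⟨i, j, hij, hl⟩ := l.2
    have hcl : ∀ z ∈ ({(i : α), (j : α)} : Set α), z ∈ M.closure {(i : α), (j : α)} := fun z hz =>
      M.mem_closure_of_mem hz (hs i i.2 j j.2).subset_ground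
    have hi := hcl i (by simp)
    have hj := hcl j (by simp)
    rw [← hl] at hi hj
    obtain ⟨x, hx, hxi⟩ := hi
    obtain ⟨y, hy, hyj⟩ := hj
    refine Finset.one_lt_card.mpr ⟨x, (hmem l x).mpr hx, y, (hmem l y).mpr hy, ?_⟩
    rintro rfl
    exact hij (Subtype.ext (hxi.symm.trans hyj))
  · intro i j hij
    obtain ⟨l, h⟩ := exists_line hs hij
    exact ⟨l, (hmem l i).mpr h.1, (hmem l j).mpr h.2⟩
  · intro l l' hll
    by_contra hcon
    push Not at hcon
    obtain ⟨x, hx, y, hy, hxy⟩ := Finset.one_lt_card.mp hcon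
    rw [Finset.mem_inter, hmem, hmem] at hx hy
    exact hll (lines_unique hs l l' hxy hx.1 hy.1 hx.2 hy.2)
  · intro A hA4 hA2
    let e : LinesOf M ↪ Set α := ⟨fun l => Subtype.val '' l.1, fun l l' h =>
      Subtype.ext (Set.image_injective.mpr Subtype.val_injective h)⟩
    have h5 := hsp (A.map e) (by rw [Finset.card_map]; exact hA2) (by
      intro s hs'
      obtain ⟨l, hl, rfl⟩ := Finset.mem_map.mp hs'
      obtain ⟨i, j, hij, hcl⟩ := l.2
      refine ⟨?_, ?_, ?_⟩
      · change M.IsFlat (Subtype.val '' l.1)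
        rw [hcl]
        exact M.isFlat_closure _
      · change M.eRk (Subtype.val '' l.1) = 2
        rw [hcl, M.eRk_closure_eq, pair_rank hs i.2 j.2 (fun h => hij (Subtype.ext h))]
      · change 4 ≤ (Subtype.val '' l.1 : Set α).encard
        rw [← hpts l, Function.Injective.encard_image Subtype.val_injective,
          Set.encard_coe_eq_coe_finsetCard]
        exact_mod_cast hA4 l hl)
    rw [Finset.sum_map] at h5
    have h6 : (⋃ l ∈ A.map e, l) = Subtype.val '' ((A.biUnion pts : Finset M.E) : Set M.E) := by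
      ext z
      simp only [Set.mem_iUnion, Finset.mem_map, Set.mem_image, Finset.mem_coe, Finset.mem_biUnion]
      constructor
      · rintro ⟨_, ⟨l, hl, rfl⟩, x, hx, rfl⟩
        exact ⟨x, ⟨l, hl, (hmem l x).mpr hx⟩, rfl⟩
      · rintro ⟨x, ⟨l, hl, hx⟩, rfl⟩
        exact ⟨_, ⟨l, hl, rfl⟩, x, (hmem l x).mp hx, rfl⟩
    rw [h6, hcard] at h5
    refine le_trans (le_of_eq ?_) h5
    congr 1
    refine Finset.sum_congr rfl fun l _ => ?_
    change _ = (Subtype.val '' l.1 : Set α).ncard - 3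
    rw [← hpts l, hcard]

end Pool.Agent.H9.Welsh
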