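import Pool.Agent.H9.Welsh.Blocks

/-!
# Partial triple systems and rank three matroids all of whose lines have at most three points
-/

set_option autoImplicit false

namespace Pool.Agent.H9.Welsh

/-- **Partial triple systems embed in finite projective planes.** -/
theorem plane_of_pts {E : Type} [Finite E] [DecidableEq E] (R : Finset E → Prop)
    (hR3 : ∀ s, R s → s.card = 3)
    (hRR : ∀ s t, R s → R t → s ≠ t → (s ∩ t).card ≤ 1)
    (hne : ∃ i j k : E, i ≠ j ∧ i ≠ k ∧ j ≠ k ∧ ¬ R {i, j, k}) :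
    ∃ (P L : Type) (_ : Membership P L) (_ : Finite P) (_ : Finite L)
      (_ : Configuration.ProjectivePlane P L) (f : E → P), Function.Injective f ∧
      ∀ i j k, i ≠ j → i ≠ k → j ≠ k →
        ((∃ l : L, f i ∈ l ∧ f j ∈ l ∧ f k ∈ l) ↔ R {i, j, k}) := by
  classical
  have hE : Fintype E := Fintype.ofFinite E
  let Λ := {s : Finset E // R s ∨ (s.card = 2 ∧ ∀ t, R t → ¬ s ⊆ t)}
  have hq : ∀ s : Λ, ∃ q : Fin 3 → E ⊕ Finset E, Function.Injective q ∧
      (∀ x, Sum.inl x ∈ Set.range q ↔ x ∈ s.1) ∧ (∀ t, Sum.inr t ∈ Set.range q → t = s.1) := by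
    rintro ⟨s, hs | hs⟩
    · obtain ⟨x, y, z, hxy, hxz, hyz, rfl⟩ := Finset.card_eq_three.mp (hR3 s hs)
      refine ⟨![Sum.inl x, Sum.inl y, Sum.inl z], ?_, ?_, ?_⟩
      · intro i j h
        fin_cases i <;> fin_cases j <;> simp_all [Ne.symm]
      · intro w
        simp only [Set.mem_range, Finset.mem_insert, Finset.mem_singleton]
        constructor
        · rintro ⟨i, hi⟩
          fin_cases i <;> simp_all
        · rintro (rfl | rfl | rfl)
          · exact ⟨0, rfl⟩
          · exact ⟨1, rfl⟩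
          · exact ⟨2, rfl⟩
      · rintro t ⟨i, hi⟩
        fin_cases i <;> simp at hi
    · obtain ⟨x, y, hxy, rfl⟩ := Finset.card_eq_two.mp hs.1
      refine ⟨![Sum.inl x, Sum.inl y, Sum.inr {x, y}], ?_, ?_, ?_⟩
      · intro i j h
        fin_cases i <;> fin_cases j <;> simp_all [Ne.symm]
      · intro w
        simp only [Set.mem_range, Finset.mem_insert, Finset.mem_singleton]
        constructor
        · rintro ⟨i, hi⟩
          fin_cases i <;> simp_all
        · rintro (rfl | rfl)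
          · exact ⟨0, rfl⟩
          · exact ⟨1, rfl⟩
      · rintro t ⟨i, hi⟩
        fin_cases i
        · simp at hi
        · simp at hi
        · simpa using hi.symm
  choose q hqinj hql hqr using hq
  have hcov : ∀ i j : E, i ≠ j → ∃ l : Λ, i ∈ l.1 ∧ j ∈ l.1 := by
    intro i j hij
    by_cases h : ∃ t, R t ∧ ({i, j} : Finset E) ⊆ t
    · obtain ⟨t, ht, hsub⟩ := h
      exact ⟨⟨t, Or.inl ht⟩, hsub (by simp), hsub (by simp)⟩
    · push Not at h
      exact ⟨⟨{i, j}, Or.inr ⟨Finset.card_pair hij, h⟩⟩, by simp, by simp⟩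
  have hthree : ∀ i j k : E, i ≠ j → i ≠ k → j ≠ k →
      ((∃ l : Λ, i ∈ l.1 ∧ j ∈ l.1 ∧ k ∈ l.1) ↔ R {i, j, k}) := by
    intro i j k hij hik hjk
    constructor
    · rintro ⟨⟨s, hs⟩, hi, hj, hk⟩
      simp only at hi hj hk
      have hsub : ({i, j, k} : Finset E) ⊆ s := by
        intro x hx
        simp only [Finset.mem_insert, Finset.mem_singleton] at hx
        rcases hx with rfl | rfl | rfl <;> assumption
      have hc : ({i, j, k} : Finset E).card = 3 := Finset.card_eq_three.mpr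
        ⟨i, j, k, hij, hik, hjk, rfl⟩
      rcases hs with hs | hs
      · have : ({i, j, k} : Finset E) = s := Finset.eq_of_subset_of_card_le hsub
          (by rw [hR3 s hs, hc])
        rw [this]; exact hs
      · have := Finset.card_le_card hsub
        rw [hc, hs.1] at this
        omega
    · intro h
      exact ⟨⟨{i, j, k}, Or.inl h⟩, by simp, by simp, by simp⟩
  obtain ⟨i0, j0, k0, hij, hik, hjk, hn⟩ := hne
  have hnt : Nontrivial Λ := by
    obtain ⟨l, hl1, hl2⟩ := hcov i0 j0 hij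
    obtain ⟨l', hl1', hl2'⟩ := hcov i0 k0 hik
    refine ⟨l, l', ?_⟩
    rintro rfl
    exact hn ((hthree i0 j0 k0 hij hik hjk).mp ⟨l, hl1, hl2, hl2'⟩)
  have hint : ∀ l l' : Λ, l ≠ l' → ∀ i j, i ≠ j → ¬ (q l i ∈ Set.range (q l') ∧
      q l j ∈ Set.range (q l')) := by
    rintro l l' hll i j hij ⟨h1, h2⟩
    have hcase : ∀ i, q l i ∈ Set.range (q l') → ∃ x, q l i = Sum.inl x ∧ x ∈ l.1 ∧ x ∈ l'.1 := by
      intro i hi
      rcases hqi : q l i with x | t
      · refine ⟨x, rfl, (hql l x).mp ⟨i, hqi⟩, (hql l' x).mp ?_⟩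
        rw [← hqi]; exact hi
      · exfalso
        have e1 := hqr l t ⟨i, hqi⟩
        have e2 := hqr l' t (by rw [← hqi]; exact hi)
        exact hll (Subtype.ext (e1.symm.trans e2))
    obtain ⟨x, hx, hxl, hxl'⟩ := hcase i h1
    obtain ⟨y, hy, hyl, hyl'⟩ := hcase j h2
    have hxy : x ≠ y := by
      rintro rfl
      exact hij (hqinj l (hx.trans hy.symm))
    have hsub : ({x, y} : Finset E) ⊆ l.1 ∩ l'.1 := by
      intro w hw
      simp only [Finset.mem_insert, Finset.mem_singleton] at hw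
      rw [Finset.mem_inter]
      rcases hw with rfl | rfl
      · exact ⟨hxl, hxl'⟩
      · exact ⟨hyl, hyl'⟩
    have hc2 : 2 ≤ (l.1 ∩ l'.1).card := by
      have h := Finset.card_le_card hsub
      rwa [Finset.card_pair hxy] at h
    have hne : l.1 ≠ l'.1 := fun h => hll (Subtype.ext h)
    rcases l.2 with hl | hl <;> rcases l'.2 with hl' | hl'
    · have := hRR _ _ hl hl' hne
      omega
    · have hsub' : l'.1 ⊆ l.1 := by
        have : l.1 ∩ l'.1 = l'.1 := Finset.eq_of_subset_of_card_le Finset.inter_subset_right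
          (by rw [hl'.1]; exact hc2)
        rw [← this]; exact Finset.inter_subset_left
      exact hl'.2 _ hl hsub'
    · have hsub' : l.1 ⊆ l'.1 := by
        have : l.1 ∩ l'.1 = l.1 := Finset.eq_of_subset_of_card_le Finset.inter_subset_left
          (by rw [hl.1]; exact hc2)
        rw [← this]; exact Finset.inter_subset_right
      exact hl.2 _ hl' hsub'
    · have e1 : l.1 ∩ l'.1 = l.1 := Finset.eq_of_subset_of_card_le Finset.inter_subset_left
          (by rw [hl.1]; exact hc2)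
      have e2 : l.1 ∩ l'.1 = l'.1 := Finset.eq_of_subset_of_card_le Finset.inter_subset_right
          (by rw [hl'.1]; exact hc2)
      exact hne (e1.symm.trans e2)
  have hΛ : Finite Λ := inferInstance
  obtain ⟨P, L, m, fP, fL, pl, f, hf, hfl⟩ := plane_of_triples q hqinj hint
    (fun x : E => (Sum.inl x : E ⊕ Finset E)) Sum.inl_injective (by
      intro i j hij
      obtain ⟨l, h1, h2⟩ := hcov i j hij
      exact ⟨l, (hql l i).mpr h1, (hql l j).mpr h2⟩)
  refine ⟨P, L, m, fP, fL, pl, f, hf, fun i j k hij hik hjk => ?_⟩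
  rw [hfl i j k hij hik hjk, ← hthree i j k hij hik hjk]
  constructor
  · rintro ⟨l, h1, h2, h3⟩
    exact ⟨l, (hql l i).mp h1, (hql l j).mp h2, (hql l k).mp h3⟩
  · rintro ⟨l, h1, h2, h3⟩
    exact ⟨l, (hql l i).mpr h1, (hql l j).mpr h2, (hql l k).mpr h3⟩

/-- From a collinearity-preserving embedding of the ground set to the format of the problem. -/
theorem format {α : Type} (M : Matroid α) (hrk : M.eRank = 3)
    (hs : ∀ e ∈ M.E, ∀ f ∈ M.E, M.Indep {e, f})
    (h : ∃ (P L : Type) (_ : Membership P L) (_ : Finite P) (_ : Finite L)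
      (_ : Configuration.ProjectivePlane P L) (f : M.E → P), Function.Injective f ∧
      ∀ i j k : M.E, i ≠ j → i ≠ k → j ≠ k →
        ((∃ l : L, f i ∈ l ∧ f j ∈ l ∧ f k ∈ l) ↔ ¬ M.Indep {(i : α), (j : α), (k : α)})) :
    ∃ (P L : Type) (_ : Membership P L) (_ : Finite P) (_ : Finite L)
      (_ : Configuration.ProjectivePlane P L) (φ : α → P),
      Set.InjOn φ M.E ∧
      ∀ X ⊆ M.E, (M.Indep X ↔
        (X.encard ≤ 2 ∨ (X.encard = 3 ∧ ∀ l : L, ¬ ∀ x ∈ X, φ x ∈ l))) := by
  classical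
  obtain ⟨P, L, m, fP, fL, pl, f, hf, hfl⟩ := h
  obtain ⟨p0, -⟩ := pl.exists_config
  refine ⟨P, L, m, fP, fL, pl, fun a => if ha : a ∈ M.E then f ⟨a, ha⟩ else p0, ?_, ?_⟩
  · intro x hx y hy hxy
    simp only [hx, hy, dif_pos] at hxy
    exact congrArg Subtype.val (hf hxy)
  · intro X hX
    have h3 : ∀ x y z : α, x ≠ y → x ≠ z → y ≠ z → ∀ (hx : x ∈ M.E) (hy : y ∈ M.E) (hz : z ∈ M.E),
        ((∃ l : L, f ⟨x, hx⟩ ∈ l ∧ f ⟨y, hy⟩ ∈ l ∧ f ⟨z, hz⟩ ∈ l) ↔ ¬ M.Indep {x, y, z}) := by
      intro x y z hxy hxz hyz hx hy hz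
      exact hfl ⟨x, hx⟩ ⟨y, hy⟩ ⟨z, hz⟩ (fun h => hxy (congrArg Subtype.val h))
        (fun h => hxz (congrArg Subtype.val h)) (fun h => hyz (congrArg Subtype.val h))
    have hmem : ∀ x y z : α, ∀ (hx : x ∈ M.E) (hy : y ∈ M.E) (hz : z ∈ M.E), ∀ l : L,
        (∀ w ∈ ({x, y, z} : Set α), (if hw : w ∈ M.E then f ⟨w, hw⟩ else p0) ∈ l) ↔
        (f ⟨x, hx⟩ ∈ l ∧ f ⟨y, hy⟩ ∈ l ∧ f ⟨z, hz⟩ ∈ l) := by
      intro x y z hx hy hz l
      simp [hx, hy, hz]
    constructor
    · intro hI
      have hle : X.encard ≤ 3 := by rw [← hrk]; exact hI.encard_le_eRank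
      by_cases h2 : X.encard ≤ 2
      · exact Or.inl h2
      · right
        have hc : X.encard = 3 := by
          refine le_antisymm hle ?_
          have := Order.add_one_le_of_lt (not_le.mp h2)
          exact (by norm_num : (3 : ℕ∞) = 2 + 1) ▸ this
        refine ⟨hc, ?_⟩
        intro l hl
        obtain ⟨x, y, z, hxy, hxz, hyz, rfl⟩ := Set.encard_eq_three.mp hc
        have hx : x ∈ M.E := hX (by simp)
        have hy : y ∈ M.E := hX (by simp)
        have hz : z ∈ M.E := hX (by simp)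
        have := (hmem x y z hx hy hz l).mp hl
        exact (h3 x y z hxy hxz hyz hx hy hz).mp ⟨l, this⟩ hI
    · rintro (h2 | ⟨hc, hl⟩)
      · have hcases : X = ∅ ∨ (∃ x, X = {x}) ∨ ∃ x y, x ≠ y ∧ X = {x, y} := by
          rcases h2.lt_or_eq with h | h
          · have h1 : X.encard ≤ 1 := by
              exact Order.le_of_lt_add_one ((by norm_num : (2 : ℕ∞) = 1 + 1) ▸ h)
            rcases Set.encard_le_one_iff_eq.mp h1 with h | h
            · exact Or.inl h
            · exact Or.inr (Or.inl h)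
          · exact Or.inr (Or.inr (Set.encard_eq_two.mp h))
        rcases hcases with rfl | ⟨x, rfl⟩ | ⟨x, y, -, rfl⟩
        · exact M.empty_indep
        · have hx : x ∈ M.E := hX (by simp)
          simpa using hs x hx x hx
        · exact hs x (hX (by simp)) y (hX (by simp))
      · obtain ⟨x, y, z, hxy, hxz, hyz, rfl⟩ := Set.encard_eq_three.mp hc
        have hx : x ∈ M.E := hX (by simp)
        have hy : y ∈ M.E := hX (by simp)
        have hz : z ∈ M.E := hX (by simp)
        by_contra hI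
        obtain ⟨l, hl'⟩ := (h3 x y z hxy hxz hyz hx hy hz).mpr hI
        exact hl l ((hmem x y z hx hy hz l).mpr hl')

/-- In a simple matroid whose lines have at most three points, the dependent triples form a partial
triple system. -/
theorem triple_unique {α : Type} (M : Matroid α)
    (hs : ∀ e ∈ M.E, ∀ f ∈ M.E, M.Indep {e, f})
    (hl : ∀ X ⊆ M.E, M.eRk X ≤ 2 → X.encard ≤ 3) {x y z w : α}
    (hx : x ∈ M.E) (hy : y ∈ M.E) (hz : z ∈ M.E) (hw : w ∈ M.E) (hxy : x ≠ y) (hxz : x ≠ z)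
    (hyz : y ≠ z) (hxw : x ≠ w) (hyw : y ≠ w) (h1 : ¬ M.Indep {x, y, z})
    (h2 : ¬ M.Indep {x, y, w}) : z = w := by
  by_contra hzw
  have hI := hs x hx y hy
  have c1 : z ∈ M.closure {x, y} := by
    rw [hI.mem_closure_iff_of_notMem (by simp [hxz.symm, hyz.symm])]
    rw [Matroid.dep_iff]
    refine ⟨fun h => h1 ?_, ?_⟩
    · have : ({x, y, z} : Set α) = insert z {x, y} := by ext t; simp; tauto
      rw [this]; exact h
    · intro t ht
      simp only [Set.mem_insert_iff, Set.mem_singleton_iff] at ht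
      rcases ht with rfl | rfl | rfl <;> assumption
  have c2 : w ∈ M.closure {x, y} := by
    rw [hI.mem_closure_iff_of_notMem (by simp [hxw.symm, hyw.symm])]
    rw [Matroid.dep_iff]
    refine ⟨fun h => h2 ?_, ?_⟩
    · have : ({x, y, w} : Set α) = insert w {x, y} := by ext t; simp; tauto
      rw [this]; exact h
    · intro t ht
      simp only [Set.mem_insert_iff, Set.mem_singleton_iff] at ht
      rcases ht with rfl | rfl | rfl <;> assumption
  have hXE : ({x, y, z, w} : Set α) ⊆ M.E := by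
    intro t ht
    simp only [Set.mem_insert_iff, Set.mem_singleton_iff] at ht
    rcases ht with rfl | rfl | rfl | rfl <;> assumption
  have hsub : ({x, y, z, w} : Set α) ⊆ M.closure {x, y} := by
    intro t ht
    simp only [Set.mem_insert_iff, Set.mem_singleton_iff] at ht
    rcases ht with rfl | rfl | rfl | rfl
    · exact M.mem_closure_of_mem (by simp) hI.subset_ground
    · exact M.mem_closure_of_mem (by simp) hI.subset_ground
    · exact c1
    · exact c2
  have hrk : M.eRk {x, y, z, w} ≤ 2 := by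
    calc M.eRk {x, y, z, w} ≤ M.eRk (M.closure {x, y}) := M.eRk_mono hsub
      _ = M.eRk {x, y} := M.eRk_closure_eq _
      _ ≤ ({x, y} : Set α).encard := M.eRk_le_encard _
      _ ≤ 2 := by rw [Set.encard_pair hxy]
  have h4 := hl _ hXE hrk
  have h5 : ({x, y, z, w} : Set α).encard = 4 := by
    rw [Set.encard_insert_of_notMem (by simp [hxy, hxz, hxw]),
      Set.encard_insert_of_notMem (by simp [hyz, hyw]), Set.encard_pair hzw]
    norm_num
  rw [h5] at h4
  exact absurd h4 (by norm_num)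

/-- **Welsh's question for matroids without lines of four or more points.** -/
theorem sparse (α : Type) (M : Matroid α) (hfin : M.Finite) (hrk : M.eRank = 3)
    (hs : ∀ e ∈ M.E, ∀ f ∈ M.E, M.Indep {e, f})
    (hl : ∀ X ⊆ M.E, M.eRk X ≤ 2 → X.encard ≤ 3) :
    ∃ (P L : Type) (_ : Membership P L) (_ : Finite P) (_ : Finite L)
      (_ : Configuration.ProjectivePlane P L) (φ : α → P),
      Set.InjOn φ M.E ∧
      ∀ X ⊆ M.E, (M.Indep X ↔
        (X.encard ≤ 2 ∨ (X.encard = 3 ∧ ∀ l : L, ¬ ∀ x ∈ X, φ x ∈ l))) := by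
  classical
  apply format M hrk hs
  have hE : Finite M.E := hfin.ground_finite
  let R : Finset M.E → Prop := fun s => s.card = 3 ∧ ¬ M.Indep (Subtype.val '' (s : Set M.E))
  have himg : ∀ i j k : M.E, Subtype.val '' (({i, j, k} : Finset M.E) : Set M.E) =
      ({(i : α), (j : α), (k : α)} : Set α) := by
    intro i j k
    ext t
    simp [Set.image_insert_eq]
  have hRR : ∀ s t, R s → R t → s ≠ t → (s ∩ t).card ≤ 1 := by
    intro s t hs' ht hst
    by_contra hcon
    push Not at hcon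
    obtain ⟨x, hx, y, hy, hxy⟩ := Finset.one_lt_card.mp hcon
    rw [Finset.mem_inter] at hx hy
    obtain ⟨z, hz⟩ : ∃ z, s = {x, y, z} ∧ x ≠ z ∧ y ≠ z := by
      have h2 : ((s.erase x).erase y).card = 1 := by
        rw [Finset.card_erase_of_mem (Finset.mem_erase.mpr ⟨hxy.symm, hy.1⟩),
          Finset.card_erase_of_mem hx.1, hs'.1]
      obtain ⟨z, hz⟩ := Finset.card_eq_one.mp h2
      have hz' : z ∈ (s.erase x).erase y := by rw [hz]; simp
      rw [Finset.mem_erase, Finset.mem_erase] at hz'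
      refine ⟨z, ?_, hz'.2.1.symm, hz'.1.symm⟩
      rw [← hz, Finset.insert_erase (Finset.mem_erase.mpr ⟨hxy.symm, hy.1⟩),
        Finset.insert_erase hx.1]
    obtain ⟨w, hw⟩ : ∃ z, t = {x, y, z} ∧ x ≠ z ∧ y ≠ z := by
      have h2 : ((t.erase x).erase y).card = 1 := by
        rw [Finset.card_erase_of_mem (Finset.mem_erase.mpr ⟨hxy.symm, hy.2⟩),
          Finset.card_erase_of_mem hx.2, ht.1]
      obtain ⟨z, hz⟩ := Finset.card_eq_one.mp h2
      have hz' : z ∈ (t.erase x).erase y := by rw [hz]; simp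
      rw [Finset.mem_erase, Finset.mem_erase] at hz'
      refine ⟨z, ?_, hz'.2.1.symm, hz'.1.symm⟩
      rw [← hz, Finset.insert_erase (Finset.mem_erase.mpr ⟨hxy.symm, hy.2⟩),
        Finset.insert_erase hx.2]
    have h1 := hs'.2
    have h2 := ht.2
    rw [hz.1, himg] at h1
    rw [hw.1, himg] at h2
    have hv : ∀ u v : M.E, u ≠ v → (u : α) ≠ (v : α) := fun u v h h' => h (Subtype.ext h')
    have := triple_unique M hs hl x.2 y.2 z.2 w.2 (hv _ _ hxy) (hv _ _ hz.2.1) (hv _ _ hz.2.2)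
      (hv _ _ hw.2.1) (hv _ _ hw.2.2) h1 h2
    apply hst
    rw [hz.1, hw.1, Subtype.ext this]
  have hne : ∃ i j k : M.E, i ≠ j ∧ i ≠ k ∧ j ≠ k ∧ ¬ R {i, j, k} := by
    obtain ⟨B, hB⟩ := M.exists_isBase
    have hc : B.encard = 3 := by rw [hB.encard_eq_eRank, hrk]
    obtain ⟨x, y, z, hxy, hxz, hyz, rfl⟩ := Set.encard_eq_three.mp hc
    have hsub := hB.subset_ground
    refine ⟨⟨x, hsub (by simp)⟩, ⟨y, hsub (by simp)⟩, ⟨z, hsub (by simp)⟩, ?_, ?_, ?_, ?_⟩
    · exact fun h => hxy (congrArg Subtype.val h)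
    · exact fun h => hxz (congrArg Subtype.val h)
    · exact fun h => hyz (congrArg Subtype.val h)
    · rintro ⟨-, h⟩
      rw [himg] at h
      exact h hB.indep
  obtain ⟨P, L, m, fP, fL, pl, f, hf, hfl⟩ := plane_of_pts R (fun s h => h.1) hRR hne
  refine ⟨P, L, m, fP, fL, pl, f, hf, fun i j k hij hik hjk => ?_⟩
  rw [hfl i j k hij hik hjk]
  have hc : ({i, j, k} : Finset M.E).card = 3 := Finset.card_eq_three.mpr
    ⟨i, j, k, hij, hik, hjk, rfl⟩
  simp only [R, hc, true_and, himg]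

end Pool.Agent.H9.Welsh
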