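import Pool.Agent.H9.Welsh.Space
import Pool.Agent.H9.Welsh.Sparse

/-!
# The lines of a simple rank three matroid
-/

set_option autoImplicit false

namespace Pool.Agent.H9.Welsh

variable {α : Type} (M : Matroid α)

/-- The rank two flats spanned by two points, as sets of elements of the ground set. -/
def LinesOf : Type := {s : Set M.E // ∃ i j : M.E, i ≠ j ∧ Subtype.val '' s =
  M.closure {(i : α), (j : α)}}

section

variable {M}

theorem pair_rank (hs : ∀ e ∈ M.E, ∀ f ∈ M.E, M.Indep {e, f}) {x y : α} (hx : x ∈ M.E)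
    (hy : y ∈ M.E) (hxy : x ≠ y) : M.eRk {x, y} = 2 := by
  rw [(hs x hx y hy).eRk_eq_encard, Set.encard_pair hxy]

theorem closure_pair_eq (hs : ∀ e ∈ M.E, ∀ f ∈ M.E, M.Indep {e, f}) {x y : α}
    (hxy : x ≠ y) {F : Set α} (hFr : M.eRk F ≤ 2) (hx : x ∈ F) (hy : y ∈ F) (hF : F ⊆ M.E) :
    M.closure {x, y} = M.closure F := by
  have hsub : ({x, y} : Set α) ⊆ F := by
    intro t ht
    rcases ht with rfl | ht
    · exact hx
    · rw [Set.mem_singleton_iff] at ht; rw [ht]; exact hy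
  have hfs : M.IsRkFinite ({x, y} : Set α) := Matroid.isRkFinite_of_finite _ (by simp)
  apply hfs.closure_eq_closure_of_subset_of_eRk_ge_eRk hsub
  rw [pair_rank hs (hF hx) (hF hy) hxy]
  exact hFr

theorem lines_eq (hs : ∀ e ∈ M.E, ∀ f ∈ M.E, M.Indep {e, f}) (l : LinesOf M)
    {x y : M.E} (hxy : x ≠ y) (hx : x ∈ l.1) (hy : y ∈ l.1) :
    Subtype.val '' l.1 = M.closure {(x : α), (y : α)} := by
  obtain ⟨i, j, hij, hl⟩ := l.2
  have hv : ∀ u v : M.E, u ≠ v → (u : α) ≠ (v : α) := fun u v h h' => h (Subtype.ext h')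
  have h1 : (x : α) ∈ M.closure {(i : α), (j : α)} := by rw [← hl]; exact ⟨x, hx, rfl⟩
  have h2 : (y : α) ∈ M.closure {(i : α), (j : α)} := by rw [← hl]; exact ⟨y, hy, rfl⟩
  rw [hl, closure_pair_eq hs (hv _ _ hxy) (F := M.closure {(i : α), (j : α)}) ?_ h1 h2
    (M.closure_subset_ground _), M.closure_closure]
  rw [M.eRk_closure_eq, pair_rank hs i.2 j.2 (hv _ _ hij)]

/-- Two points determine their line. -/
theorem lines_unique (hs : ∀ e ∈ M.E, ∀ f ∈ M.E, M.Indep {e, f})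
    (l l' : LinesOf M) {x y : M.E} (hxy : x ≠ y) (hx : x ∈ l.1) (hy : y ∈ l.1) (hx' : x ∈ l'.1)
    (hy' : y ∈ l'.1) : l = l' := by
  apply Subtype.ext
  apply Set.image_injective.mpr Subtype.val_injective
  rw [lines_eq hs l hxy hx hy, lines_eq hs l' hxy hx' hy']

/-- The line through two points. -/
theorem exists_line (hs : ∀ e ∈ M.E, ∀ f ∈ M.E, M.Indep {e, f}) {x y : M.E} (hxy : x ≠ y) :
    ∃ l : LinesOf M, x ∈ l.1 ∧ y ∈ l.1 := by
  refine ⟨⟨Subtype.val ⁻¹' (M.closure {(x : α), (y : α)}), x, y, hxy, ?_⟩, ?_, ?_⟩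
  · rw [Set.image_preimage_eq_iff, Subtype.range_coe]
    exact M.closure_subset_ground _
  · exact M.mem_closure_of_mem (by simp) (hs x x.2 y y.2).subset_ground
  · exact M.mem_closure_of_mem (by simp) (hs x x.2 y y.2).subset_ground

theorem line_rank (l : LinesOf M) : M.eRk (Subtype.val '' l.1) ≤ 2 := by
  obtain ⟨i, j, hij, hl⟩ := l.2
  rw [hl, M.eRk_closure_eq]
  refine (M.eRk_le_encard _).trans ?_
  rw [Set.encard_pair (fun h => hij (Subtype.ext h))]

/-- A set of rank at most two with two distinct points is contained in a line. -/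
theorem exists_line_of_rank (hs : ∀ e ∈ M.E, ∀ f ∈ M.E, M.Indep {e, f})
    {X : Set α} (hX : X ⊆ M.E) (hr : M.eRk X ≤ 2) {x y : M.E} (hxy : x ≠ y) (hx : (x : α) ∈ X)
    (hy : (y : α) ∈ X) : ∃ l : LinesOf M, ∀ z : M.E, (z : α) ∈ X → z ∈ l.1 := by
  have hv : ∀ u v : M.E, u ≠ v → (u : α) ≠ (v : α) := fun u v h h' => h (Subtype.ext h')
  obtain ⟨l, hlx, hly⟩ := exists_line hs hxy
  refine ⟨l, fun z hz => ?_⟩
  have h1 : (z : α) ∈ M.closure X := M.mem_closure_of_mem hz hX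
  rw [← closure_pair_eq hs (hv _ _ hxy) hr hx hy hX, ← lines_eq hs l hxy hlx hly] at h1
  obtain ⟨w, hw, hwz⟩ := h1
  rwa [Subtype.ext hwz] at hw

/-- Collinear triples. -/
theorem lines_three (hs : ∀ e ∈ M.E, ∀ f ∈ M.E, M.Indep {e, f}) {i j k : M.E}
    (hij : i ≠ j) (hik : i ≠ k) (hjk : j ≠ k) :
    (∃ l : LinesOf M, i ∈ l.1 ∧ j ∈ l.1 ∧ k ∈ l.1) ↔ ¬ M.Indep {(i : α), (j : α), (k : α)} := by
  have hv : ∀ u v : M.E, u ≠ v → (u : α) ≠ (v : α) := fun u v h h' => h (Subtype.ext h')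
  have hc : ({(i : α), (j : α), (k : α)} : Set α).encard = 3 :=
    Set.encard_eq_three.mpr ⟨_, _, _, hv _ _ hij, hv _ _ hik, hv _ _ hjk, rfl⟩
  have hE : ({(i : α), (j : α), (k : α)} : Set α) ⊆ M.E := by
    rintro t (rfl | rfl | rfl)
    · exact i.2
    · exact j.2
    · exact k.2
  constructor
  · rintro ⟨l, hi, hj, hk⟩ hI
    have h1 : ({(i : α), (j : α), (k : α)} : Set α) ⊆ Subtype.val '' l.1 := by
      rintro t (rfl | rfl | rfl)
      · exact ⟨i, hi, rfl⟩
      · exact ⟨j, hj, rfl⟩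
      · exact ⟨k, hk, rfl⟩
    have h2 := hI.encard_le_eRk_of_subset h1
    rw [hc] at h2
    exact absurd (h2.trans (line_rank l)) (by norm_num)
  · intro hI
    have hr : M.eRk {(i : α), (j : α), (k : α)} ≤ 2 := by
      by_contra hcon
      push Not at hcon
      apply hI
      have h3 : ({(i : α), (j : α), (k : α)} : Set α).Finite := by
        exact Set.toFinite _
      refine (Matroid.isRkFinite_of_finite _ h3).indep_of_encard_le_eRk ?_
      rw [hc]
      have := Order.add_one_le_of_lt hcon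
      exact (by norm_num : (2 : ℕ∞) + 1 = 3) ▸ this
    obtain ⟨l, hl⟩ := exists_line_of_rank hs hE hr hij (by simp) (by simp)
    exact ⟨l, hl i (by simp), hl j (by simp), hl k (by simp)⟩

theorem lines_nontrivial (hrk : M.eRank = 3)
    (hs : ∀ e ∈ M.E, ∀ f ∈ M.E, M.Indep {e, f}) : Nontrivial (LinesOf M) := by
  obtain ⟨B, hB⟩ := M.exists_isBase
  have hc : B.encard = 3 := by rw [hB.encard_eq_eRank, hrk]
  obtain ⟨x, y, z, hxy, hxz, hyz, rfl⟩ := Set.encard_eq_three.mp hc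
  have hsub := hB.subset_ground
  let i : M.E := ⟨x, hsub (by simp)⟩
  let j : M.E := ⟨y, hsub (by simp)⟩
  let k : M.E := ⟨z, hsub (by simp)⟩
  have hij : i ≠ j := fun h => hxy (congrArg Subtype.val h)
  have hik : i ≠ k := fun h => hxz (congrArg Subtype.val h)
  have hjk : j ≠ k := fun h => hyz (congrArg Subtype.val h)
  obtain ⟨l, hl1, hl2⟩ := exists_line hs hij
  obtain ⟨l', hl1', hl2'⟩ := exists_line hs hik
  refine ⟨l, l', ?_⟩
  rintro rfl
  exact (lines_three hs hij hik hjk).mp ⟨l, hl1, hl2, hl2'⟩ hB.indep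

end

/-- **Reduction of the question to the set of lines.** -/
theorem of_lines (hfin : M.Finite) (hrk : M.eRank = 3) (hs : ∀ e ∈ M.E, ∀ f ∈ M.E, M.Indep {e, f})
    (h : ∀ pts : LinesOf M → Finset M.E, (∀ l, (pts l : Set M.E) = l.1) →
      ∃ (P L : Type) (_ : Membership P L) (_ : Finite P) (_ : Finite L)
        (_ : Configuration.ProjectivePlane P L) (f : M.E → P), Function.Injective f ∧
        ∀ i j k, i ≠ j → i ≠ k → j ≠ k →
          ((∃ l : L, f i ∈ l ∧ f j ∈ l ∧ f k ∈ l) ↔ ∃ l, i ∈ pts l ∧ j ∈ pts l ∧ k ∈ pts l)) :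
    ∃ (P L : Type) (_ : Membership P L) (_ : Finite P) (_ : Finite L)
      (_ : Configuration.ProjectivePlane P L) (φ : α → P),
      Set.InjOn φ M.E ∧
      ∀ X ⊆ M.E, (M.Indep X ↔
        (X.encard ≤ 2 ∨ (X.encard = 3 ∧ ∀ l : L, ¬ ∀ x ∈ X, φ x ∈ l))) := by
  classical
  apply format M hrk hs
  have hE : Finite M.E := hfin.ground_finite
  have hEf : Fintype M.E := Fintype.ofFinite _
  obtain ⟨P, L, m, fP, fL, pl, f, hf, hfl⟩ := h (fun l => l.1.toFinset) (fun l => by simp)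
  refine ⟨P, L, m, fP, fL, pl, f, hf, fun i j k hij hik hjk => ?_⟩
  rw [hfl i j k hij hik hjk, ← lines_three hs hij hik hjk]
  simp

end Pool.Agent.H9.Welsh
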