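import Pool.Agent.H9.Welsh.Veronese
import Pool.Agent.H9.Welsh.Lines

/-!
# Rank three matroids with a rational core
-/

set_option autoImplicit false

namespace Pool.Agent.H9.Welsh

theorem hasModel_empty {E Λ : Type} [DecidableEq E] (pts : Λ → Finset E) : HasModel pts ∅ := by
  refine ⟨ℚ, inferInstance, inferInstance, inferInstance, fun _ => 0, ?_, ?_⟩
  · intro l
    exact (finrank_span_image_le _ _).trans (by simp)
  · intro F hF _ _
    rw [Finset.subset_empty.mp hF, Finset.coe_empty]
    exact linearIndepOn_empty _ _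

/-- The Veronese model of the core. -/
theorem hasModel_core {E Λ : Type} [DecidableEq E] (pts : Λ → Finset E)
    (hint : ∀ l l', l ≠ l' → (pts l ∩ pts l').card ≤ 1) (B : Finset E) (f : E → Fin 3 → ℚ)
    (hf : ∀ x ∈ B, ∀ y ∈ B, x ≠ y → LinearIndependent ℚ ![f x, f y])
    (hlong : ∀ x ∈ B, ∀ y ∈ B, ∀ z ∈ B, ∀ w ∈ B, x ≠ y → x ≠ z → x ≠ w → y ≠ z → y ≠ w → z ≠ w →
      ((f z ∈ Submodule.span ℚ {f x, f y} ∧ f w ∈ Submodule.span ℚ {f x, f y}) ↔
        ∃ l, x ∈ pts l ∧ y ∈ pts l ∧ z ∈ pts l ∧ w ∈ pts l)) :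
    HasModel pts B := by
  classical
  by_cases hB : B.card ≤ 1
  · rcases Nat.le_one_iff_eq_zero_or_eq_one.mp hB with h | h
    · rw [Finset.card_eq_zero.mp h]
      exact hasModel_empty pts
    · obtain ⟨x, rfl⟩ := Finset.card_eq_one.mp h
      have h5 := (hasModel_empty pts).step hint (z := x) (by simp) (by
        intro l l' _ _ hc
        simp at hc)
      simpa using h5
  push Not at hB
  have hsp : ∀ x ∈ B, ∀ y ∈ B, x ≠ y → f x ∉ Submodule.span ℚ {f y} := by
    intro x hx y hy hxy h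
    obtain ⟨c, hc⟩ := Submodule.mem_span_singleton.mp h
    have h5 := hf x hx y hy hxy
    rw [LinearIndependent.pair_iff] at h5
    have := (h5 1 (-c) (by rw [← hc]; module)).1
    exact one_ne_zero this
  have h0 : ∀ x ∈ B, f x ≠ 0 := by
    intro x hx h
    obtain ⟨y, hy, hyx⟩ := Finset.exists_mem_ne hB x
    exact hsp x hx y hy hyx.symm (by rw [h]; exact Submodule.zero_mem _)
  refine ⟨Fin 3 → Fin 3 → ℚ, inferInstance, inferInstance, inferInstance, fun x => ver (f x),
    ?_, ?_⟩
  · intro l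
    by_cases hc : (pts l ∩ B).card ≤ 3
    · exact (finrank_span_image_le _ _).trans hc
    push Not at hc
    obtain ⟨x, hx, y, hy, hxy⟩ := Finset.one_lt_card.mp (show 1 < (pts l ∩ B).card by omega)
    rw [Finset.mem_inter] at hx hy
    refine ver_line f (f x) (f y) _ ?_
    intro z hz
    rw [Finset.mem_coe, Finset.mem_inter] at hz
    by_cases hzx : z = x
    · rw [hzx]; exact Submodule.subset_span (by simp)
    by_cases hzy : z = y
    · rw [hzy]; exact Submodule.subset_span (by simp)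
    obtain ⟨w, hw, hw2⟩ : ∃ w ∈ pts l ∩ B, w ∉ ({x, y, z} : Finset E) := by
      by_contra hcon
      push Not at hcon
      have h5 : pts l ∩ B ⊆ {x, y, z} := hcon
      have := Finset.card_le_card h5
      have := Finset.card_le_three (a := x) (b := y) (c := z)
      omega
    rw [Finset.mem_inter] at hw
    simp only [Finset.mem_insert, Finset.mem_singleton, not_or] at hw2
    exact ((hlong x hx.2 y hy.2 z hz.2 w hw.2 hxy (Ne.symm hzx) (Ne.symm hw2.1) (Ne.symm hzy)
      (Ne.symm hw2.2.1) (Ne.symm hw2.2.2)).mpr ⟨l, hx.1, hy.1, hz.1, hw.1⟩).1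
  · intro F hF hF5 hF3
    apply ver_indep f F hF5 (fun x hx => h0 x (hF hx))
      (fun x hx y hy hxy => hsp x (hF hx) y (hF hy) hxy)
    intro x hx y hy z hz w hw hxy hxz hxw hyz hyw hzw hcop
    obtain ⟨l, h1, h2, h3, h4⟩ := (hlong x (hF hx) y (hF hy) z (hF hz) w (hF hw) hxy hxz hxw hyz
      hyw hzw).mp hcop
    have h5 : ({x, y, z, w} : Finset E) ⊆ F ∩ pts l := by
      intro v hv
      simp only [Finset.mem_insert, Finset.mem_singleton] at hv
      rw [Finset.mem_inter]
      rcases hv with rfl | rfl | rfl | rfl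
      · exact ⟨hx, h1⟩
      · exact ⟨hy, h2⟩
      · exact ⟨hz, h3⟩
      · exact ⟨hw, h4⟩
    have h6 := Finset.card_le_card h5
    have h7 : ({x, y, z, w} : Finset E).card = 4 := by
      rw [Finset.card_insert_of_notMem (by simp [hxy, hxz, hxw]),
        Finset.card_insert_of_notMem (by simp [hyz, hyw]), Finset.card_pair hzw]
    have := hF3 l
    omega

theorem finrank_pair {u v : Fin 3 → ℚ} (h : LinearIndependent ℚ ![u, v]) :
    Module.finrank ℚ (Submodule.span ℚ {u, v}) = 2 := by
  have h1 := finrank_span_eq_card h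
  rw [Matrix.range_cons, Matrix.range_cons, Matrix.range_empty, Set.union_empty,
    Set.singleton_union] at h1
  simpa using h1

/-- **Matroids with a rational core.** -/
theorem core_extend (α : Type) (M : Matroid α) (hfin : M.Finite) (hrk : M.eRank = 3)
    (hs : ∀ e ∈ M.E, ∀ f ∈ M.E, M.Indep {e, f}) (B : Set α) (hBE : B ⊆ M.E)
    (f : α → Fin 3 → ℚ)
    (h1 : ∀ x ∈ B, ∀ y ∈ B, x ≠ y → LinearIndependent ℚ ![f x, f y])
    (h2 : ∀ X ⊆ B, 4 ≤ X.encard →
      (M.eRk X ≤ 2 ↔ Module.finrank ℚ (Submodule.span ℚ (f '' X)) ≤ 2))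
    (t : α → ℕ) (ht : Set.InjOn t (M.E \ B))
    (hext : ∀ z ∈ M.E \ B, ∀ X ⊆ M.E, ∀ Y ⊆ M.E, (∀ x ∈ X ∪ Y, x ∈ B ∨ t x < t z) →
      3 ≤ X.encard → 3 ≤ Y.encard → M.eRk (insert z X) ≤ 2 → M.eRk (insert z Y) ≤ 2 →
      M.eRk (X ∪ Y) ≤ 2) :
    ∃ (P L : Type) (_ : Membership P L) (_ : Finite P) (_ : Finite L)
      (_ : Configuration.ProjectivePlane P L) (φ : α → P),
      Set.InjOn φ M.E ∧
      ∀ X ⊆ M.E, (M.Indep X ↔
        (X.encard ≤ 2 ∨ (X.encard = 3 ∧ ∀ l : L, ¬ ∀ x ∈ X, φ x ∈ l))) := by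
  classical
  apply of_lines M hfin hrk hs
  intro pts hpts
  have hE : Finite M.E := hfin.ground_finite
  have hEf : Fintype M.E := Fintype.ofFinite _
  have hΛ : Finite (LinesOf M) := by unfold LinesOf; infer_instance
  have hnt : Nontrivial (LinesOf M) := lines_nontrivial hrk hs
  have hmem : ∀ l x, x ∈ pts l ↔ x ∈ l.1 := by
    intro l x; rw [← Finset.mem_coe, hpts l]
  have hv : ∀ u v : M.E, u ≠ v → (u : α) ≠ (v : α) := fun u v h h' => h (Subtype.ext h')
  have hint : ∀ l l', l ≠ l' → (pts l ∩ pts l').card ≤ 1 := by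
    intro l l' hll
    by_contra hcon
    push Not at hcon
    obtain ⟨x, hx, y, hy, hxy⟩ := Finset.one_lt_card.mp hcon
    rw [Finset.mem_inter, hmem, hmem] at hx hy
    exact hll (lines_unique hs l l' hxy hx.1 hy.1 hx.2 hy.2)
  let B' : Finset M.E := Finset.univ.filter (fun x => (x : α) ∈ B)
  have hB' : ∀ x : M.E, x ∈ B' ↔ (x : α) ∈ B := by intro x; simp [B']
  have hcore : HasModel pts B' := by
    apply hasModel_core pts hint B' (fun x : M.E => f x)
    · intro x hx y hy hxy
      exact h1 x ((hB' x).mp hx) y ((hB' y).mp hy) (hv x y hxy)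
    · intro x hx y hy z hz w hw hxy hxz hxw hyz hyw hzw
      rw [hB'] at hx hy hz hw
      have hXB : ({(x : α), (y : α), (z : α), (w : α)} : Set α) ⊆ B := by
        rintro v (rfl | rfl | rfl | rfl) <;> assumption
      have hX4 : ({(x : α), (y : α), (z : α), (w : α)} : Set α).encard = 4 := by
        rw [Set.encard_insert_of_notMem (by simp [hv _ _ hxy, hv _ _ hxz, hv _ _ hxw]),
          Set.encard_insert_of_notMem (by simp [hv _ _ hyz, hv _ _ hyw]),
          Set.encard_pair (hv _ _ hzw)]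
        norm_num
      have h5 := h2 _ hXB hX4.ge
      have h6 := finrank_pair (h1 x hx y hy (hv _ _ hxy))
      constructor
      · rintro ⟨hfz, hfw⟩
        have h7 : M.eRk {(x : α), (y : α), (z : α), (w : α)} ≤ 2 := by
          rw [h5, ← h6]
          apply Submodule.finrank_mono
          refine Submodule.span_le.mpr ?_
          rintro _ ⟨v, (rfl | rfl | rfl | rfl), rfl⟩
          · exact Submodule.subset_span (by simp)
          · exact Submodule.subset_span (by simp)
          · exact hfz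
          · exact hfw
        obtain ⟨l, hl⟩ := exists_line_of_rank hs (hXB.trans hBE) h7 hxy (by simp) (by simp)
        exact ⟨l, (hmem l x).mpr (hl x (by simp)), (hmem l y).mpr (hl y (by simp)),
          (hmem l z).mpr (hl z (by simp)), (hmem l w).mpr (hl w (by simp))⟩
      · rintro ⟨l, hlx, hly, hlz, hlw⟩
        have h7 : M.eRk {(x : α), (y : α), (z : α), (w : α)} ≤ 2 := by
          refine (M.eRk_mono ?_).trans (line_rank l)
          rintro v (rfl | rfl | rfl | rfl)
          · exact ⟨x, (hmem l x).mp hlx, rfl⟩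
          · exact ⟨y, (hmem l y).mp hly, rfl⟩
          · exact ⟨z, (hmem l z).mp hlz, rfl⟩
          · exact ⟨w, (hmem l w).mp hlw, rfl⟩
        have h8 := h5.mp h7
        have h9 : Submodule.span ℚ {f x, f y} =
            Submodule.span ℚ (f '' {(x : α), (y : α), (z : α), (w : α)}) := by
          apply Submodule.eq_of_le_of_finrank_le
          · apply Submodule.span_mono
            rintro _ (rfl | rfl)
            · exact ⟨x, by simp, rfl⟩
            · exact ⟨y, by simp, rfl⟩
          · rw [h6]; exact h8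
        change f z ∈ Submodule.span ℚ {f x, f y} ∧ f w ∈ Submodule.span ℚ {f x, f y}
        rw [h9]
        exact ⟨Submodule.subset_span ⟨z, by simp, rfl⟩, Submodule.subset_span ⟨w, by simp, rfl⟩⟩
  have hall : HasModel pts Finset.univ := by
    apply hcore.extend hint (fun x : M.E => t x)
    · intro x y hx hy hxy
      rw [hB'] at hx hy
      exact Subtype.ext (ht ⟨x.2, hx⟩ ⟨y.2, hy⟩ hxy)
    · intro z hz l l' hzl hzl' hc hc'
      rw [hB'] at hz
      set U := Finset.univ.filter (fun x : M.E => x ∈ B' ∨ t x < t z) with hU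
      have hsub : ∀ m : LinesOf M, z ∈ pts m →
          M.eRk (insert (z : α) (Subtype.val '' ((pts m ∩ U : Finset M.E) : Set M.E))) ≤ 2 := by
        intro m hzm
        refine (M.eRk_mono ?_).trans (line_rank m)
        rintro v (rfl | ⟨x, hx, rfl⟩)
        · exact ⟨z, (hmem m z).mp hzm, rfl⟩
        · exact ⟨x, (hmem m x).mp (Finset.mem_inter.mp hx).1, rfl⟩
      have henc : ∀ m : LinesOf M, 3 ≤ (pts m ∩ U).card →
          3 ≤ (Subtype.val '' ((pts m ∩ U : Finset M.E) : Set M.E) : Set α).encard := by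
        intro m hm
        rw [Function.Injective.encard_image Subtype.val_injective,
          Set.encard_coe_eq_coe_finsetCard]
        exact_mod_cast hm
      have hgr : ∀ m : LinesOf M,
          (Subtype.val '' ((pts m ∩ U : Finset M.E) : Set M.E) : Set α) ⊆ M.E := by
        rintro m _ ⟨x, -, rfl⟩
        exact x.2
      have h5 := hext z ⟨z.2, hz⟩ _ (hgr l) _ (hgr l') (by
        rintro v (⟨x, hx, rfl⟩ | ⟨x, hx, rfl⟩)
        · have := (Finset.mem_filter.mp (Finset.mem_inter.mp hx).2).2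
          rwa [hB'] at this
        · have := (Finset.mem_filter.mp (Finset.mem_inter.mp hx).2).2
          rwa [hB'] at this) (henc l hc) (henc l' hc') (hsub l hzl) (hsub l' hzl')
      obtain ⟨x, hx, y, hy, hxy⟩ := Finset.one_lt_card.mp (show 1 < (pts l ∩ U).card by omega)
      obtain ⟨x', hx', y', hy', hxy'⟩ :=
        Finset.one_lt_card.mp (show 1 < (pts l' ∩ U).card by omega)
      obtain ⟨m, hm⟩ := exists_line_of_rank hs (Set.union_subset (hgr l) (hgr l')) h5 hxy
        (Or.inl ⟨x, hx, rfl⟩) (Or.inl ⟨y, hy, rfl⟩)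
      have e1 : l = m := lines_unique hs l m hxy ((hmem l x).mp (Finset.mem_inter.mp hx).1)
        ((hmem l y).mp (Finset.mem_inter.mp hy).1) (hm x (Or.inl ⟨x, hx, rfl⟩))
        (hm y (Or.inl ⟨y, hy, rfl⟩))
      have e2 : l' = m := lines_unique hs l' m hxy' ((hmem l' x').mp (Finset.mem_inter.mp hx').1)
        ((hmem l' y').mp (Finset.mem_inter.mp hy').1) (hm x' (Or.inr ⟨x', hx', rfl⟩))
        (hm y' (Or.inr ⟨y', hy', rfl⟩))
      exact e1.trans e2.symm
  obtain ⟨V, _, _, _, g, hg1, hg2⟩ := hall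
  refine plane_of_five g pts ?_ ?_ hint ?_ ?_
  · intro l
    obtain ⟨i, j, hij, hl⟩ := l.2
    have hcl : ∀ z ∈ ({(i : α), (j : α)} : Set α), z ∈ M.closure {(i : α), (j : α)} := fun z hz =>
      M.mem_closure_of_mem hz (hs i i.2 j j.2).subset_ground
    have hi := hcl i (by simp)
    have hj := hcl j (by simp)
    rw [← hl] at hi hj
    obtain ⟨x, hx, hxi⟩ := hi
    obtain ⟨y, hy, hyj⟩ := hj
    refine Finset.one_lt_card.mpr ⟨x, (hmem l x).mpr hx, y, (hmem l y).mpr hy, ?_⟩
    rintro rfl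
    exact hij (Subtype.ext (hxi.symm.trans hyj))
  · intro i j hij
    obtain ⟨l, h⟩ := exists_line hs hij
    exact ⟨l, (hmem l i).mpr h.1, (hmem l j).mpr h.2⟩
  · intro l
    have := hg1 l
    rwa [Finset.inter_univ] at this
  · intro F hF5 hF3
    exact hg2 F (Finset.subset_univ _) hF5 hF3

end Pool.Agent.H9.Welsh
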