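import Pool.Agent.H9.Welsh.Space

/-!
# Adding points one at a time to a plane model with independent quintuples
-/

set_option autoImplicit false

namespace Pool.Agent.H9.Welsh

variable {E Λ : Type} [DecidableEq E]

/-- A model over `ℚ` of the points `S`, in which blocks span dimension at most three and at most five
points, no four in a block, are independent. -/
def HasModel (pts : Λ → Finset E) (S : Finset E) : Prop :=
  ∃ (V : Type) (_ : AddCommGroup V) (_ : Module ℚ V) (_ : FiniteDimensional ℚ V) (g : E → V),
    (∀ l, Module.finrank ℚ (Submodule.span ℚ (g '' ((pts l ∩ S : Finset E) : Set E))) ≤ 3) ∧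
    ∀ F : Finset E, F ⊆ S → F.card ≤ 5 → (∀ l, (F ∩ pts l).card ≤ 3) →
      LinearIndepOn ℚ g (F : Set E)

theorem image_update {V : Type} (g : E → V) (z : E) (v : V) (A : Finset E) (hz : z ∉ A) :
    Function.update g z v '' (A : Set E) = g '' (A : Set E) := by
  apply Set.image_congr
  intro x hx
  rw [Function.update_of_ne]
  rintro rfl
  exact hz hx

theorem indep_update {V : Type} [AddCommGroup V] [Module ℚ V] (g : E → V) (z : E) (v : V)
    (A : Finset E) (hz : z ∉ A) (h : LinearIndepOn ℚ g (A : Set E)) :
    LinearIndepOn ℚ (Function.update g z v) (A : Set E) := by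
  apply h.congr
  intro x hx
  rw [Function.update_of_ne]
  rintro rfl
  exact hz hx

theorem indep_insert {V : Type} [AddCommGroup V] [Module ℚ V] (g : E → V) (z : E)
    (A : Finset E) (hz : z ∈ A) (h : LinearIndepOn ℚ g ((A.erase z : Finset E) : Set E))
    (h2 : g z ∉ Submodule.span ℚ (g '' ((A.erase z : Finset E) : Set E))) :
    LinearIndepOn ℚ g (A : Set E) := by
  rw [← Finset.insert_erase hz, Finset.coe_insert]
  exact h.insert h2

/-- Adding a point which lies on at most one block with at least three earlier points. -/
theorem HasModel.step {pts : Λ → Finset E} (hint : ∀ l l', l ≠ l' → (pts l ∩ pts l').card ≤ 1)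
    {S : Finset E} (hS : HasModel pts S) {z : E} (hz : z ∉ S)
    (hext : ∀ l l', z ∈ pts l → z ∈ pts l' → 3 ≤ (pts l ∩ S).card → 3 ≤ (pts l' ∩ S).card → l = l') :
    HasModel pts (insert z S) := by
  classical
  obtain ⟨V, _, _, _, g, hg1, hg2⟩ := hS
  have hnot : ∀ l, z ∉ pts l → pts l ∩ insert z S = pts l ∩ S := by
    intro l hl
    rw [Finset.inter_insert_of_notMem hl]
  have hcard3 : ∀ l, z ∈ pts l → (pts l ∩ S).card < 3 → (pts l ∩ insert z S).card ≤ 3 := by
    intro l hl hc
    rw [Finset.inter_insert_of_mem hl]
    exact (Finset.card_insert_le _ _).trans (by omega)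
  have hsubS : ∀ F : Finset E, F ⊆ insert z S → F.erase z ⊆ S := by
    intro F hF x hx
    obtain ⟨h1, h2⟩ := Finset.mem_erase.mp hx
    exact (Finset.mem_insert.mp (hF h2)).resolve_left h1
  have herase : ∀ F : Finset E, ∀ l, (F.erase z ∩ pts l).card ≤ (F ∩ pts l).card := fun F l =>
    Finset.card_le_card (Finset.inter_subset_inter_right (Finset.erase_subset _ _))
  by_cases hcase : ∃ l0, z ∈ pts l0 ∧ 3 ≤ (pts l0 ∩ S).card
  · obtain ⟨l0, hl0, hc0⟩ := hcase
    set X := Submodule.span ℚ (g '' ((pts l0 ∩ S : Finset E) : Set E)) with hX
    obtain ⟨T, hT, hTc⟩ := Finset.exists_subset_card_eq hc0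
    -- the sets to avoid
    let I := {F : Finset E // F ⊆ S ∧ F.card ≤ 4 ∧ (∀ l, (F ∩ pts l).card ≤ 3) ∧
      (F ∩ pts l0).card ≤ 2}
    have hIfin : Finite I := by
      have : Finite {F : Finset E // F ⊆ S} := by
        have h5 : {F : Finset E | F ⊆ S} = (S.powerset : Set (Finset E)) := by ext; simp
        have h6 : {F : Finset E | F ⊆ S}.Finite := by rw [h5]; exact S.powerset.finite_toSet
        exact h6.to_subtype
      exact Finite.of_injective (fun F : I => (⟨F.1, F.2.1⟩ : {F : Finset E // F ⊆ S}))
        (fun a b h => Subtype.ext (by simpa using h))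
    have hkey : ∀ F : I, ∃ e ∈ T, g e ∉ Submodule.span ℚ (g '' (F.1 : Set E)) := by
      rintro ⟨F, hFS, hF4, hF3, hF2⟩
      by_contra hcon
      push Not at hcon
      simp only at hcon
      have hlong : ∀ e ∈ T, e ∉ F → ∃ l, e ∈ pts l ∧ 3 ≤ (F ∩ pts l).card := by
        intro e he heF
        by_contra hno
        push Not at hno
        have hins : LinearIndepOn ℚ g ((insert e F : Finset E) : Set E) := by
          apply hg2
          · intro x hx
            rcases Finset.mem_insert.mp hx with rfl | hx
            · exact (Finset.mem_inter.mp (hT he)).2
            · exact hFS hx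
          · exact (Finset.card_insert_le _ _).trans (by omega)
          · intro l
            by_cases hel : e ∈ pts l
            · rw [Finset.insert_inter_of_mem hel]
              have := hno l hel
              exact (Finset.card_insert_le _ _).trans (by omega)
            · rw [Finset.insert_inter_of_notMem hel]
              exact hF3 l
        rw [Finset.coe_insert, linearIndepOn_insert (by simpa using heF)] at hins
        exact hins.2 (hcon e he)
      -- such a block is not `l0` and misses `T ∩ F`
      have hT0 : ∀ x ∈ T, x ∈ pts l0 := fun x hx => (Finset.mem_inter.mp (hT hx)).1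
      have hTF : (T ∩ F).card ≤ 2 := by
        refine (Finset.card_le_card ?_).trans hF2
        intro x hx
        rw [Finset.mem_inter] at hx ⊢
        exact ⟨hx.2, hT0 x hx.1⟩
      have hsplit : (T \ F).card + (T ∩ F).card = T.card := Finset.card_sdiff_add_card_inter T F
      obtain ⟨e, he⟩ : (T \ F).Nonempty := by
        rw [← Finset.card_pos]; omega
      rw [Finset.mem_sdiff] at he
      obtain ⟨l, hel, hl3⟩ := hlong e he.1 he.2
      have hll0 : l ≠ l0 := by
        rintro rfl
        omega
      have honly : ∀ x ∈ T, x ∈ pts l → x = e := by
        intro x hx hxl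
        by_contra hne
        have h5 : ({x, e} : Finset E) ⊆ pts l ∩ pts l0 := by
          intro w hw
          rw [Finset.mem_insert, Finset.mem_singleton] at hw
          rw [Finset.mem_inter]
          rcases hw with rfl | rfl
          · exact ⟨hxl, hT0 _ hx⟩
          · exact ⟨hel, hT0 _ he.1⟩
        have h6 := Finset.card_le_card h5
        rw [Finset.card_pair hne] at h6
        have := hint l l0 hll0
        omega
      have hTFle : (T ∩ F).card ≤ 1 := by
        have h5 : Disjoint (T ∩ F) (F ∩ pts l) := by
          rw [Finset.disjoint_left]
          intro x hx hx'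
          rw [Finset.mem_inter] at hx hx'
          have := honly x hx.1 hx'.2
          rw [this] at hx
          exact he.2 hx.2
        have h6 : ((T ∩ F) ∪ (F ∩ pts l)).card ≤ F.card := Finset.card_le_card
          (Finset.union_subset Finset.inter_subset_right Finset.inter_subset_left)
        rw [Finset.card_union_of_disjoint h5] at h6
        omega
      obtain ⟨e', he', hne'⟩ : ∃ e' ∈ T \ F, e' ≠ e := by
        apply Finset.exists_mem_ne
        omega
      rw [Finset.mem_sdiff] at he'
      obtain ⟨l', hel', hl3'⟩ := hlong e' he'.1 he'.2
      have hll' : l = l' := by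
        by_contra hne
        have h5 := hint l l' hne
        have h6 : (F ∩ pts l ∪ F ∩ pts l').card ≤ F.card := Finset.card_le_card
          (Finset.union_subset Finset.inter_subset_left Finset.inter_subset_left)
        have h7 := Finset.card_union_add_card_inter (F ∩ pts l) (F ∩ pts l')
        have h8 : ((F ∩ pts l) ∩ (F ∩ pts l')).card ≤ (pts l ∩ pts l').card := by
          apply Finset.card_le_card
          intro x hx
          simp only [Finset.mem_inter] at hx ⊢
          exact ⟨hx.1.2, hx.2.2⟩
        omega
      exact hne' (honly e' he'.1 (by rw [hll']; exact hel'))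
    -- a generic vector of `X`
    have hex : ∃ v ∈ X, ∀ F : I, v ∉ Submodule.span ℚ (g '' (F.1 : Set E)) := by
      by_contra hcon
      push Not at hcon
      have hcov : ⋃ F : I, ((Submodule.comap X.subtype (Submodule.span ℚ (g '' (F.1 : Set E))) :
          Submodule ℚ X) : Set X) = Set.univ := by
        rw [Set.eq_univ_iff_forall]
        rintro ⟨v, hv⟩
        obtain ⟨F, hF⟩ := hcon v hv
        exact Set.mem_iUnion.mpr ⟨F, hF⟩
      obtain ⟨F, hF⟩ := Subspace.exists_eq_top_of_iUnion_eq_univ hcov
      obtain ⟨e, he, heF⟩ := hkey F
      apply heF
      have h5 : (⟨g e, Submodule.subset_span ⟨e, hT he, rfl⟩⟩ : X) ∈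
          Submodule.comap X.subtype (Submodule.span ℚ (g '' (F.1 : Set E))) := by
        rw [hF]; trivial
      exact h5
    obtain ⟨v, hvX, hv⟩ := hex
    refine ⟨V, inferInstance, inferInstance, inferInstance, Function.update g z v, ?_, ?_⟩
    · intro l
      by_cases hzl : z ∈ pts l
      · by_cases hll : l = l0
        · subst hll
          refine le_trans (Submodule.finrank_mono (?_ : _ ≤ X)) (hg1 l)
          refine Submodule.span_le.mpr ?_
          rintro _ ⟨x, hx, rfl⟩
          by_cases hxz : x = z
          · subst hxz
            rw [Function.update_self]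
            exact hvX
          · rw [Function.update_of_ne hxz]
            rw [Finset.mem_coe, Finset.mem_inter, Finset.mem_insert] at hx
            exact Submodule.subset_span ⟨x, by
              rw [Finset.mem_coe, Finset.mem_inter]
              exact ⟨hx.1, hx.2.resolve_left hxz⟩, rfl⟩
        · have h5 : (pts l ∩ S).card < 3 := by
            by_contra hcon
            push Not at hcon
            exact hll (hext l l0 hzl hl0 hcon hc0)
          exact (finrank_span_image_le _ _).trans (hcard3 l hzl h5)
      · rw [hnot l hzl, image_update]
        · exact hg1 l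
        · intro h
          exact hz (Finset.mem_inter.mp h).2
    · intro F hF hF5 hF3
      by_cases hzF : z ∈ F
      · have hzE : z ∉ F.erase z := Finset.notMem_erase z F
        have hc4 : (F.erase z).card ≤ 4 := by
          rw [Finset.card_erase_of_mem hzF]; omega
        apply indep_insert _ z F hzF
        · apply indep_update _ _ _ _ hzE
          exact hg2 _ (hsubS F hF) (by omega) (fun l => (herase F l).trans (hF3 l))
        · rw [image_update _ _ _ _ hzE, Function.update_self]
          refine hv ⟨F.erase z, hsubS F hF, hc4, fun l => (herase F l).trans (hF3 l), ?_⟩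
          have h5 : (F.erase z ∩ pts l0) = (F ∩ pts l0).erase z := Finset.erase_inter _ _ _
          rw [h5, Finset.card_erase_of_mem (Finset.mem_inter.mpr ⟨hzF, hl0⟩)]
          have := hF3 l0
          omega
      · apply indep_update _ _ _ _ hzF
        apply hg2 _ _ hF5 hF3
        rw [← Finset.erase_eq_of_notMem hzF]
        exact hsubS F hF
  · push Not at hcase
    let i1 : V →ₗ[ℚ] V × ℚ := LinearMap.inl ℚ V ℚ
    have hi1 : Function.Injective i1 := LinearMap.inl_injective
    let g' : E → V × ℚ := Function.update (fun x => i1 (g x)) z (0, 1)
    refine ⟨V × ℚ, inferInstance, inferInstance, inferInstance, g', ?_, ?_⟩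
    · intro l
      by_cases hzl : z ∈ pts l
      · exact (finrank_span_image_le _ _).trans (hcard3 l hzl (hcase l hzl))
      · rw [hnot l hzl]
        simp only [g']
        rw [image_update]
        · have h5 : (fun x => i1 (g x)) '' ((pts l ∩ S : Finset E) : Set E) =
              i1 '' (g '' ((pts l ∩ S : Finset E) : Set E)) := by
            rw [← Set.image_comp]; rfl
          rw [h5, ← Submodule.map_span]
          exact (Submodule.finrank_map_le _ _).trans (hg1 l)
        · intro h
          exact hz (Finset.mem_inter.mp h).2
    · have hli : ∀ A : Finset E, z ∉ A → A ⊆ S → A.card ≤ 5 → (∀ l, (A ∩ pts l).card ≤ 3) →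
          LinearIndepOn ℚ g' (A : Set E) := by
        intro A hzA hAS hA5 hA3
        apply indep_update _ _ _ _ hzA
        exact (hg2 A hAS hA5 hA3).map_injOn i1 (hi1.injOn)
      intro F hF hF5 hF3
      by_cases hzF : z ∈ F
      · have hzE : z ∉ F.erase z := Finset.notMem_erase z F
        apply indep_insert _ z F hzF
        · apply hli _ hzE (hsubS F hF)
          · exact (Finset.card_le_card (Finset.erase_subset _ _)).trans hF5
          · exact fun l => (herase F l).trans (hF3 l)
        · simp only [g']
          rw [image_update _ _ _ _ hzE, Function.update_self]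
          intro hmem
          have h5 : Submodule.span ℚ ((fun x => i1 (g x)) '' ((F.erase z : Finset E) : Set E)) ≤
              LinearMap.ker (LinearMap.snd ℚ V ℚ) := by
            refine Submodule.span_le.mpr ?_
            rintro _ ⟨x, -, rfl⟩
            simp [i1]
          have h6 := h5 hmem
          simp at h6
      · apply hli _ hzF _ hF5 hF3
        rw [← Finset.erase_eq_of_notMem hzF]
        exact hsubS F hF

/-- Adding points in an order in which every new point lies on at most one block with at least three
earlier points. -/
theorem HasModel.extend [Fintype E] {pts : Λ → Finset E}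
    (hint : ∀ l l', l ≠ l' → (pts l ∩ pts l').card ≤ 1)
    {B : Finset E} (hB : HasModel pts B) (t : E → ℕ)
    (ht : ∀ x y, x ∉ B → y ∉ B → t x = t y → x = y)
    (hext : ∀ z, z ∉ B → ∀ l l', z ∈ pts l → z ∈ pts l' →
      3 ≤ (pts l ∩ Finset.univ.filter (fun x => x ∈ B ∨ t x < t z)).card →
      3 ≤ (pts l' ∩ Finset.univ.filter (fun x => x ∈ B ∨ t x < t z)).card → l = l') :
    HasModel pts Finset.univ := by
  classical
  have hn : ∀ n, HasModel pts (Finset.univ.filter (fun x => x ∈ B ∨ t x < n)) := by
    intro n
    induction n with
    | zero =>
      have : Finset.univ.filter (fun x => x ∈ B ∨ t x < 0) = B := by ext; simp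
      rw [this]
      exact hB
    | succ n ih =>
      by_cases hz : ∃ z, z ∉ B ∧ t z = n
      · obtain ⟨z, hzB, htz⟩ := hz
        have h5 : Finset.univ.filter (fun x => x ∈ B ∨ t x < n + 1) =
            insert z (Finset.univ.filter (fun x => x ∈ B ∨ t x < n)) := by
          ext x
          simp only [Finset.mem_filter, Finset.mem_univ, true_and, Finset.mem_insert]
          constructor
          · rintro (h | h)
            · exact Or.inr (Or.inl h)
            · by_cases hx : t x < n
              · exact Or.inr (Or.inr hx)
              · by_cases hxB : x ∈ B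
                · exact Or.inr (Or.inl hxB)
                · left
                  apply ht x z hxB hzB
                  omega
          · rintro (rfl | h | h)
            · right; omega
            · exact Or.inl h
            · right; omega
        rw [h5]
        apply ih.step hint
        · simp only [Finset.mem_filter, Finset.mem_univ, true_and]
          rintro (h | h)
          · exact hzB h
          · omega
        · intro l l' hl hl' hc hc'
          apply hext z hzB l l' hl hl'
          · rw [htz]; exact hc
          · rw [htz]; exact hc'
      · push Not at hz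
        have h5 : Finset.univ.filter (fun x => x ∈ B ∨ t x < n + 1) =
            Finset.univ.filter (fun x => x ∈ B ∨ t x < n) := by
          ext x
          simp only [Finset.mem_filter, Finset.mem_univ, true_and]
          constructor
          · rintro (h | h)
            · exact Or.inl h
            · by_cases hxB : x ∈ B
              · exact Or.inl hxB
              · right
                have := hz x hxB
                omega
          · rintro (h | h)
            · exact Or.inl h
            · right; omega
        rw [h5]
        exact ih
  have h5 : (Finset.univ : Finset E) =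
      Finset.univ.filter (fun x => x ∈ B ∨ t x < (∑ y, t y) + 1) := by
    ext x
    simp only [Finset.mem_univ, Finset.mem_filter, true_and, true_iff]
    right
    have := Finset.single_le_sum (f := t) (fun _ _ => Nat.zero_le _) (Finset.mem_univ x)
    omega
  rw [h5]
  exact hn _

end Pool.Agent.H9.Welsh
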