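import Pool.Agent.H9.Welsh.Circles
import Pool.Agent.H9.Welsh.Alg

/-!
# From Gaussian integer data and a prime `p ≡ 3 (mod 4)` to a finite projective plane
-/

set_option autoImplicit false

namespace Pool.Agent.H9.Welsh

/-- The field with `p²` elements, `p ≡ 3 (mod 4)`, with its involution and the reduction of `ℤ[i]`. -/
theorem exists_field (p : ℕ) [Fact p.Prime] (hp : p % 4 = 3) :
    ∃ (K : Type) (_ : Field K) (_ : Finite K) (_ : CharP K p) (c : K →+* K)
      (ψ : GaussianInt →+* K), (∀ x, c (c x) = x) ∧ ∀ z, c (ψ z) = ψ (star z) := by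
  have hfin : Fintype (GaloisField p 2) := Fintype.ofFinite _
  have hcard : Fintype.card (GaloisField p 2) = p ^ 2 := by
    rw [← Nat.card_eq_fintype_card]; exact GaloisField.card p 2 two_ne_zero
  have hsq : IsSquare (-1 : GaloisField p 2) := by
    rw [FiniteField.isSquare_neg_one_iff, hcard, Nat.pow_mod, hp]
    decide
  obtain ⟨i, hi⟩ := hsq
  have hi' : i * i = ((-1 : ℤ) : GaloisField p 2) := by rw [← hi]; simp
  refine ⟨GaloisField p 2, inferInstance, inferInstance, inferInstance, frobenius _ p,
    Zsqrtd.lift ⟨i, hi'⟩, ?_, ?_⟩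
  · intro x
    rw [frobenius_def, frobenius_def, ← pow_mul]
    have := FiniteField.pow_card x
    rw [hcard, pow_two] at this
    exact this
  · intro z
    have hip : i ^ p = -i := by
      obtain ⟨k, hk⟩ : ∃ k, p = 4 * k + 3 := ⟨p / 4, by omega⟩
      have h4 : i ^ 4 = 1 := by
        have : i ^ 4 = (i * i) * (i * i) := by ring
        rw [this, ← hi]; ring
      have h5 : i ^ p = i ^ (4 * k + 3) := congrArg (fun n => i ^ n) hk
      rw [h5, pow_add, pow_mul, h4, one_pow, one_mul]
      have : i ^ 3 = (i * i) * i := by ring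
      rw [this, ← hi]; ring
    simp only [Zsqrtd.lift_apply_apply, map_add, map_mul, frobenius_def]
    have h1 : ∀ n : ℤ, ((n : GaloisField p 2)) ^ p = n := by
      intro n
      have := map_intCast (frobenius (GaloisField p 2) p) n
      rw [frobenius_def] at this
      exact this
    rw [h1, h1, hip]
    simp

variable {ι : Type} [Fintype ι]

/-- The discriminant of Gaussian data is real. -/
theorem star_Dq (a b a' b' : ι → ℤ) (x y : ι → GaussianInt) :
    star (Dq a b a' b' x (fun k => star (x k)) y (fun k => star (y k))) =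
      Dq a b a' b' x (fun k => star (x k)) y (fun k => star (y k)) := by
  have h := map_Dq (starRingEnd GaussianInt) a b a' b' x (fun k => star (x k)) y
    (fun k => star (y k))
  rw [starRingEnd_apply] at h
  rw [h]
  have hx : ∀ f : ι → GaussianInt, (fun k => (starRingEnd GaussianInt) (star (f k))) = f := by
    intro f; funext k; rw [starRingEnd_apply, star_star]
  have hx' : ∀ f : ι → GaussianInt, (fun k => (starRingEnd GaussianInt) (f k)) =
      fun k => star (f k) := by
    intro f; funext k; rw [starRingEnd_apply]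
  rw [hx, hx, hx', hx']
  unfold Dq Tq dl
  ring

theorem re_of_star {z : GaussianInt} (h : star z = z) : z = ((z.re : ℤ) : GaussianInt) := by
  have : z.im = 0 := by
    have := congrArg Zsqrtd.im h
    rw [Zsqrtd.im_star] at this
    omega
  ext <;> simp [this]

theorem norm_map {K : Type} [CommRing K] (ψ : GaussianInt →+* K) (z : GaussianInt) :
    ψ z * ψ (star z) = ((z.norm : ℤ) : K) := by
  rw [← map_mul, ← Zsqrtd.norm_eq_mul_conj, map_intCast]

/-- **Main algebraic step.** -/
theorem plane_of_data (p : ℕ) [Fact p.Prime] (hp : p % 4 = 3) {Λ E : Type} (a b : Λ → ι → ℤ)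
    (v : E → ι → ℤ) (on : E → Λ → Prop) (x y : ι → GaussianInt)
    (hΔ : ∀ l, ¬ (p : ℤ) ∣ (dl (a l) (b l) x (fun k => star (x k))).norm)
    (hπ : ∀ l, ¬ (p : ℤ) ∣ (dl (a l) (b l) x y).norm)
    (hD : ∀ l l', l ≠ l' → ∃ g : ℤ, ¬ (p : ℤ) ∣ g ∧ (p : ℤ) ∣
      (Dq (a l) (b l) (a l') (b l') x (fun k => star (x k)) y (fun k => star (y k))).re - g ^ 2)
    (hcomb : ∀ l i j, on i l → on j l → i ≠ j → ∃ t u w : ℤ, ¬ (p : ℤ) ∣ t ∧
      (∀ k, t * (v i k - v j k) = u * a l k + w * b l k) ∧ ¬ ((p : ℤ) ∣ u ∧ (p : ℤ) ∣ w))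
    (hcov : ∀ i j, i ≠ j → ∃ l, on i l ∧ on j l) :
    ∃ (P L : Type) (_ : Membership P L) (_ : Finite P) (_ : Finite L)
      (_ : Configuration.ProjectivePlane P L) (f : E → P), Function.Injective f ∧
      ∀ i j k, i ≠ j → i ≠ k → j ≠ k →
        ((∃ l : L, f i ∈ l ∧ f j ∈ l ∧ f k ∈ l) ↔ ∃ l, on i l ∧ on j l ∧ on k l) := by
  obtain ⟨K, _, _, _, c, ψ, hc, hcψ⟩ := exists_field p hp
  have hcast : ∀ n : ℤ, ((n : K) = 0 ↔ (p : ℤ) ∣ n) := fun n => CharP.intCast_eq_zero_iff K p n
  have hcn : ∀ n : ℤ, c (n : K) = n := fun n => map_intCast c n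
  have h2 : (2 : K) ≠ 0 := by
    have := (hcast 2).not.mpr (by
      intro h
      have h3 : p ∣ 2 := by exact_mod_cast h
      have := Nat.le_of_dvd two_pos h3
      interval_cases p <;> omega)
    exact_mod_cast this
  set X : ι → K := fun k => ψ (x k) with hXdef
  set Y : ι → K := fun k => ψ (y k) with hYdef
  set X' : ι → K := fun k => ψ (star (x k)) with hX'def
  set Y' : ι → K := fun k => ψ (star (y k)) with hY'def
  have cX : ∀ d : ι → ℤ, c (ev X d) = ev X' d := by
    intro d; rw [map_ev]; congr 1; funext k; exact hcψ _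
  have cY : ∀ d : ι → ℤ, c (ev Y d) = ev Y' d := by
    intro d; rw [map_ev]; congr 1; funext k; exact hcψ _
  have cX' : ∀ d : ι → ℤ, c (ev X' d) = ev X d := by intro d; rw [← cX, hc]
  have cY' : ∀ d : ι → ℤ, c (ev Y' d) = ev Y d := by intro d; rw [← cY, hc]
  have nΔ : ∀ l, dl (a l) (b l) X X' ≠ 0 := by
    intro l h
    apply hΔ l
    rw [← hcast, ← norm_map ψ, map_dl]
    have : dl (a l) (b l) (fun k => ψ (x k)) (fun k => ψ (star (x k))) = 0 := h
    rw [this, zero_mul]
  have nπ : ∀ l, dl (a l) (b l) X Y ≠ 0 := by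
    intro l h
    apply hπ l
    rw [← hcast, ← norm_map ψ, map_dl]
    have : dl (a l) (b l) (fun k => ψ (x k)) (fun k => ψ (y k)) = 0 := h
    rw [this, zero_mul]
  have cΔ : ∀ l, c (dl (a l) (b l) X X') = - dl (a l) (b l) X X' := by
    intro l; simp only [dl, map_sub, map_mul, cX, cX']; ring
  have cσ : ∀ l, c (dl (a l) (b l) Y X') = dl (a l) (b l) Y' X := by
    intro l; simp only [dl, map_sub, map_mul, cX, cX', cY, cY']
  have cσ' : ∀ l, c (dl (a l) (b l) Y' X) = dl (a l) (b l) Y X' := by
    intro l; simp only [dl, map_sub, map_mul, cX, cX', cY, cY']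
  have cπ : ∀ l, c (dl (a l) (b l) X Y) = dl (a l) (b l) X' Y' := by
    intro l; simp only [dl, map_sub, map_mul, cX, cX', cY, cY']
  have circ : ∀ l m, (m - dl (a l) (b l) Y X' / dl (a l) (b l) X X') *
      c (m - dl (a l) (b l) Y X' / dl (a l) (b l) X X') =
      dl (a l) (b l) X Y / dl (a l) (b l) X X' * c (dl (a l) (b l) X Y / dl (a l) (b l) X X') →
      dl (a l) (b l) X X' * (m * c m) + dl (a l) (b l) Y' X * m - dl (a l) (b l) Y X' * c m
        + dl (a l) (b l) Y Y' = 0 := by
    intro l m h
    have hd := nΔ l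
    rw [map_sub, map_div₀, map_div₀, cΔ, cσ, cπ] at h
    have hp1 := pluck (a l) (b l) X X' Y Y'
    have h3 : dl (a l) (b l) X X' * (dl (a l) (b l) X X' * (m * c m) + dl (a l) (b l) Y' X * m
        - dl (a l) (b l) Y X' * c m + dl (a l) (b l) Y Y') = 0 := by
      generalize dl (a l) (b l) X X' = d at *
      generalize dl (a l) (b l) Y X' = s at *
      generalize dl (a l) (b l) Y' X = s' at *
      generalize dl (a l) (b l) X Y = q at *
      generalize dl (a l) (b l) X' Y' = q' at *
      have h4 : (d * m - s) * (d * c m + s') = - (q * q') := by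
        have e1 : (d * m - s) * (d * c m + s') = ((m - s / d) * (c m - s' / -d)) * (d * d) := by
          field_simp
          ring
        have e2 : - (q * q') = (q / d * (q' / -d)) * (d * d) := by
          field_simp
        rw [e1, e2, h]
      linear_combination h4 - hp1
    exact (mul_eq_zero.mp h3).resolve_left hd
  let C : Circles K c Λ :=
    { s := fun l => dl (a l) (b l) Y X' / dl (a l) (b l) X X'
      β := fun l => dl (a l) (b l) X Y / dl (a l) (b l) X X'
      hβ := fun l => div_ne_zero (nπ l) (nΔ l)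
      hc := hc
      disj := by
        intro l l' m h1 h2'
        by_contra hne
        have e1 := circ l m h1
        have e2 := circ l' m h2'
        have e3 := sq_of_common (a l) (b l) (a l') (b l') X X' Y Y' m (c m) e1 e2
        obtain ⟨g, hg1, hg2⟩ := hD l l' hne
        have e4 : Dq (a l) (b l) (a l') (b l') X X' Y Y' = (g : K) ^ 2 := by
          have s1 := re_of_star (star_Dq (a l) (b l) (a l') (b l') x y)
          have s2 := congrArg ψ s1
          rw [map_Dq, map_intCast] at s2
          have s3 : Dq (a l) (b l) (a l') (b l') X X' Y Y' = _ := s2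
          rw [s3]
          rw [← hcast] at hg2
          push_cast at hg2
          linear_combination hg2
        rw [e4] at e3
        generalize hW : (m * (dl (a l) (b l) Y' X * dl (a l') (b l') X X' -
            dl (a l') (b l') Y' X * dl (a l) (b l) X X') +
          c m * (dl (a l) (b l) Y X' * dl (a l') (b l') X X' -
            dl (a l') (b l') Y X' * dl (a l) (b l) X X') +
          dl (a l) (b l) Y X' * dl (a l') (b l') Y' X -
          dl (a l) (b l) Y' X * dl (a l') (b l') Y X') = W at e3
        have hcW : c W = - W := by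
          rw [← hW]
          simp only [map_sub, map_add, map_mul, cΔ, cσ, cσ', hc]
          ring
        have hW2 : c W = W := by
          rcases sq_eq_sq_iff_eq_or_eq_neg.mp e3 with h | h
          · rw [h, hcn]
          · rw [h, map_neg, hcn]
        have hW3 : (2 : K) * W = 0 := by
          have : W = - W := by rw [← hcW, hW2]
          linear_combination this
        have hW4 : W = 0 := (mul_eq_zero.mp hW3).resolve_left h2
        rw [hW4] at e3
        have : (g : K) = 0 := by
          have : (g : K) ^ 2 = 0 := by rw [← e3]; ring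
          exact pow_eq_zero_iff (two_ne_zero) |>.mp this
        exact hg1 ((hcast g).mp this) }
  have hcombK : ∀ l i j, on i l → on j l → i ≠ j → ∃ t u w : K, t ≠ 0 ∧ c t = t ∧ c u = u ∧ c w = w ∧
      ¬ (u = 0 ∧ w = 0) ∧
      t * (ev X (v i) - ev X (v j)) = u * ev X (a l) + w * ev X (b l) ∧
      t * (ev Y (v i) - ev Y (v j)) = u * ev Y (a l) + w * ev Y (b l) := by
    intro l i j hi hj hij
    obtain ⟨t, u, w, h1, h3, h4⟩ := hcomb l i j hi hj hij
    have hev : ∀ f : ι → K, (t : K) * (ev f (v i) - ev f (v j)) =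
        (u : K) * ev f (a l) + (w : K) * ev f (b l) := by
      intro f
      simp only [ev, Finset.mul_sum, ← Finset.sum_sub_distrib, ← Finset.sum_add_distrib]
      refine Finset.sum_congr rfl fun k _ => ?_
      have h5 : ((t * (v i k - v j k) : ℤ) : K) = ((u * a l k + w * b l k : ℤ) : K) := by
        rw [h3 k]
      push_cast at h5
      linear_combination (f k) * h5
    refine ⟨t, u, w, (hcast t).not.mpr h1, hcn t, hcn u, hcn w, ?_, hev X, hev Y⟩
    rintro ⟨hu, hw⟩
    exact h4 ⟨(hcast u).mp hu, (hcast w).mp hw⟩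
  have hX : ∀ i j, i ≠ j → ev X (v i) ≠ ev X (v j) := by
    intro i j hij h
    obtain ⟨l, hi, hj⟩ := hcov i j hij
    obtain ⟨t, u, w, ht, hct, hcu, hcw, huw, e1, -⟩ := hcombK l i j hi hj hij
    rw [h, sub_self, mul_zero] at e1
    have e2 : u * ev X' (a l) + w * ev X' (b l) = 0 := by
      have := congrArg c e1
      rw [map_zero, map_add, map_mul, map_mul, hcu, hcw, cX, cX] at this
      exact this.symm
    have hd := nΔ l
    have hu : u = 0 := by
      have : u * dl (a l) (b l) X X' = 0 := by
        simp only [dl]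
        linear_combination (-(ev X' (b l))) * e1 - (ev X (b l)) * e2
      exact (mul_eq_zero.mp this).resolve_right hd
    have hw : w = 0 := by
      have : w * dl (a l) (b l) X X' = 0 := by
        simp only [dl]
        linear_combination (ev X' (a l)) * e1 + (ev X (a l)) * e2
      exact (mul_eq_zero.mp this).resolve_right hd
    exact huw ⟨hu, hw⟩
  have hon : ∀ l i j, on i l → on j l → ev Y (v i) - ev Y (v j) =
      C.s l * (ev X (v i) - ev X (v j)) + C.β l * c (ev X (v i) - ev X (v j)) := by
    intro l i j hi hj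
    by_cases hij : i = j
    · subst hij; simp
    obtain ⟨t, u, w, ht, hct, hcu, hcw, huw, e1, e2⟩ := hcombK l i j hi hj hij
    have hd := nΔ l
    have e3 : t * (c (ev X (v i) - ev X (v j))) = u * ev X' (a l) + w * ev X' (b l) := by
      have := congrArg c e1
      rw [map_mul, hct, map_add, map_mul, map_mul, hcu, hcw, cX, cX] at this
      exact this
    have k1 := cramer_a (a l) (b l) X X' Y
    have k2 := cramer_b (a l) (b l) X X' Y
    change _ = dl (a l) (b l) Y X' / dl (a l) (b l) X X' * (ev X (v i) - ev X (v j)) +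
      dl (a l) (b l) X Y / dl (a l) (b l) X X' * c (ev X (v i) - ev X (v j))
    have goal : t * dl (a l) (b l) X X' * (ev Y (v i) - ev Y (v j)) =
        t * (dl (a l) (b l) Y X' * (ev X (v i) - ev X (v j)) +
          dl (a l) (b l) X Y * c (ev X (v i) - ev X (v j))) := by
      linear_combination (dl (a l) (b l) X X') * e2 - (dl (a l) (b l) Y X') * e1
        - (dl (a l) (b l) X Y) * e3 + u * k1 + w * k2
    have goal' : dl (a l) (b l) X X' * (ev Y (v i) - ev Y (v j)) =
        (dl (a l) (b l) Y X' * (ev X (v i) - ev X (v j)) +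
          dl (a l) (b l) X Y * c (ev X (v i) - ev X (v j))) := by
      apply mul_left_cancel₀ ht
      rw [← mul_assoc]; exact goal
    field_simp
    linear_combination goal'
  obtain ⟨r1, r2⟩ := C.embed (fun i => ev X (v i)) (fun i => ev Y (v i)) on hX hon hcov
  have hnt : Nontrivial K := inferInstance
  exact ⟨Pt K, Ln C.sys, instMem C.sys, instFinitePt, instFiniteLn C.sys, plane C.sys,
    fun i => Pt.aff (ev X (v i)) (ev Y (v i)), r1, r2⟩

end Pool.Agent.H9.Welsh
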