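import Pool.Agent.H9.Welsh.Assemble

/-!
# Existence of the local data

The only hypothesis is that the planes `span (a l, b l)` of two distinct blocks meet in `0`.
-/

set_option autoImplicit false

namespace Pool.Agent.H9.Welsh

variable {ι Λ : Type} [Fintype ι]

/-- Rational pairing of an integer form with a rational vector. -/
def dot (f : ι → ℤ) (u : ι → ℚ) : ℚ := ∑ k, (f k : ℚ) * u k

theorem dot_int (f a : ι → ℤ) : dot f (fun k => (a k : ℚ)) = ((ev f a : ℤ) : ℚ) := by
  simp [dot, ev]

theorem dot_add (f : ι → ℤ) (u v : ι → ℚ) : dot f (fun k => u k + v k) = dot f u + dot f v := by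
  simp only [dot, ← Finset.sum_add_distrib]
  exact Finset.sum_congr rfl fun k _ => by ring

theorem dot_sub (f : ι → ℤ) (u v : ι → ℚ) : dot f (fun k => u k - v k) = dot f u - dot f v := by
  simp only [dot, ← Finset.sum_sub_distrib]
  exact Finset.sum_congr rfl fun k _ => by ring

theorem dot_mul (f : ι → ℤ) (c : ℚ) (u : ι → ℚ) : dot f (fun k => c * u k) = c * dot f u := by
  simp only [dot, Finset.mul_sum]
  exact Finset.sum_congr rfl fun k _ => by ring

/-- A form vanishing on a subspace and at none of finitely many vectors outside it. -/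
theorem avoid {I : Type} [Finite I] (U : Submodule ℚ (ι → ℚ)) (c : I → ι → ℚ)
    (hc : ∀ i, c i ∉ U) :
    ∃ f : ι → ℤ, (∀ u ∈ U, dot f u = 0) ∧ ∀ i, dot f (c i) ≠ 0 := by
  classical
  obtain ⟨φ, hφ⟩ := Module.exists_dual_forall_apply_ne_zero (K := ℚ)
    (fun i => U.mkQ (c i)) (by
      intro i h
      rw [Submodule.mkQ_apply, Submodule.Quotient.mk_eq_zero] at h
      exact hc i h)
  let g : Module.Dual ℚ (ι → ℚ) := φ ∘ₗ U.mkQ
  obtain ⟨d, hd⟩ := IsLocalization.exist_integer_multiples_of_finite (nonZeroDivisors ℤ)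
    (fun k : ι => g (Pi.single k 1))
  choose f hf using hd
  have hd0 : ((d : ℤ) : ℚ) ≠ 0 := by
    have := nonZeroDivisors.coe_ne_zero d
    exact_mod_cast this
  have hfg : ∀ k, (f k : ℚ) = (d : ℤ) * g (Pi.single k 1) := by
    intro k
    have := hf k
    simpa [Algebra.smul_def] using this
  have hg : ∀ u : ι → ℚ, dot f u = (d : ℤ) * g u := by
    intro u
    have h1 : u = ∑ k, u k • (Pi.single k (1 : ℚ) : ι → ℚ) := by
      funext j
      simp [Finset.sum_apply, Pi.single_apply]
    conv_rhs => rw [h1, map_sum, Finset.mul_sum]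
    unfold dot
    refine Finset.sum_congr rfl fun k _ => ?_
    rw [hfg k, map_smul, smul_eq_mul]
    ring
  refine ⟨f, ?_, ?_⟩
  · intro u hu
    rw [hg]
    have : g u = 0 := by
      change φ (U.mkQ u) = 0
      rw [Submodule.mkQ_apply, (Submodule.Quotient.mk_eq_zero U).mpr hu, map_zero]
    rw [this, mul_zero]
  · intro i
    rw [hg]
    exact mul_ne_zero hd0 (hφ i)

/-- The vector of a block killed by `y`. -/
def wv {R : Type} [CommRing R] (a b : ι → ℤ) (y : ι → R) (k : ι) : R :=
  ev y b * (a k : R) - ev y a * (b k : R)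

theorem ev_lin (f u v : ι → ℤ) (s t : ℤ) :
    ev f (fun k => s * u k - t * v k) = s * ev f u - t * ev f v := by
  have h : ∀ k, f k * (s * u k - t * v k) = s * (f k * u k) - t * (f k * v k) := by
    intro k; ring
  simp only [ev, Int.cast_id, h, Finset.sum_sub_distrib, ← Finset.mul_sum]

theorem ev_wv (a b x y : ι → ℤ) : ev x (fun k => wv a b y k) = dl a b x y := by
  have h : ∀ k, x k * wv a b y k = ev y b * (x k * a k) - ev y a * (x k * b k) := by
    intro k; simp only [wv, Int.cast_id]; ring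
  simp only [ev, Int.cast_id] at h ⊢
  simp only [h, Finset.sum_sub_distrib, ← Finset.mul_sum, dl, ev, Int.cast_id]
  ring

/-- The vector of a pair of blocks killed by `x` and `y`. -/
def kap {R : Type} [CommRing R] (a b a' b' : ι → ℤ) (x y : ι → R) (k : ι) : R :=
  dl a' b' x y * wv a b y k - dl a b x y * wv a' b' y k

theorem map_kap {R S : Type} [CommRing R] [CommRing S] (φ : R →+* S) (a b a' b' : ι → ℤ)
    (x y : ι → R) (k : ι) :
    φ (kap a b a' b' x y k) = kap a b a' b' (fun k => φ (x k)) (fun k => φ (y k)) k := by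
  simp [kap, wv, map_dl, map_ev]

/-- A `2 × 2` minor of two such vectors. -/
def minor {R : Type} [CommRing R] (a b a' b' c d c' d' : ι → ℤ) (j k : ι) (x y : ι → R) : R :=
  kap a b a' b' x y j * kap c d c' d' x y k - kap a b a' b' x y k * kap c d c' d' x y j

theorem map_minor {R S : Type} [CommRing R] [CommRing S] (φ : R →+* S)
    (a b a' b' c d c' d' : ι → ℤ) (j k : ι) (x y : ι → R) :
    φ (minor a b a' b' c d c' d' j k x y) =
      minor a b a' b' c d c' d' j k (fun k => φ (x k)) (fun k => φ (y k)) := by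
  simp [minor, map_kap]

/-- Finitely many nonzero polynomials have a common point of nonvanishing. -/
theorem common_point {I σ : Type} [Finite I] (P : I → MvPolynomial σ ℤ)
    (h : ∀ i, ∃ x : σ → ℤ, MvPolynomial.eval x (P i) ≠ 0) :
    ∃ x : σ → ℤ, ∀ i, MvPolynomial.eval x (P i) ≠ 0 := by
  classical
  have : Fintype I := Fintype.ofFinite I
  have hne : (∏ i, P i) ≠ 0 := by
    refine Finset.prod_ne_zero_iff.mpr fun i _ h0 => ?_
    obtain ⟨x, hx⟩ := h i
    exact hx (by rw [h0, map_zero])
  by_contra hcon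
  push Not at hcon
  apply hne
  refine MvPolynomial.funext fun x => ?_
  obtain ⟨i, hi⟩ := hcon x
  rw [map_prod, map_zero]
  exact Finset.prod_eq_zero (Finset.mem_univ i) hi

/-- The planes of distinct blocks meet in `0`. -/
def Indep2 (a b : Λ → ι → ℤ) : Prop :=
  ∀ l l', l ≠ l' → ∀ s t u v : ℚ,
    (∀ k, s * a l k + t * b l k + u * a l' k + v * b l' k = 0) → s = 0 ∧ t = 0 ∧ u = 0 ∧ v = 0

theorem exists_minor_ne {p q : ι → ℚ} (hp : p ≠ 0) (hq : ¬ ∃ t : ℚ, ∀ k, q k = t * p k) :
    ∃ j k, p j * q k - p k * q j ≠ 0 := by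
  by_contra hcon
  push Not at hcon
  obtain ⟨j, hj⟩ : ∃ j, p j ≠ 0 := by
    by_contra h
    push Not at h
    exact hp (funext h)
  apply hq
  refine ⟨q j / p j, fun k => ?_⟩
  have := hcon j k
  field_simp
  linear_combination this

/-- Witness of independence for two different pairs of blocks. -/
theorem exists_witness {a b : Λ → ι → ℤ} (hind : Indep2 a b) {e1 e2 c d : Λ}
    (he : e1 ≠ e2) (hcd : c ≠ d) (hd1 : d ≠ e1) (hd2 : d ≠ e2) :
    ∃ x y : ι → ℤ, ∃ j k, minor (a e1) (b e1) (a e2) (b e2) (a c) (b c) (a d) (b d) j k x y ≠ 0 := by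
  classical
  -- basic nonproportionality facts
  have hAd : ∀ l, l ≠ d → ∀ s t u v : ℚ, (∀ k, s * a l k + t * b l k = u * a d k + v * b d k) →
      s = 0 ∧ t = 0 := by
    intro l hl s t u v h
    have := hind l d hl s t (-u) (-v) (fun k => by have := h k; linear_combination this)
    exact ⟨this.1, this.2.1⟩
  have hd_ne : ∀ s t : ℚ, (∀ k, s * a d k + t * b d k = 0) → s = 0 ∧ t = 0 := by
    intro s t h
    have := hind d e1 hd1 s t 0 0 (fun k => by have := h k; linear_combination this)
    exact ⟨this.1, this.2.1⟩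
  let U : Submodule ℚ (ι → ℚ) := Submodule.span ℚ {fun k => (a d k : ℚ)}
  have hU : ∀ u : ι → ℚ, u ∈ U → ∃ t : ℚ, ∀ k, u k = t * a d k := by
    intro u hu
    obtain ⟨t, rfl⟩ := Submodule.mem_span_singleton.mp hu
    exact ⟨t, fun k => by simp⟩
  have hUd : (fun k => (a d k : ℚ)) ∈ U := Submodule.mem_span_singleton_self _
  have n1 : (fun k => (b d k : ℚ)) ∉ U := by
    intro h
    obtain ⟨t, ht⟩ := hU _ h
    have := (hd_ne (-t) 1 (fun k => by have := ht k; linear_combination this)).2
    exact one_ne_zero this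
  have n2 : ∀ l, l ≠ d → (fun k => (a l k : ℚ)) ∉ U := by
    intro l hl h
    obtain ⟨t, ht⟩ := hU _ h
    have := (hAd l hl 1 0 t 0 (fun k => by have := ht k; linear_combination this)).1
    exact one_ne_zero this
  -- the component in the plane of `e1`, if `a d` lies in the sum of the planes of `e1` and `e2`
  obtain ⟨v1, hv1, hv1'⟩ : ∃ v1 : ι → ℚ, v1 ∉ U ∧ ∀ s t u v : ℚ,
      (∀ k, (a d k : ℚ) = s * a e1 k + t * b e1 k + u * a e2 k + v * b e2 k) →
      ∀ k, v1 k = s * a e1 k + t * b e1 k := by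
    by_cases h : ∃ s t u v : ℚ,
        ∀ k, (a d k : ℚ) = s * a e1 k + t * b e1 k + u * a e2 k + v * b e2 k
    · obtain ⟨s, t, u, v, h⟩ := h
      refine ⟨fun k => s * a e1 k + t * b e1 k, ?_, ?_⟩
      · intro hmem
        obtain ⟨r, hr⟩ := hU _ hmem
        have h0 := hAd e1 hd1.symm s t r 0 (fun k => by have := hr k; linear_combination this)
        have h1 := hind d e2 hd2 1 0 (-u) (-v) (fun k => by
          have := h k; rw [h0.1, h0.2] at this; linear_combination this)
        exact one_ne_zero h1.1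
      · intro s' t' u' v' h' k
        have h2 := hind e1 e2 he (s - s') (t - t') (u - u') (v - v') (fun k => by
          have e1' := h k
          have e2' := h' k
          linear_combination e2' - e1')
        have h3 : s = s' := sub_eq_zero.mp h2.1
        have h4 : t = t' := sub_eq_zero.mp h2.2.1
        rw [h3, h4]
    · exact ⟨fun k => (b d k : ℚ), n1, fun s t u v h' => absurd ⟨s, t, u, v, h'⟩ h⟩
  -- choose `y`
  obtain ⟨y, hyU, hyc⟩ := avoid U
    (fun i : Fin 5 => ![fun k => (b d k : ℚ), fun k => (a e1 k : ℚ), fun k => (a e2 k : ℚ),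
      fun k => (a c k : ℚ), v1] i) (by
      intro i
      fin_cases i
      · exact n1
      · exact n2 e1 hd1.symm
      · exact n2 e2 hd2.symm
      · exact n2 c hcd
      · exact hv1)
  have y_ad : ev y (a d) = 0 := by
    have := hyU _ hUd
    rw [dot_int] at this
    exact_mod_cast this
  have y_bd : ev y (b d) ≠ 0 := by
    have := hyc 0
    simp only [Matrix.cons_val_zero] at this
    rw [dot_int] at this
    exact_mod_cast this
  have y_a1 : ev y (a e1) ≠ 0 := by
    have := hyc 1
    simp only [Matrix.cons_val] at this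
    rw [dot_int] at this
    exact_mod_cast this
  have y_a2 : ev y (a e2) ≠ 0 := by
    have := hyc 2
    simp only [Matrix.cons_val] at this
    rw [dot_int] at this
    exact_mod_cast this
  have y_ac : ev y (a c) ≠ 0 := by
    have := hyc 3
    simp only [Matrix.cons_val] at this
    rw [dot_int] at this
    exact_mod_cast this
  have y_v1 : dot y v1 ≠ 0 := by
    have := hyc 4
    simpa only [Matrix.cons_val] using this
  -- choose `x`
  let W : Submodule ℚ (ι → ℚ) :=
    Submodule.span ℚ {(fun k => (a d k : ℚ)), (fun k => (b d k : ℚ))}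
  have hW : ∀ u : ι → ℚ, u ∈ W → ∃ s t : ℚ, ∀ k, u k = s * a d k + t * b d k := by
    intro u hu
    obtain ⟨s, t, rfl⟩ := Submodule.mem_span_pair.mp hu
    exact ⟨s, t, fun k => by simp⟩
  have nw : ∀ l, l ≠ d → ev y (a l) ≠ 0 → (fun k => ((wv (a l) (b l) y k : ℤ) : ℚ)) ∉ W := by
    intro l hl hy h
    obtain ⟨s, t, hst⟩ := hW _ h
    have := (hAd l hl (ev y (b l) : ℤ) (-(ev y (a l) : ℤ)) s t (fun k => by
      have := hst k
      simp only [wv] at this
      push_cast at this
      linear_combination this)).2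
    rw [neg_eq_zero] at this
    exact hy (by exact_mod_cast this)
  obtain ⟨x, hxW, hxc⟩ := avoid W
    (fun i : Fin 2 => ![fun k => ((wv (a e1) (b e1) y k : ℤ) : ℚ),
      fun k => ((wv (a c) (b c) y k : ℤ) : ℚ)] i) (by
      intro i
      fin_cases i
      · exact nw e1 hd1.symm y_a1
      · exact nw c hcd y_ac)
  have x_ad : ev x (a d) = 0 := by
    have := hxW _ (Submodule.subset_span (Set.mem_insert _ _))
    rw [dot_int] at this
    exact_mod_cast this
  have x_bd : ev x (b d) = 0 := by
    have := hxW _ (Submodule.subset_span (Set.mem_insert_of_mem _ rfl))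
    rw [dot_int] at this
    exact_mod_cast this
  have hx1 : dl (a e1) (b e1) x y ≠ 0 := by
    have := hxc 0
    simp only [Matrix.cons_val_zero] at this
    rw [dot_int, ev_wv] at this
    exact_mod_cast this
  have hxc' : dl (a c) (b c) x y ≠ 0 := by
    have := hxc 1
    simp only [Matrix.cons_val] at this
    rw [dot_int] at this
    have h2 : ev x (fun k => wv (a c) (b c) y k) ≠ 0 := by exact_mod_cast this
    rw [ev_wv] at h2
    exact h2
  have hxd : dl (a d) (b d) x y = 0 := by simp only [dl, x_ad, x_bd]; ring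
  let p : ι → ℚ := fun k => ((kap (a e1) (b e1) (a e2) (b e2) x y k : ℤ) : ℚ)
  let q : ι → ℚ := fun k => ((kap (a c) (b c) (a d) (b d) x y k : ℤ) : ℚ)
  have hq : ∀ k, q k = -(dl (a c) (b c) x y * ev y (b d) : ℤ) * (a d k : ℚ) := by
    intro k
    simp only [q, kap, hxd, wv, y_ad]
    push_cast
    ring
  have hcoef : ((dl (a c) (b c) x y * ev y (b d) : ℤ) : ℚ) ≠ 0 := by
    exact_mod_cast mul_ne_zero hxc' y_bd
  have hpk : ∀ k, p k = ((dl (a e2) (b e2) x y : ℤ) : ℚ) *
      (((ev y (b e1) : ℤ) : ℚ) * a e1 k - ((ev y (a e1) : ℤ) : ℚ) * b e1 k) -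
      ((dl (a e1) (b e1) x y : ℤ) : ℚ) *
      (((ev y (b e2) : ℤ) : ℚ) * a e2 k - ((ev y (a e2) : ℤ) : ℚ) * b e2 k) := by
    intro k
    simp only [p, kap, wv]
    push_cast
    ring
  have hp0 : p ≠ 0 := by
    intro h
    have h1 := hind e1 e2 he
      (((dl (a e2) (b e2) x y : ℤ) : ℚ) * ((ev y (b e1) : ℤ) : ℚ))
      (-(((dl (a e2) (b e2) x y : ℤ) : ℚ) * ((ev y (a e1) : ℤ) : ℚ)))
      (-(((dl (a e1) (b e1) x y : ℤ) : ℚ) * ((ev y (b e2) : ℤ) : ℚ)))
      (((dl (a e1) (b e1) x y : ℤ) : ℚ) * ((ev y (a e2) : ℤ) : ℚ)) (fun k => by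
        have := congrFun h k
        rw [hpk k] at this
        simp only [Pi.zero_apply] at this
        linear_combination this)
    rcases mul_eq_zero.mp h1.2.2.2 with h2 | h2
    · exact hx1 (by exact_mod_cast h2)
    · exact y_a2 (by exact_mod_cast h2)
  have hqp : ¬ ∃ t : ℚ, ∀ k, q k = t * p k := by
    rintro ⟨t, ht⟩
    have ht0 : t ≠ 0 := by
      rintro rfl
      have := hd_ne (-(dl (a c) (b c) x y * ev y (b d) : ℤ)) 0 (fun k => by
        have h1 := ht k
        rw [hq k] at h1
        linear_combination h1)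
      rw [neg_eq_zero] at this
      exact hcoef this.1
    set C : ℚ := ((dl (a c) (b c) x y * ev y (b d) : ℤ) : ℚ) with hC
    have h1 : ∀ k, (a d k : ℚ) = (-(t / C) * (((dl (a e2) (b e2) x y : ℤ) : ℚ) *
        ((ev y (b e1) : ℤ) : ℚ))) * a e1 k +
        (-(t / C) * (-(((dl (a e2) (b e2) x y : ℤ) : ℚ) * ((ev y (a e1) : ℤ) : ℚ)))) * b e1 k +
        (-(t / C) * (-(((dl (a e1) (b e1) x y : ℤ) : ℚ) * ((ev y (b e2) : ℤ) : ℚ)))) * a e2 k +
        (-(t / C) * (((dl (a e1) (b e1) x y : ℤ) : ℚ) * ((ev y (a e2) : ℤ) : ℚ))) * b e2 k := by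
      intro k
      have h2 := ht k
      rw [hq k, hpk k] at h2
      field_simp
      linear_combination -h2
    have h2 := hv1' _ _ _ _ h1
    apply y_v1
    have h3 : dot y v1 = (-(t / C) * ((dl (a e2) (b e2) x y : ℤ) : ℚ)) *
        dot y (fun k => ((wv (a e1) (b e1) y k : ℤ) : ℚ)) := by
      rw [← dot_mul]
      unfold dot
      refine Finset.sum_congr rfl fun k _ => ?_
      rw [h2 k]
      simp only [wv]
      push_cast
      ring
    rw [h3, dot_int, ev_wv]
    have : dl (a e1) (b e1) y y = 0 := by simp only [dl]; ring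
    rw [this]
    simp
  obtain ⟨j, k, hjk⟩ := exists_minor_ne hp0 hqp
  refine ⟨x, y, j, k, ?_⟩
  intro h
  apply hjk
  have h1 : ((minor (a e1) (b e1) (a e2) (b e2) (a c) (b c) (a d) (b d) j k x y : ℤ) : ℚ) = 0 := by
    rw [h]; simp
  simp only [minor] at h1
  push_cast at h1
  simpa [p, q] using h1

theorem ev_kap (a b a' b' x y f : ι → ℤ) :
    ev f (fun k => kap a b a' b' x y k) = dl a' b' x y * dl a b f y - dl a b x y * dl a' b' f y := by
  rw [← ev_wv a b f y, ← ev_wv a' b' f y]
  simp only [ev, Int.cast_id, Finset.mul_sum, ← Finset.sum_sub_distrib]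
  refine Finset.sum_congr rfl fun k _ => ?_
  simp only [kap]
  ring

/-- The vector of a block killed by `x`. -/
def om (a b x : ι → ℤ) (k : ι) : ℤ := ev x a * b k - ev x b * a k

theorem ev_om (a b x f : ι → ℤ) : ev f (fun k => om a b x k) = dl a b x f := by
  exact (ev_lin f b a (ev x a) (ev x b)).trans (by simp only [dl])

theorem kap_antisymm {R : Type} [CommRing R] (a b a' b' : ι → ℤ) (x y : ι → R) (k : ι) :
    kap a' b' a b x y k = - kap a b a' b' x y k := by
  simp only [kap]; ring

theorem exists_xy [Fintype Λ] [LinearOrder Λ] {a b : Λ → ι → ℤ} (hind : Indep2 a b) {e1 e2 : Λ}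
    (he : e1 < e2) :
    ∃ x y : ι → ℤ, (∀ l, dl (a l) (b l) x y ≠ 0) ∧
      ∀ c d, c < d → (c, d) ≠ (e1, e2) →
        ∃ j k, minor (a e1) (b e1) (a e2) (b e2) (a c) (b c) (a d) (b d) j k x y ≠ 0 := by
  classical
  have hw1 : ∀ l : Λ, ∃ x y : ι → ℤ, dl (a l) (b l) x y ≠ 0 := by
    intro l
    obtain ⟨l', hl'⟩ : ∃ l' : Λ, l ≠ l' := by
      by_cases h : l = e1
      · exact ⟨e2, by rw [h]; exact he.ne⟩
      · exact ⟨e1, h⟩
    obtain ⟨x, hx1, hx2⟩ := avoid (Submodule.span ℚ {fun k => (b l k : ℚ)})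
      (fun _ : Fin 1 => fun k => (a l k : ℚ)) (by
        intro _ h
        obtain ⟨t, ht⟩ := Submodule.mem_span_singleton.mp h
        have := (hind l l' hl' 1 (-t) 0 0 (fun k => by
          have := congrFun ht k
          simp only [Pi.smul_apply, smul_eq_mul] at this
          linear_combination -this)).1
        exact one_ne_zero this)
    obtain ⟨y, -, hy2⟩ := avoid (⊥ : Submodule ℚ (ι → ℚ))
      (fun _ : Fin 1 => fun k => (b l k : ℚ)) (by
        intro _ h
        have h0 : (fun k => (b l k : ℚ)) = 0 := (Submodule.mem_bot ℚ).mp h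
        have := (hind l l' hl' 0 1 0 0 (fun k => by
          have := congrFun h0 k
          simp only [Pi.zero_apply] at this
          linear_combination this)).2.1
        exact one_ne_zero this)
    have h1 : ev x (b l) = 0 := by
      have := hx1 _ (Submodule.mem_span_singleton_self _)
      rw [dot_int] at this
      exact_mod_cast this
    have h2 : ev x (a l) ≠ 0 := by
      have := hx2 0
      rw [dot_int] at this
      exact_mod_cast this
    have h3 : ev y (b l) ≠ 0 := by
      have := hy2 0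
      rw [dot_int] at this
      exact_mod_cast this
    refine ⟨x, y, ?_⟩
    simp only [dl, h1, zero_mul, sub_zero]
    exact mul_ne_zero h2 h3
  have hw2 : ∀ f : {f : Λ × Λ // f.1 < f.2 ∧ f ≠ (e1, e2)}, ∃ x y : ι → ℤ, ∃ j k,
      minor (a e1) (b e1) (a e2) (b e2) (a f.1.1) (b f.1.1) (a f.1.2) (b f.1.2) j k x y ≠ 0 := by
    rintro ⟨⟨c, d⟩, hcd, hne⟩
    simp only at hcd hne ⊢
    by_cases hd : d ≠ e1 ∧ d ≠ e2
    · exact exists_witness hind he.ne hcd.ne hd.1 hd.2
    · have hc : c ≠ e1 ∧ c ≠ e2 := by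
        constructor
        · rintro rfl
          apply hd
          refine ⟨hcd.ne', ?_⟩
          rintro rfl
          exact hne rfl
        · rintro rfl
          apply hd
          exact ⟨(he.trans hcd).ne', hcd.ne'⟩
      obtain ⟨x, y, j, k, h⟩ := exists_witness hind he.ne hcd.ne' hc.1 hc.2
      refine ⟨x, y, j, k, ?_⟩
      intro h0
      apply h
      have : minor (a e1) (b e1) (a e2) (b e2) (a d) (b d) (a c) (b c) j k x y =
          - minor (a e1) (b e1) (a e2) (b e2) (a c) (b c) (a d) (b d) j k x y := by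
        simp only [minor]
        rw [kap_antisymm (a c) (b c) (a d) (b d) x y k, kap_antisymm (a c) (b c) (a d) (b d) x y j]
        ring
      rw [this, h0, neg_zero]
  choose x2 y2 j2 k2 h2 using hw2
  let Xp : ι → MvPolynomial (ι ⊕ ι) ℤ := fun k => MvPolynomial.X (Sum.inl k)
  let Yp : ι → MvPolynomial (ι ⊕ ι) ℤ := fun k => MvPolynomial.X (Sum.inr k)
  let P : Λ ⊕ {f : Λ × Λ // f.1 < f.2 ∧ f ≠ (e1, e2)} → MvPolynomial (ι ⊕ ι) ℤ := fun o => match o with
    | .inl l => dl (a l) (b l) Xp Yp
    | .inr f => minor (a e1) (b e1) (a e2) (b e2) (a f.1.1) (b f.1.1) (a f.1.2) (b f.1.2)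
        (j2 f) (k2 f) Xp Yp
  have evx : ∀ s : ι ⊕ ι → ℤ, (fun k => (MvPolynomial.eval s) (Xp k)) = fun k => s (Sum.inl k) := by
    intro s; funext k; simp [Xp]
  have evy : ∀ s : ι ⊕ ι → ℤ, (fun k => (MvPolynomial.eval s) (Yp k)) = fun k => s (Sum.inr k) := by
    intro s; funext k; simp [Yp]
  obtain ⟨s, hs⟩ := common_point P (by
    rintro (l | f)
    · obtain ⟨x, y, h⟩ := hw1 l
      refine ⟨Sum.elim x y, ?_⟩
      simp only [P]
      rw [map_dl, evx, evy]
      simpa using h
    · refine ⟨Sum.elim (x2 f) (y2 f), ?_⟩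
      simp only [P]
      rw [map_minor, evx, evy]
      simpa using h2 f)
  refine ⟨fun k => s (Sum.inl k), fun k => s (Sum.inr k), ?_, ?_⟩
  · intro l
    have := hs (.inl l)
    simp only [P] at this
    rwa [map_dl, evx, evy] at this
  · intro c d hcd hne
    have := hs (.inr ⟨(c, d), hcd, hne⟩)
    simp only [P] at this
    rw [map_minor, evx, evy] at this
    exact ⟨_, _, this⟩

/-- **Local data exist.** -/
theorem hasLocal [Fintype Λ] [LinearOrder Λ] {a b : Λ → ι → ℤ} (hind : Indep2 a b) {e1 e2 : Λ}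
    (he : e1 < e2) : HasLocal a b e1 e2 := by
  classical
  obtain ⟨x, y, hπ, hmin⟩ := exists_xy hind he
  -- the vectors to avoid
  let F := {f : Λ × Λ // f.1 < f.2 ∧ f ≠ (e1, e2)}
  let κ : ι → ℤ := fun k => kap (a e1) (b e1) (a e2) (b e2) x y k
  let τ : ι → ℤ := fun k => dl (a e2) (b e2) x y * om (a e1) (b e1) x k
    - dl (a e1) (b e1) x y * om (a e2) (b e2) x k
  let c : F ⊕ (Λ ⊕ Fin 2) → ι → ℤ := fun o => match o with
    | .inl f => fun k => kap (a f.1.1) (b f.1.1) (a f.1.2) (b f.1.2) x y k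
    | .inr (.inl l) => fun k => om (a l) (b l) x k
    | .inr (.inr 0) => fun k => wv (a e1) (b e1) y k
    | .inr (.inr 1) => τ
  let U : Submodule ℚ (ι → ℚ) := Submodule.span ℚ {fun k => (κ k : ℚ)}
  have hU : ∀ u : ι → ℤ, (fun k => (u k : ℚ)) ∈ U → ∃ t : ℚ, ∀ k, (u k : ℚ) = t * κ k := by
    intro u hu
    obtain ⟨t, ht⟩ := Submodule.mem_span_singleton.mp hu
    exact ⟨t, fun k => by have := congrFun ht k; simpa using this.symm⟩
  have hUdot : ∀ u f : ι → ℤ, (fun k => (u k : ℚ)) ∈ U → ev f κ = 0 → ev f u = 0 := by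
    intro u f hu h0
    obtain ⟨t, ht⟩ := hU u hu
    have h1 : dot f (fun k => (u k : ℚ)) = t * dot f (fun k => (κ k : ℚ)) := by
      rw [← dot_mul]
      unfold dot
      exact Finset.sum_congr rfl fun k _ => by simp only [ht k]
    rw [dot_int, dot_int, h0] at h1
    have : ((ev f u : ℤ) : ℚ) = 0 := by rw [h1]; simp
    exact_mod_cast this
  have hyκ : ev y κ = 0 := by
    have := ev_kap (a e1) (b e1) (a e2) (b e2) x y y
    have h0 : ∀ l, dl (a l) (b l) y y = 0 := fun l => by simp only [dl]; ring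
    rw [h0, h0] at this
    simpa [κ] using this
  have hxκ : ev x κ = 0 := by
    have := ev_kap (a e1) (b e1) (a e2) (b e2) x y x
    rw [mul_comm (dl (a e2) (b e2) x y), sub_self] at this
    exact this
  have hc : ∀ o, (fun k => ((c o k : ℤ) : ℚ)) ∉ U := by
    rintro (f | l | i)
    · intro h
      obtain ⟨t, ht⟩ := hU _ h
      obtain ⟨j, k, hjk⟩ := hmin f.1.1 f.1.2 f.2.1 f.2.2
      apply hjk
      have h1 := ht j
      have h2 := ht k
      simp only [c, κ] at h1 h2
      have : ((minor (a e1) (b e1) (a e2) (b e2) (a f.1.1) (b f.1.1) (a f.1.2) (b f.1.2) j k x y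
          : ℤ) : ℚ) = 0 := by
        simp only [minor]
        push_cast
        rw [h1, h2]
        ring
      exact_mod_cast this
    · intro h
      have h1 := hUdot _ y h hyκ
      have h2 := ev_om (a l) (b l) x y
      simp only [c] at h1
      exact hπ l (by rw [← h2]; exact h1)
    · fin_cases i
      · intro h
        have h1 := hUdot _ x h hxκ
        have h2 := ev_wv (a e1) (b e1) x y
        simp only [c] at h1
        exact hπ e1 (by rw [← h2]; exact h1)
      · intro h
        obtain ⟨t, ht⟩ := hU _ h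
        simp only [c, τ, κ, om, kap, wv] at ht
        have h1 := hind e1 e2 he.ne
          (-((dl (a e2) (b e2) x y : ℤ) : ℚ) * (ev x (b e1) : ℤ) -
            t * ((dl (a e2) (b e2) x y : ℤ) : ℚ) * (ev y (b e1) : ℤ))
          (((dl (a e2) (b e2) x y : ℤ) : ℚ) * (ev x (a e1) : ℤ) +
            t * ((dl (a e2) (b e2) x y : ℤ) : ℚ) * (ev y (a e1) : ℤ))
          ((((dl (a e1) (b e1) x y : ℤ) : ℚ) * (ev x (b e2) : ℤ)) +
            t * ((dl (a e1) (b e1) x y : ℤ) : ℚ) * (ev y (b e2) : ℤ))
          (-((dl (a e1) (b e1) x y : ℤ) : ℚ) * (ev x (a e2) : ℤ) -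
            t * ((dl (a e1) (b e1) x y : ℤ) : ℚ) * (ev y (a e2) : ℤ))
          (fun k => by
            have := ht k
            push_cast at this ⊢
            linear_combination this)
        have hπ2 : ((dl (a e2) (b e2) x y : ℤ) : ℚ) ≠ 0 := by exact_mod_cast hπ e2
        have h2 : ((ev x (b e1) : ℤ) : ℚ) = - (t * (ev y (b e1) : ℤ)) := by
          apply mul_left_cancel₀ hπ2
          linear_combination -h1.1
        have h3 : ((ev x (a e1) : ℤ) : ℚ) = - (t * (ev y (a e1) : ℤ)) := by
          apply mul_left_cancel₀ hπ2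
          linear_combination h1.2.1
        apply hπ e1
        have : ((dl (a e1) (b e1) x y : ℤ) : ℚ) = 0 := by
          simp only [dl]
          push_cast
          rw [h2, h3]
          ring
        exact_mod_cast this
  obtain ⟨x', hx'U, hx'c⟩ := avoid U (fun o => fun k => ((c o k : ℤ) : ℚ)) hc
  have hx'κ : ev x' κ = 0 := by
    have := hx'U _ (Submodule.mem_span_singleton_self _)
    rw [dot_int] at this
    exact_mod_cast this
  have hx'c' : ∀ o, ev x' (c o) ≠ 0 := by
    intro o h
    apply hx'c o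
    have := dot_int x' (c o)
    rw [h] at this
    simpa using this
  have hneg : ∀ l, dl (a l) (b l) x' y = - dl (a l) (b l) y x' := by
    intro l; simp only [dl]; ring
  have hii : dl (a e1) (b e1) y x' * dl (a e2) (b e2) x y =
      dl (a e2) (b e2) y x' * dl (a e1) (b e1) x y := by
    have := ev_kap (a e1) (b e1) (a e2) (b e2) x y x'
    rw [hneg, hneg] at this
    have h0 : ev x' (fun k => kap (a e1) (b e1) (a e2) (b e2) x y k) = 0 := hx'κ
    rw [h0] at this
    linear_combination this
  -- choice of `z`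
  obtain ⟨z, hzU, hzc⟩ := avoid
    (Submodule.span ℚ {(fun k => (a e2 k : ℚ)), (fun k => (b e2 k : ℚ))})
    (fun _ : Fin 1 => fun k => ((wv (a e1) (b e1) y k : ℤ) : ℚ)) (by
      intro _ h
      obtain ⟨s, t, hst⟩ := Submodule.mem_span_pair.mp h
      have h1 := hind e1 e2 he.ne ((ev y (b e1) : ℤ) : ℚ) (-((ev y (a e1) : ℤ) : ℚ)) (-s) (-t)
        (fun k => by
          have := congrFun hst k
          simp only [Pi.add_apply, Pi.smul_apply, smul_eq_mul, wv] at this
          push_cast at this
          linear_combination -this)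
      apply hπ e1
      have h2 : ev y (b e1) = 0 := by exact_mod_cast h1.1
      have h3 : ev y (a e1) = 0 := by
        have := neg_eq_zero.mp h1.2.1
        exact_mod_cast this
      simp only [dl, h2, h3]; ring)
  have hz1 : ev z (a e2) = 0 := by
    have := hzU _ (Submodule.subset_span (Set.mem_insert _ _))
    rw [dot_int] at this
    exact_mod_cast this
  have hz2 : ev z (b e2) = 0 := by
    have := hzU _ (Submodule.subset_span (Set.mem_insert_of_mem _ rfl))
    rw [dot_int] at this
    exact_mod_cast this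
  have hz3 : dl (a e1) (b e1) y z ≠ 0 := by
    intro h0
    apply hzc 0
    rw [dot_int]
    have h1 := ev_wv (a e1) (b e1) z y
    have h2 : dl (a e1) (b e1) z y = - dl (a e1) (b e1) y z := by simp only [dl]; ring
    have h3 : ev z (fun k => wv (a e1) (b e1) y k) = 0 := by rw [h1, h2, h0, neg_zero]
    exact_mod_cast h3
  refine ⟨x, x', y, z, hπ, ?_, hii, ?_, ?_, hz3, hz1, hz2⟩
  · intro l
    rw [← ev_om]
    exact hx'c' (.inr (.inl l))
  · intro h0
    have h1 : ev x' (fun k => wv (a e1) (b e1) y k) ≠ 0 := hx'c' (.inr (.inr 0))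
    have h2 : ev x' τ ≠ 0 := hx'c' (.inr (.inr 1))
    rw [ev_wv, hneg] at h1
    have h3 : ev x' τ = dl (a e2) (b e2) x y * dl (a e1) (b e1) x x'
        - dl (a e1) (b e1) x y * dl (a e2) (b e2) x x' := by
      rw [← ev_om (a e1) (b e1) x x', ← ev_om (a e2) (b e2) x x']
      exact ev_lin x' _ _ _ _
    rw [h3] at h2
    apply mul_ne_zero h1 h2
    have h4 := hii
    linear_combination (-(dl (a e1) (b e1) x y)) * h0 - (dl (a e1) (b e1) x x') * h4
  · intro c' d' hcd hne h0
    have h1 := hx'c' (.inl ⟨(c', d'), hcd, hne⟩)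
    apply h1
    have h2 := ev_kap (a c') (b c') (a d') (b d') x y x'
    rw [hneg, hneg] at h2
    have h3 : ev x' (c (.inl ⟨(c', d'), hcd, hne⟩)) = _ := h2
    rw [h3]
    linear_combination -h0

end Pool.Agent.H9.Welsh
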