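import Pool.Agent.H9.Welsh.Blocks

/-!
# Plane models over `ℚ`

Points are sent to vectors of a rational vector space so that every line spans a space of dimension at
most three and the spans of two distinct lines meet in dimension at most one.
-/

set_option autoImplicit false

namespace Pool.Agent.H9.Welsh

variable {ι E Λ : Type} [Fintype ι]

/-- The rational vector of an integer vector. -/
def rat (g : ι → ℤ) : ι → ℚ := fun k => (g k : ℚ)

/-- The span of the points of a line. -/
def X (g : E → ι → ℤ) (pts : Λ → Finset E) (l : Λ) : Submodule ℚ (ι → ℚ) :=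
  Submodule.span ℚ ((fun i => rat (g i)) '' (pts l : Set E))

theorem dot_rat (f a : ι → ℤ) : dot f (rat a) = ((ev f a : ℤ) : ℚ) := dot_int f a

theorem dot_add' (f : ι → ℤ) (u v : ι → ℚ) : dot f (u + v) = dot f u + dot f v := dot_add f u v

theorem dot_smul' (f : ι → ℤ) (c : ℚ) (u : ι → ℚ) : dot f (c • u) = c * dot f u := dot_mul f c u

theorem dot_zero' (f : ι → ℤ) : dot f (0 : ι → ℚ) = 0 := by simp [dot]

/-- **Plane models embed.** -/
theorem plane_of_model [Finite E] [Finite Λ] [Nontrivial Λ] (g : E → ι → ℤ) (pts : Λ → Finset E)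
    (h1 : ∀ i j, i ≠ j → ∃ l, i ∈ pts l ∧ j ∈ pts l)
    (h2 : ∀ l, (∃ x ∈ pts l, ∃ y ∈ pts l, x ≠ y ∧
        ∀ i ∈ pts l, ∃ α β : ℚ, rat (g i) = α • rat (g x) + β • rat (g y)) ∨
      ∃ x ∈ pts l, ∃ y ∈ pts l, ∃ z ∈ pts l,
      (∀ α β γ : ℚ, α • rat (g x) + β • rat (g y) + γ • rat (g z) = 0 → α = 0 ∧ β = 0 ∧ γ = 0) ∧
      ∀ i ∈ pts l, ∃ α β γ : ℚ, rat (g i) = α • rat (g x) + β • rat (g y) + γ • rat (g z))
    (h3 : ∀ i j, i ≠ j → ∀ α β : ℚ, α • rat (g i) + β • rat (g j) = 0 → α = 0 ∧ β = 0)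
    (h4 : ∀ l l', l ≠ l' → Module.finrank ℚ ((X g pts l ⊓ X g pts l' : Submodule ℚ (ι → ℚ))) ≤ 1) :
    ∃ (P L : Type) (_ : Membership P L) (_ : Finite P) (_ : Finite L)
      (_ : Configuration.ProjectivePlane P L) (f : E → P), Function.Injective f ∧
      ∀ i j k, i ≠ j → i ≠ k → j ≠ k →
        ((∃ l : L, f i ∈ l ∧ f j ∈ l ∧ f k ∈ l) ↔ ∃ l, i ∈ pts l ∧ j ∈ pts l ∧ k ∈ pts l) := by
  classical
  have hE : Fintype E := Fintype.ofFinite E
  have hΛ : Fintype Λ := Fintype.ofFinite Λ
  -- there are two distinct points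
  obtain ⟨i0, j0, hij0⟩ : ∃ i j : E, i ≠ j := by
    obtain ⟨l0, -⟩ := exists_pair_ne Λ
    rcases h2 l0 with ⟨x, -, y, -, hxy, -⟩ | ⟨x, hx, y, hy, z, hz, hi, -⟩
    · exact ⟨x, y, hxy⟩
    · refine ⟨x, y, ?_⟩
      rintro rfl
      have := hi 1 (-1) 0 (by module)
      exact one_ne_zero this.1
  have hgne : ∀ i, rat (g i) ≠ 0 := by
    intro i h
    obtain ⟨j, hj⟩ : ∃ j, i ≠ j := by
      by_cases hi : i = i0
      · exact ⟨j0, by rw [hi]; exact hij0⟩
      · exact ⟨i0, hi⟩
    have := h3 i j hj 1 0 (by rw [h]; simp)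
    exact one_ne_zero this.1
  -- a generic linear functional
  let cv : E ⊕ (Λ × Λ) → ι → ℚ := fun o => match o with
    | .inl i => rat (g i)
    | .inr q => if h : ∃ w ∈ X g pts q.1 ⊓ X g pts q.2, w ≠ 0 then h.choose else rat (g i0)
  obtain ⟨q, -, hq⟩ := avoid (⊥ : Submodule ℚ (ι → ℚ)) cv (by
    rintro (i | ⟨l, l'⟩)
    · simp only [cv, Submodule.mem_bot]
      exact hgne i
    · simp only [cv, Submodule.mem_bot]
      split_ifs with h
      · exact h.choose_spec.2
      · exact hgne i0)
  have hqint : ∀ l l', l ≠ l' → ∀ W ∈ X g pts l ⊓ X g pts l', dot q W = 0 → W = 0 := by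
    intro l l' hll W hW hqW
    by_contra hne
    have hex : ∃ w ∈ X g pts l ⊓ X g pts l', w ≠ 0 := ⟨W, hW, hne⟩
    have hw := hq (.inr (l, l'))
    simp only [cv] at hw
    rw [dif_pos hex] at hw
    set w := hex.choose with hwdef
    obtain ⟨hwm, hw0⟩ := hex.choose_spec
    have hfr := h4 l l' hll
    have hw0' : (⟨w, hwm⟩ : (X g pts l ⊓ X g pts l' : Submodule ℚ (ι → ℚ))) ≠ 0 := by
      intro h; exact hw0 (congrArg Subtype.val h)
    have hW0' : (⟨W, hW⟩ : (X g pts l ⊓ X g pts l' : Submodule ℚ (ι → ℚ))) ≠ 0 := by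
      intro h; exact hne (congrArg Subtype.val h)
    have hfr1 : Module.finrank ℚ ((X g pts l ⊓ X g pts l' : Submodule ℚ (ι → ℚ))) = 1 := by
      refine le_antisymm hfr ?_
      have : 0 < Module.finrank ℚ ((X g pts l ⊓ X g pts l' : Submodule ℚ (ι → ℚ))) :=
        Module.finrank_pos_iff_exists_ne_zero.mpr ⟨_, hw0'⟩
      omega
    obtain ⟨c, hc⟩ := (finrank_eq_one_iff_of_nonzero' _ hW0').mp hfr1 ⟨w, hwm⟩
    have hc' : c • W = w := congrArg Subtype.val hc
    apply hw
    rw [← hc', dot_smul', hqW, mul_zero]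
  -- normalised points
  have hqg : ∀ i, ev q (g i) ≠ 0 := by
    intro i h
    apply hq (.inl i)
    simp only [cv]
    rw [dot_rat, h]; simp
  let Q : ℤ := ∏ j, ev q (g j)
  have hQ : Q ≠ 0 := Finset.prod_ne_zero_iff.mpr fun j _ => hqg j
  let wt : E → ℤ := fun i => ∏ j ∈ Finset.univ.erase i, ev q (g j)
  have hwt : ∀ i, wt i * ev q (g i) = Q := fun i =>
    Finset.prod_erase_mul _ _ (Finset.mem_univ i)
  have hwt0 : ∀ i, wt i ≠ 0 := fun i => Finset.prod_ne_zero_iff.mpr fun j _ => hqg j
  let v0 : E → ι → ℤ := fun i k => wt i * g i k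
  have hv0 : ∀ i, rat (v0 i) = (wt i : ℚ) • rat (g i) := by
    intro i; funext k; simp [rat, v0]
  have hqv : ∀ i, dot q (rat (v0 i)) = (Q : ℚ) := by
    intro i
    rw [hv0, dot_smul', dot_rat, ← hwt i]
    push_cast; ring
  have hv0X : ∀ l, ∀ i ∈ pts l, rat (v0 i) ∈ X g pts l := by
    intro l i hi
    rw [hv0]
    exact Submodule.smul_mem _ _ (Submodule.subset_span ⟨i, hi, rfl⟩)
  have hv0inj : ∀ i j, i ≠ j → rat (v0 i) ≠ rat (v0 j) := by
    intro i j hij h
    rw [hv0, hv0] at h
    have := h3 i j hij (wt i) (-(wt j)) (by rw [h]; module)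
    exact hwt0 i (by exact_mod_cast this.1)
  let v : E → (ι ⊕ Λ) → ℤ := fun i => Sum.elim (v0 i) 0
  -- the blocks
  have hblk : ∀ l, ∃ a b : (ι ⊕ Λ) → ℤ,
      (rat (fun k => a (.inl k)) ∈ X g pts l ∧ rat (fun k => b (.inl k)) ∈ X g pts l ∧
        dot q (rat (fun k => a (.inl k))) = 0 ∧ dot q (rat (fun k => b (.inl k))) = 0) ∧
      (∀ l', a (.inr l') = 0) ∧ (∀ l', l' ≠ l → b (.inr l') = 0) ∧
      (∀ s t : ℚ, s • rat (fun k => a (.inl k)) + t • rat (fun k => b (.inl k)) = 0 →
        t * b (.inr l) = 0 → s = 0 ∧ t = 0) ∧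
      (∀ i ∈ pts l, ∀ j ∈ pts l, i ≠ j → ∃ t u w : ℤ, t ≠ 0 ∧
        (∀ k, t * (v i k - v j k) = u * a k + w * b k) ∧ ¬ (u = 0 ∧ w = 0)) := by
    intro l
    rcases h2 l with ⟨x, hx, y, hy, hxy, hsp⟩ | ⟨x, hx, y, hy, z, hz, hind, hsp⟩
    · have hra : rat (fun k => v y (.inl k) - v x (.inl k)) = rat (v0 y) - rat (v0 x) := by
        funext k; simp [rat, v]
      have hrb : rat (fun k : ι => (Pi.single (Sum.inr l) (1 : ℤ) : ι ⊕ Λ → ℤ) (.inl k)) = 0 := by
        funext k; simp [rat]
      have hwx : (wt x : ℚ) ≠ 0 := by exact_mod_cast hwt0 x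
      have hwy : (wt y : ℚ) ≠ 0 := by exact_mod_cast hwt0 y
      have hQ' : (Q : ℚ) ≠ 0 := by exact_mod_cast hQ
      have hspv : ∀ i ∈ pts l, ∃ β : ℚ, rat (v0 i) - rat (v0 x) =
          β • (rat (v0 y) - rat (v0 x)) := by
        intro i hi
        obtain ⟨α, β, hi'⟩ := hsp i hi
        have e1 : rat (v0 i) = ((wt i : ℚ) * α / wt x) • rat (v0 x) +
            ((wt i : ℚ) * β / wt y) • rat (v0 y) := by
          rw [hv0 i, hi', hv0 x, hv0 y, smul_smul, smul_smul, smul_add,
            smul_smul, smul_smul, div_mul_cancel₀ _ hwx, div_mul_cancel₀ _ hwy]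
        have e2 := congrArg (dot q) e1
        rw [dot_add', dot_smul', dot_smul', hqv, hqv, hqv] at e2
        have e3 : (wt i : ℚ) * α / wt x = 1 - (wt i : ℚ) * β / wt y := by
          apply mul_right_cancel₀ hQ'
          linear_combination -e2
        refine ⟨(wt i : ℚ) * β / wt y, ?_⟩
        rw [e1, e3]
        module
      refine ⟨fun k => v y k - v x k, Pi.single (.inr l) 1, ⟨?_, ?_, ?_, ?_⟩, ?_, ?_, ?_, ?_⟩
      · rw [hra]; exact Submodule.sub_mem _ (hv0X l y hy) (hv0X l x hx)
      · rw [hrb]; exact Submodule.zero_mem _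
      · rw [hra, sub_eq_add_neg, dot_add', ← neg_one_smul ℚ, dot_smul', hqv, hqv]; ring
      · rw [hrb, dot_zero']
      · intro l'; simp [v]
      · intro l' hl'
        rw [Pi.single_eq_of_ne]
        intro h; exact hl' (Sum.inr.inj h)
      · intro s t hst ht
        have ht0 : t = 0 := by simpa using ht
        refine ⟨?_, ht0⟩
        rw [ht0, zero_smul, add_zero, hra] at hst
        by_contra hs
        have := (smul_eq_zero.mp hst).resolve_left hs
        exact hv0inj y x hxy.symm (sub_eq_zero.mp this)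
      · intro i hi j hj hij
        obtain ⟨β, e1⟩ := hspv i hi
        obtain ⟨β', e2⟩ := hspv j hj
        have e3 : rat (v0 i) - rat (v0 j) = (β - β') • (rat (v0 y) - rat (v0 x)) := by
          have : rat (v0 i) - rat (v0 j) = (rat (v0 i) - rat (v0 x)) - (rat (v0 j) - rat (v0 x)) := by
            module
          rw [this, e1, e2]; module
        set B := β - β' with hB
        refine ⟨B.den, B.num, 0, by exact_mod_cast B.den_nz, ?_, ?_⟩
        · rintro (k | l')
          · have e4 := congrFun e3 k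
            simp only [rat, Pi.sub_apply, Pi.smul_apply, smul_eq_mul] at e4
            have hBn : (B.num : ℚ) = B * B.den := (Rat.mul_den_eq_num B).symm
            have e5 : (((B.den : ℤ) * (v i (.inl k) - v j (.inl k)) : ℤ) : ℚ) =
                ((B.num * (v y (.inl k) - v x (.inl k)) +
                  0 * ((Pi.single (.inr l) 1 : ι ⊕ Λ → ℤ) (.inl k)) : ℤ) : ℚ) := by
              push_cast
              rw [hBn]
              simp only [v, Sum.elim_inl]
              linear_combination (B.den : ℚ) * e4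
            exact_mod_cast e5
          · simp [v]
        · rintro ⟨hu, -⟩
          rw [Rat.num_eq_zero.mp hu, zero_smul] at e3
          exact hv0inj i j hij (sub_eq_zero.mp e3)
    · have hra : rat (fun k => v y (.inl k) - v x (.inl k)) = rat (v0 y) - rat (v0 x) := by
        funext k; simp [rat, v]
      have hrb : rat (fun k => v z (.inl k) - v x (.inl k)) = rat (v0 z) - rat (v0 x) := by
        funext k; simp [rat, v]
      have hwx : (wt x : ℚ) ≠ 0 := by exact_mod_cast hwt0 x
      have hwy : (wt y : ℚ) ≠ 0 := by exact_mod_cast hwt0 y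
      have hwz : (wt z : ℚ) ≠ 0 := by exact_mod_cast hwt0 z
      have hindv : ∀ α β γ : ℚ, α • rat (v0 x) + β • rat (v0 y) + γ • rat (v0 z) = 0 →
          α = 0 ∧ β = 0 ∧ γ = 0 := by
        intro α β γ h
        rw [hv0, hv0, hv0, smul_smul, smul_smul, smul_smul] at h
        obtain ⟨e1, e2, e3⟩ := hind _ _ _ h
        exact ⟨(mul_eq_zero.mp e1).resolve_right hwx, (mul_eq_zero.mp e2).resolve_right hwy,
          (mul_eq_zero.mp e3).resolve_right hwz⟩
      have hQ' : (Q : ℚ) ≠ 0 := by exact_mod_cast hQ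
      have hspv : ∀ i ∈ pts l, ∃ β γ : ℚ, rat (v0 i) - rat (v0 x) =
          β • (rat (v0 y) - rat (v0 x)) + γ • (rat (v0 z) - rat (v0 x)) := by
        intro i hi
        obtain ⟨α, β, γ, hi'⟩ := hsp i hi
        have e1 : rat (v0 i) = ((wt i : ℚ) * α / wt x) • rat (v0 x) +
            ((wt i : ℚ) * β / wt y) • rat (v0 y) + ((wt i : ℚ) * γ / wt z) • rat (v0 z) := by
          rw [hv0 i, hi', hv0 x, hv0 y, hv0 z, smul_smul, smul_smul, smul_smul, smul_add, smul_add,
            smul_smul, smul_smul, smul_smul, div_mul_cancel₀ _ hwx, div_mul_cancel₀ _ hwy,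
            div_mul_cancel₀ _ hwz]
        have e2 := congrArg (dot q) e1
        rw [dot_add', dot_add', dot_smul', dot_smul', dot_smul', hqv, hqv, hqv, hqv] at e2
        have e3 : (wt i : ℚ) * α / wt x = 1 - (wt i : ℚ) * β / wt y - (wt i : ℚ) * γ / wt z := by
          apply mul_right_cancel₀ hQ'
          linear_combination -e2
        refine ⟨(wt i : ℚ) * β / wt y, (wt i : ℚ) * γ / wt z, ?_⟩
        rw [e1, e3]
        module
      refine ⟨fun k => v y k - v x k, fun k => v z k - v x k, ⟨?_, ?_, ?_, ?_⟩, ?_, ?_, ?_, ?_⟩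
      · rw [hra]; exact Submodule.sub_mem _ (hv0X l y hy) (hv0X l x hx)
      · rw [hrb]; exact Submodule.sub_mem _ (hv0X l z hz) (hv0X l x hx)
      · rw [hra, sub_eq_add_neg, dot_add', ← neg_one_smul ℚ, dot_smul', hqv, hqv]; ring
      · rw [hrb, sub_eq_add_neg, dot_add', ← neg_one_smul ℚ, dot_smul', hqv, hqv]; ring
      · intro l'; simp [v]
      · intro l' _; simp [v]
      · intro s t hst _
        rw [hra, hrb] at hst
        obtain ⟨-, e2, e3⟩ := hindv (-(s + t)) s t (by rw [← hst]; module)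
        exact ⟨e2, e3⟩
      · intro i hi j hj hij
        obtain ⟨β, γ, e1⟩ := hspv i hi
        obtain ⟨β', γ', e2⟩ := hspv j hj
        have e3 : rat (v0 i) - rat (v0 j) = (β - β') • (rat (v0 y) - rat (v0 x)) +
            (γ - γ') • (rat (v0 z) - rat (v0 x)) := by
          have : rat (v0 i) - rat (v0 j) = (rat (v0 i) - rat (v0 x)) - (rat (v0 j) - rat (v0 x)) := by
            module
          rw [this, e1, e2]; module
        set B := β - β' with hB
        set C := γ - γ' with hC
        refine ⟨B.den * C.den, B.num * C.den, C.num * B.den, ?_, ?_, ?_⟩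
        · exact mul_ne_zero (by exact_mod_cast B.den_nz) (by exact_mod_cast C.den_nz)
        · rintro (k | l')
          · have e4 := congrFun e3 k
            simp only [rat, Pi.add_apply, Pi.sub_apply, Pi.smul_apply, smul_eq_mul] at e4
            have hBd : (B.den : ℚ) ≠ 0 := by exact_mod_cast B.den_nz
            have hCd : (C.den : ℚ) ≠ 0 := by exact_mod_cast C.den_nz
            have hBn : (B.num : ℚ) = B * B.den := (Rat.mul_den_eq_num B).symm
            have hCn : (C.num : ℚ) = C * C.den := (Rat.mul_den_eq_num C).symm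
            have e5 : (((B.den * C.den : ℤ) * (v i (.inl k) - v j (.inl k)) : ℤ) : ℚ) =
                ((B.num * C.den * (v y (.inl k) - v x (.inl k)) +
                  C.num * B.den * (v z (.inl k) - v x (.inl k)) : ℤ) : ℚ) := by
              push_cast
              rw [hBn, hCn]
              simp only [v, Sum.elim_inl]
              linear_combination (B.den * C.den : ℚ) * e4
            exact_mod_cast e5
          · simp [v]
        · rintro ⟨hu, hw⟩
          have hB0 : B.num = 0 := by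
            rcases mul_eq_zero.mp hu with h | h
            · exact h
            · exact absurd h (by exact_mod_cast C.den_nz)
          have hC0 : C.num = 0 := by
            rcases mul_eq_zero.mp hw with h | h
            · exact h
            · exact absurd h (by exact_mod_cast B.den_nz)
          rw [Rat.num_eq_zero.mp hB0, Rat.num_eq_zero.mp hC0, zero_smul, zero_smul, add_zero] at e3
          exact hv0inj i j hij (sub_eq_zero.mp e3)
  choose a b hab ha hb hindab hcomb using hblk
  refine plane_of_blocks a b ?_ v (fun i l => i ∈ pts l)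
    (fun l i j hi hj hij => hcomb l i hi j hj hij) h1
  intro l l' hll s t u w h
  have hl : t * b l (.inr l) = 0 := by
    have := h (.inr l)
    rw [ha l, ha l', hb l' l hll] at this
    simpa using this
  have hl' : w * b l' (.inr l') = 0 := by
    have := h (.inr l')
    rw [ha l, ha l', hb l l' hll.symm] at this
    simpa using this
  set W : ι → ℚ := s • rat (fun k => a l (.inl k)) + t • rat (fun k => b l (.inl k)) with hW
  have hW' : W = (-u) • rat (fun k => a l' (.inl k)) + (-w) • rat (fun k => b l' (.inl k)) := by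
    funext k
    have := h (.inl k)
    simp only [hW, rat, Pi.add_apply, Pi.smul_apply, smul_eq_mul]
    linear_combination this
  have hWm : W ∈ X g pts l ⊓ X g pts l' := by
    constructor
    · exact Submodule.add_mem _ (Submodule.smul_mem _ _ (hab l).1)
        (Submodule.smul_mem _ _ (hab l).2.1)
    · rw [hW']
      exact Submodule.add_mem _ (Submodule.smul_mem _ _ (hab l').1)
        (Submodule.smul_mem _ _ (hab l').2.1)
  have hqW : dot q W = 0 := by
    rw [hW, dot_add', dot_smul', dot_smul', (hab l).2.2.1, (hab l).2.2.2]; ring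
  have hW0 := hqint l l' hll W hWm hqW
  have r1 := hindab l s t hW0 hl
  have r2 := hindab l' (-u) (-w) (by rw [← hW', hW0]) (by rw [neg_mul, hl', neg_zero])
  exact ⟨r1.1, r1.2, neg_eq_zero.mp r2.1, neg_eq_zero.mp r2.2⟩

end Pool.Agent.H9.Welsh
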