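import Pool.Agent.H9.Welsh.Model

/-!
# Plane models in rational vector spaces
-/

set_option autoImplicit false

namespace Pool.Agent.H9.Welsh

/-- Clearing denominators. -/
theorem exists_scale {ι : Type} [Finite ι] (u : ι → ℚ) :
    ∃ (G : ι → ℤ) (c : ℚ), c ≠ 0 ∧ rat G = c • u := by
  obtain ⟨d, hd⟩ := IsLocalization.exist_integer_multiples_of_finite (nonZeroDivisors ℤ) u
  choose G hG using hd
  refine ⟨G, ((d : ℤ) : ℚ), ?_, ?_⟩
  · have := nonZeroDivisors.coe_ne_zero d
    exact_mod_cast this
  · funext k
    have := hG k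
    simpa [Algebra.smul_def, rat] using this

theorem finrank_span_image {E V : Type} [AddCommGroup V] [Module ℚ V] (g : E → V) (S : Finset E)
    (h : LinearIndepOn ℚ g (S : Set E)) :
    Module.finrank ℚ (Submodule.span ℚ (g '' (S : Set E))) = S.card := by
  have h1 : LinearIndependent ℚ (fun x : (S : Set E) => g x) := h
  rw [Set.image_eq_range, finrank_span_eq_card h1]
  simp

theorem finrank_span_image_le {E V : Type} [AddCommGroup V] [Module ℚ V] (g : E → V)
    (S : Finset E) :
    Module.finrank ℚ (Submodule.span ℚ (g '' (S : Set E))) ≤ S.card := by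
  classical
  have h5 : (g '' (S : Set E)) = ((S.image g : Finset V) : Set V) := by simp
  rw [h5]
  exact (finrank_span_finset_le_card _).trans Finset.card_image_le

/-- **Plane models embed**, coordinate free form. -/
theorem plane_of_space {E Λ V : Type} [AddCommGroup V] [Module ℚ V] [FiniteDimensional ℚ V]
    [Finite E] [Finite Λ] [Nontrivial Λ] (g : E → V) (pts : Λ → Finset E)
    (h0 : ∀ l, ∃ x ∈ pts l, ∃ y ∈ pts l, x ≠ y)
    (h1 : ∀ i j, i ≠ j → ∃ l, i ∈ pts l ∧ j ∈ pts l)
    (h2 : ∀ l, Module.finrank ℚ (Submodule.span ℚ (g '' (pts l : Set E))) ≤ 3)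
    (h3 : ∀ i j, i ≠ j → ∀ α β : ℚ, α • g i + β • g j = 0 → α = 0 ∧ β = 0)
    (h4 : ∀ l l', l ≠ l' → Module.finrank ℚ ((Submodule.span ℚ (g '' (pts l : Set E)) ⊓
      Submodule.span ℚ (g '' (pts l' : Set E)) : Submodule ℚ V)) ≤ 1) :
    ∃ (P L : Type) (_ : Membership P L) (_ : Finite P) (_ : Finite L)
      (_ : Configuration.ProjectivePlane P L) (f : E → P), Function.Injective f ∧
      ∀ i j k, i ≠ j → i ≠ k → j ≠ k →
        ((∃ l : L, f i ∈ l ∧ f j ∈ l ∧ f k ∈ l) ↔ ∃ l, i ∈ pts l ∧ j ∈ pts l ∧ k ∈ pts l) := by
  classical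
  let φ : V ≃ₗ[ℚ] (Fin (Module.finrank ℚ V) → ℚ) := (Module.finBasis ℚ V).equivFun
  have hsc : ∀ i, ∃ (G : Fin (Module.finrank ℚ V) → ℤ) (c : ℚ), c ≠ 0 ∧ rat G = c • φ (g i) :=
    fun i => exists_scale _
  choose G c hc hG using hsc
  have hXl : ∀ l, X G pts l = (Submodule.span ℚ (g '' (pts l : Set E))).map (φ : V →ₗ[ℚ] _) := by
    intro l
    rw [Submodule.map_span, ← Set.image_comp]
    apply le_antisymm
    · refine Submodule.span_le.mpr ?_
      rintro _ ⟨i, hi, rfl⟩
      simp only
      rw [hG i]
      exact Submodule.smul_mem _ _ (Submodule.subset_span ⟨i, hi, rfl⟩)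
    · refine Submodule.span_le.mpr ?_
      rintro _ ⟨i, hi, rfl⟩
      have : (φ : V →ₗ[ℚ] _) (g i) = (c i)⁻¹ • rat (G i) := by
        rw [hG i, smul_smul, inv_mul_cancel₀ (hc i), one_smul]; rfl
      simp only [Function.comp_apply]
      rw [this]
      exact Submodule.smul_mem _ _ (Submodule.subset_span ⟨i, hi, rfl⟩)
  have hφinj : Function.Injective (φ : V →ₗ[ℚ] (Fin (Module.finrank ℚ V) → ℚ)) := φ.injective
  have h3G : ∀ i j, i ≠ j → ∀ α β : ℚ, α • rat (G i) + β • rat (G j) = 0 → α = 0 ∧ β = 0 := by
    intro i j hij α β h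
    rw [hG i, hG j, smul_smul, smul_smul, ← map_smul, ← map_smul, ← map_add] at h
    have h' := (map_eq_zero_iff φ φ.injective).mp h
    obtain ⟨e1, e2⟩ := h3 i j hij _ _ h'
    exact ⟨(mul_eq_zero.mp e1).resolve_right (hc i), (mul_eq_zero.mp e2).resolve_right (hc j)⟩
  refine plane_of_model G pts h1 ?_ h3G ?_
  · intro l
    obtain ⟨x, hx, y, hy, hxy⟩ := h0 l
    by_cases hall : ∀ i ∈ pts l, ∃ α β : ℚ, rat (G i) = α • rat (G x) + β • rat (G y)
    · exact Or.inl ⟨x, hx, y, hy, hxy, hall⟩
    · right
      push Not at hall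
      obtain ⟨z, hz, hzn⟩ := hall
      have hind : ∀ α β γ : ℚ, α • rat (G x) + β • rat (G y) + γ • rat (G z) = 0 →
          α = 0 ∧ β = 0 ∧ γ = 0 := by
        intro α β γ h
        by_cases hγ : γ = 0
        · rw [hγ, zero_smul, add_zero] at h
          have := h3G x y hxy α β h
          exact ⟨this.1, this.2, hγ⟩
        · exfalso
          apply hzn (-(α / γ)) (-(β / γ))
          have h5 : rat (G z) = (γ⁻¹) • (γ • rat (G z)) := by
            rw [smul_smul, inv_mul_cancel₀ hγ, one_smul]
          have h6 : γ • rat (G z) = -(α • rat (G x) + β • rat (G y)) :=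
            eq_neg_of_add_eq_zero_right h
          rw [h5, h6]
          module
      refine ⟨x, hx, y, hy, z, hz, hind, ?_⟩
      have hli : LinearIndependent ℚ ![rat (G x), rat (G y), rat (G z)] := by
        rw [Fintype.linearIndependent_iff]
        intro w hw
        rw [Fin.sum_univ_three] at hw
        obtain ⟨e1, e2, e3⟩ := hind _ _ _ hw
        intro i
        fin_cases i
        · exact e1
        · exact e2
        · exact e3
      have hle : Submodule.span ℚ (Set.range ![rat (G x), rat (G y), rat (G z)]) ≤ X G pts l := by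
        refine Submodule.span_le.mpr ?_
        rintro _ ⟨i, rfl⟩
        fin_cases i
        · exact Submodule.subset_span ⟨x, hx, rfl⟩
        · exact Submodule.subset_span ⟨y, hy, rfl⟩
        · exact Submodule.subset_span ⟨z, hz, rfl⟩
      have hfr : Module.finrank ℚ (X G pts l) ≤ 3 := by
        rw [hXl l]
        exact (Submodule.finrank_map_le _ _).trans (h2 l)
      have heq : Submodule.span ℚ (Set.range ![rat (G x), rat (G y), rat (G z)]) = X G pts l := by
        apply Submodule.eq_of_le_of_finrank_le hle
        rw [finrank_span_eq_card hli]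
        simpa using hfr
      intro i hi
      have hmem : rat (G i) ∈ X G pts l := Submodule.subset_span ⟨i, hi, rfl⟩
      rw [← heq, Submodule.mem_span_range_iff_exists_fun] at hmem
      obtain ⟨w, hw⟩ := hmem
      rw [Fin.sum_univ_three] at hw
      exact ⟨w 0, w 1, w 2, hw.symm⟩
  · intro l l' hll
    rw [hXl l, hXl l', ← Submodule.map_inf _ hφinj]
    exact (Submodule.finrank_map_le _ _).trans (h4 l l' hll)

/-- **Plane models from five-point independence.** -/
theorem plane_of_five {E Λ V : Type} [AddCommGroup V] [Module ℚ V] [FiniteDimensional ℚ V]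
    [Finite E] [Finite Λ] [Nontrivial Λ] [DecidableEq E] (g : E → V) (pts : Λ → Finset E)
    (h0 : ∀ l, 2 ≤ (pts l).card)
    (h1 : ∀ i j, i ≠ j → ∃ l, i ∈ pts l ∧ j ∈ pts l)
    (hint : ∀ l l', l ≠ l' → (pts l ∩ pts l').card ≤ 1)
    (h2 : ∀ l, Module.finrank ℚ (Submodule.span ℚ (g '' (pts l : Set E))) ≤ 3)
    (hP : ∀ F : Finset E, F.card ≤ 5 → (∀ l, (F ∩ pts l).card ≤ 3) →
      LinearIndepOn ℚ g (F : Set E)) :
    ∃ (P L : Type) (_ : Membership P L) (_ : Finite P) (_ : Finite L)
      (_ : Configuration.ProjectivePlane P L) (f : E → P), Function.Injective f ∧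
      ∀ i j k, i ≠ j → i ≠ k → j ≠ k →
        ((∃ l : L, f i ∈ l ∧ f j ∈ l ∧ f k ∈ l) ↔ ∃ l, i ∈ pts l ∧ j ∈ pts l ∧ k ∈ pts l) := by
  refine plane_of_space g pts ?_ h1 h2 ?_ ?_
  · intro l
    obtain ⟨x, hx, y, hy, hxy⟩ := Finset.one_lt_card.mp (h0 l)
    exact ⟨x, hx, y, hy, hxy⟩
  · intro i j hij α β h
    have hli := hP {i, j} (by rw [Finset.card_pair hij]; norm_num) (fun l =>
      (Finset.card_le_card Finset.inter_subset_left).trans (by rw [Finset.card_pair hij]; norm_num))
    rw [Finset.coe_pair] at hli
    rw [LinearIndepOn.pair_iff _ hij] at hli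
    exact hli α β h
  · intro l l' hll
    -- subsets
    obtain ⟨T, hT, hTc⟩ := Finset.exists_subset_card_eq (s := pts l) (n := min 3 (pts l).card)
      (min_le_right _ _)
    obtain ⟨T', hT', hTc'⟩ := Finset.exists_subset_card_eq (s := pts l' \ pts l)
      (n := min 3 (pts l').card - 1) (by
        have h5 := Finset.card_sdiff_add_card_inter (pts l') (pts l)
        have h6 := hint l' l hll.symm
        have h7 := min_le_right 3 (pts l').card
        omega)
    have hdisj : Disjoint T T' := by
      rw [Finset.disjoint_left]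
      intro x hx hx'
      exact (Finset.mem_sdiff.mp (hT' hx')).2 (hT hx)
    have hF : LinearIndepOn ℚ g ((T ∪ T' : Finset E) : Set E) := by
      apply hP
      · have h5 := Finset.card_union_le T T'
        have h6 := min_le_left 3 (pts l').card
        have h7 := min_le_left 3 (pts l).card
        omega
      · intro m
        by_contra hcon
        push Not at hcon
        by_cases hml : m = l
        · subst hml
          have h5 : (T ∪ T') ∩ pts m ⊆ T := by
            intro x hx
            rw [Finset.mem_inter, Finset.mem_union] at hx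
            rcases hx.1 with h | h
            · exact h
            · exact absurd hx.2 (Finset.mem_sdiff.mp (hT' h)).2
          have := Finset.card_le_card h5
          have := min_le_left 3 (pts m).card
          omega
        · have h5 : ((T ∪ T') ∩ pts m).card ≤ (T ∩ pts m).card + (T' ∩ pts m).card := by
            rw [Finset.union_inter_distrib_right]
            exact Finset.card_union_le _ _
          have h6 : (T ∩ pts m).card ≤ 1 :=
            (Finset.card_le_card (Finset.inter_subset_inter_right hT)).trans
              (hint l m (fun h => hml h.symm))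
          have h7 : (T' ∩ pts m).card ≤ T'.card := Finset.card_le_card Finset.inter_subset_left
          have h8 := min_le_left 3 (pts l').card
          omega
    -- spans over the subsets
    have hspan : ∀ (m : Λ) (S : Finset E), S ⊆ pts m → S.card = min 3 (pts m).card →
        Submodule.span ℚ (g '' (pts m : Set E)) ≤ Submodule.span ℚ (g '' (S : Set E)) := by
      intro m S hS hSc
      by_cases hm : (pts m).card ≤ 3
      · have : S = pts m := Finset.eq_of_subset_of_card_le hS (by rw [hSc, min_eq_right hm])
        rw [this]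
      · push Not at hm
        rw [min_eq_left hm.le] at hSc
        have hli : LinearIndepOn ℚ g (S : Set E) := by
          apply hP
          · omega
          · intro l
            exact (Finset.card_le_card Finset.inter_subset_left).trans hSc.le
        have hle : Submodule.span ℚ (g '' (S : Set E)) ≤ Submodule.span ℚ (g '' (pts m : Set E)) :=
          Submodule.span_mono (Set.image_mono (by exact_mod_cast hS))
        have hfr : Module.finrank ℚ (Submodule.span ℚ (g '' (S : Set E))) = 3 := by
          rw [finrank_span_image g S hli, hSc]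
        rw [Submodule.eq_of_le_of_finrank_le hle (by rw [hfr]; exact h2 m)]
    have hX := hspan l T hT hTc
    set Y := Submodule.span ℚ (g '' (pts l' : Set E)) with hY
    set X := Submodule.span ℚ (g '' (pts l : Set E)) with hXdef
    set Z := Submodule.span ℚ (g '' (T' : Set E)) with hZ
    have hZY : Z ≤ Y := Submodule.span_mono (Set.image_mono (by
      intro x hx
      exact (Finset.mem_sdiff.mp (hT' hx)).1))
    have hdis : Disjoint X Z := by
      rw [Finset.coe_union, linearIndepOn_union_iff (by exact_mod_cast hdisj)] at hF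
      exact hF.2.2.mono_left hX
    have hZfr : Module.finrank ℚ Z = T'.card :=
      finrank_span_image g T' (hF.mono (by simp))
    have hYfr : Module.finrank ℚ Y ≤ min 3 (pts l').card :=
      le_min (h2 l') (finrank_span_image_le g (pts l'))
    have hinf : Module.finrank ℚ (X ⊓ Y : Submodule ℚ V) + Module.finrank ℚ Z ≤
        Module.finrank ℚ Y := by
      have hd : Disjoint (X ⊓ Y) Z := hdis.mono_left inf_le_left
      have h5 := Submodule.finrank_sup_add_finrank_inf_eq (X ⊓ Y) Z
      rw [hd.eq_bot, finrank_bot, add_zero] at h5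
      rw [← h5]
      exact Submodule.finrank_mono (sup_le inf_le_right hZY)
    have h9 := h0 l'
    have h10 : 2 ≤ min 3 (pts l').card := le_min (by norm_num) h9
    omega

end Pool.Agent.H9.Welsh
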