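import Pool.Agent.H9.Welsh.Extend

/-!
# The Veronese model of a planar configuration over `ℚ`
-/

set_option autoImplicit false

namespace Pool.Agent.H9.Welsh

/-- The Veronese lift of a vector. -/
def ver (p : Fin 3 → ℚ) : Fin 3 → Fin 3 → ℚ := fun i j => p i * p j

/-- The product of two linear forms as a linear form on the Veronese space. -/
def bil (φ ψ : Module.Dual ℚ (Fin 3 → ℚ)) : (Fin 3 → Fin 3 → ℚ) →ₗ[ℚ] ℚ :=
  φ ∘ₗ (LinearMap.pi (fun i => ψ ∘ₗ LinearMap.proj i))

theorem bil_ver (φ ψ : Module.Dual ℚ (Fin 3 → ℚ)) (p : Fin 3 → ℚ) :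
    bil φ ψ (ver p) = φ p * ψ p := by
  have h1 : (LinearMap.pi (fun i => ψ ∘ₗ LinearMap.proj i) : (Fin 3 → Fin 3 → ℚ) →ₗ[ℚ] _) (ver p) =
      (ψ p) • p := by
    funext i
    have h2 : (ver p) i = p i • p := by funext j; simp [ver]
    simp only [LinearMap.pi_apply, LinearMap.comp_apply, LinearMap.proj_apply, Pi.smul_apply]
    rw [h2, map_smul, smul_eq_mul, smul_eq_mul, mul_comm]
  rw [bil, LinearMap.comp_apply, h1, map_smul, smul_eq_mul, mul_comm]

/-- Splitting at most four elements into two good pairs. -/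
theorem split_pairs {E : Type} [DecidableEq E] (O : Finset E) (hO : O.card ≤ 4)
    (hne : O.Nonempty) (good : E → E → Prop) (hsymm : ∀ a b, good a b → good b a)
    (hrefl : ∀ a ∈ O, good a a)
    (h3 : ∀ a ∈ O, ∀ b ∈ O, ∀ c ∈ O, a ≠ b → a ≠ c → b ≠ c → ¬ good a b → good a c) :
    ∃ p ∈ O, ∃ q ∈ O, ∃ r ∈ O, ∃ s ∈ O, good p q ∧ good r s ∧
      ∀ j ∈ O, j = p ∨ j = q ∨ j = r ∨ j = s := by
  have hpos : 0 < O.card := Finset.card_pos.mpr hne
  obtain hc | hc | hc | hc : O.card = 1 ∨ O.card = 2 ∨ O.card = 3 ∨ O.card = 4 := by omega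
  · obtain ⟨a, rfl⟩ := Finset.card_eq_one.mp hc
    refine ⟨a, by simp, a, by simp, a, by simp, a, by simp, hrefl a (by simp), hrefl a (by simp), ?_⟩
    intro j hj
    exact Or.inl (Finset.mem_singleton.mp hj)
  · obtain ⟨a, b, hab, rfl⟩ := Finset.card_eq_two.mp hc
    refine ⟨a, by simp, a, by simp, b, by simp, b, by simp, hrefl a (by simp), hrefl b (by simp), ?_⟩
    intro j hj
    rw [Finset.mem_insert, Finset.mem_singleton] at hj
    tauto
  · obtain ⟨a, b, c, hab, hac, hbc, rfl⟩ := Finset.card_eq_three.mp hc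
    by_cases h : good a b
    · refine ⟨a, by simp, b, by simp, c, by simp, c, by simp, h, hrefl c (by simp), ?_⟩
      intro j hj
      simp only [Finset.mem_insert, Finset.mem_singleton] at hj
      tauto
    · refine ⟨a, by simp, c, by simp, b, by simp, b, by simp,
        h3 a (by simp) b (by simp) c (by simp) hab hac hbc h, hrefl b (by simp), ?_⟩
      intro j hj
      simp only [Finset.mem_insert, Finset.mem_singleton] at hj
      tauto
  · obtain ⟨a, O', ha, rfl, hO'⟩ := Finset.card_eq_succ.mp hc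
    obtain ⟨b, c, d, hbc, hbd, hcd, rfl⟩ := Finset.card_eq_three.mp hO'
    simp only [Finset.mem_insert, Finset.mem_singleton, not_or] at ha
    obtain ⟨hab, hac, had⟩ := ha
    by_cases h : good a b ∧ good c d
    · refine ⟨a, by simp, b, by simp, c, by simp, d, by simp, h.1, h.2, ?_⟩
      intro j hj
      simp only [Finset.mem_insert, Finset.mem_singleton] at hj
      tauto
    · refine ⟨a, by simp, c, by simp, b, by simp, d, by simp, ?_, ?_, ?_⟩
      · by_cases h1 : good a b
        · have h2 : ¬ good d c := fun h2 => h ⟨h1, hsymm _ _ h2⟩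
          have h2' : ¬ good c d := fun h2 => h ⟨h1, h2⟩
          exact hsymm _ _ (h3 c (by simp) d (by simp) a (by simp) hcd (Ne.symm hac) (Ne.symm had) h2')
        · exact h3 a (by simp) b (by simp) c (by simp) hab hac hbc h1
      · by_cases h1 : good a b
        · have h2 : ¬ good d c := fun h2 => h ⟨h1, hsymm _ _ h2⟩
          exact hsymm _ _ (h3 d (by simp) c (by simp) b (by simp) hcd.symm hbd.symm hbc.symm h2)
        · have h2 : ¬ good b a := fun h2 => h1 (hsymm _ _ h2)
          exact h3 b (by simp) a (by simp) d (by simp) (Ne.symm hab) hbd had h2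
      · intro j hj
        simp only [Finset.mem_insert, Finset.mem_singleton] at hj
        tauto

/-- **At most five points, no four collinear, have independent Veronese lifts.** -/
theorem ver_indep {E : Type} [DecidableEq E] (f : E → Fin 3 → ℚ) (S : Finset E)
    (h5 : S.card ≤ 5) (h0 : ∀ x ∈ S, f x ≠ 0)
    (h2 : ∀ x ∈ S, ∀ y ∈ S, x ≠ y → f x ∉ Submodule.span ℚ {f y})
    (h4 : ∀ x ∈ S, ∀ y ∈ S, ∀ z ∈ S, ∀ w ∈ S, x ≠ y → x ≠ z → x ≠ w → y ≠ z → y ≠ w → z ≠ w →
      ¬ (f z ∈ Submodule.span ℚ {f x, f y} ∧ f w ∈ Submodule.span ℚ {f x, f y})) :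
    LinearIndepOn ℚ (fun x => ver (f x)) (S : Set E) := by
  rw [linearIndepOn_finset_iff]
  intro a ha i hi
  -- two functionals
  obtain ⟨φ, ψ, hφ, hψ, hO⟩ : ∃ φ ψ : Module.Dual ℚ (Fin 3 → ℚ), φ (f i) ≠ 0 ∧ ψ (f i) ≠ 0 ∧
      ∀ j ∈ S.erase i, φ (f j) = 0 ∨ ψ (f j) = 0 := by
    rcases (S.erase i).eq_empty_or_nonempty with he | hne
    · obtain ⟨φ, hφ, -⟩ := Submodule.exists_le_ker_of_notMem
        (p := (⊥ : Submodule ℚ (Fin 3 → ℚ))) (v := f i) (by simpa using h0 i hi)
      exact ⟨φ, φ, hφ, hφ, by rw [he]; simp⟩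
    · obtain ⟨p, hp, q, hq, r, hr, s, hs, hpq, hrs, hj⟩ := split_pairs (S.erase i) (by
          rw [Finset.card_erase_of_mem hi]; omega) hne
        (fun x y => f i ∉ Submodule.span ℚ {f x, f y})
        (by
          intro x y h
          rwa [Set.pair_comm])
        (by
          intro x hx
          simp only [Set.pair_eq_singleton]
          exact h2 i hi x (Finset.mem_of_mem_erase hx) (Finset.ne_of_mem_erase hx).symm)
        (by
          intro x hx y hy z hz hxy hxz hyz hbad hbad'
          rw [not_not] at hbad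
          have e1 := h2 i hi x (Finset.mem_of_mem_erase hx) (Finset.ne_of_mem_erase hx).symm
          have e2 : f y ∈ Submodule.span ℚ {f i, f x} := by
            rw [Set.pair_comm] at hbad
            exact mem_span_insert_exchange hbad e1
          have e3 : f z ∈ Submodule.span ℚ {f i, f x} := by
            rw [Set.pair_comm] at hbad'
            exact mem_span_insert_exchange hbad' e1
          exact h4 i hi x (Finset.mem_of_mem_erase hx) y (Finset.mem_of_mem_erase hy) z
            (Finset.mem_of_mem_erase hz) (Finset.ne_of_mem_erase hx).symm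
            (Finset.ne_of_mem_erase hy).symm (Finset.ne_of_mem_erase hz).symm hxy hxz hyz
            ⟨e2, e3⟩)
      obtain ⟨φ, hφ, hφk⟩ := Submodule.exists_le_ker_of_notMem hpq
      obtain ⟨ψ, hψ, hψk⟩ := Submodule.exists_le_ker_of_notMem hrs
      refine ⟨φ, ψ, hφ, hψ, fun j hjO => ?_⟩
      rcases hj j hjO with rfl | rfl | rfl | rfl
      · exact Or.inl (hφk (Submodule.subset_span (by simp)))
      · exact Or.inl (hφk (Submodule.subset_span (by simp)))
      · exact Or.inr (hψk (Submodule.subset_span (by simp)))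
      · exact Or.inr (hψk (Submodule.subset_span (by simp)))
  have h6 := congrArg (bil φ ψ) ha
  rw [map_zero, map_sum, Finset.sum_eq_single_of_mem i hi] at h6
  · rw [map_smul, bil_ver, smul_eq_mul] at h6
    exact (mul_eq_zero.mp h6).resolve_right (mul_ne_zero hφ hψ)
  · intro j hj hji
    rw [map_smul, bil_ver]
    rcases hO j (Finset.mem_erase.mpr ⟨hji, hj⟩) with h | h
    · rw [h, zero_mul, smul_zero]
    · rw [h, mul_zero, smul_zero]

/-- The lifts of the vectors of a plane span dimension at most three. -/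
theorem ver_line {E : Type} (f : E → Fin 3 → ℚ) (u v : Fin 3 → ℚ) (A : Set E)
    (hA : ∀ x ∈ A, f x ∈ Submodule.span ℚ {u, v}) :
    Module.finrank ℚ (Submodule.span ℚ ((fun x => ver (f x)) '' A)) ≤ 3 := by
  let w : Fin 3 → (Fin 3 → Fin 3 → ℚ) := ![ver u, fun i j => u i * v j + v i * u j, ver v]
  have hle : Submodule.span ℚ ((fun x => ver (f x)) '' A) ≤ Submodule.span ℚ (Set.range w) := by
    refine Submodule.span_le.mpr ?_
    rintro _ ⟨x, hx, rfl⟩
    obtain ⟨α, β, h⟩ := Submodule.mem_span_pair.mp (hA x hx)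
    rw [SetLike.mem_coe, Submodule.mem_span_range_iff_exists_fun]
    refine ⟨![α ^ 2, α * β, β ^ 2], ?_⟩
    rw [Fin.sum_univ_three]
    funext i j
    simp only [w, ver, Matrix.cons_val_zero, Matrix.cons_val_one, Matrix.cons_val_two,
      Matrix.head_cons, Matrix.tail_cons, Pi.add_apply, Pi.smul_apply, smul_eq_mul, ← h]
    ring
  refine (Submodule.finrank_mono hle).trans ?_
  exact (finrank_range_le_card (R := ℚ) w).trans (by simp)

end Pool.Agent.H9.Welsh
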